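import Pool.Agent.Lib.MP_3ade05_lc.Defs
import Mathlib

/-!
# The pattern: definitions used in the final statement
-/

set_option autoImplicit false

open Cardinal Set Order

namespace Pool.PC

open Pool.MP_3ade05_lc

/-- The transitive set `V`, with the membership relation, is a model of `ZFC`. -/
structure ZFCModel (V : Set ZFSet.{0}) : Prop extends ZFModel V where
  choice : ∀ x ∈ V, (∀ y ∈ V, y ∈ x → ∃ z ∈ V, z ∈ y) →
    (∀ y ∈ V, ∀ y' ∈ V, y ∈ x → y' ∈ x → y ≠ y' → ∀ z ∈ V, ¬ (z ∈ y ∧ z ∈ y')) →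
    ∃ c ∈ V, ∀ y ∈ V, y ∈ x → ∃! z, z ∈ V ∧ z ∈ y ∧ z ∈ c

/-- `f` is a function (a set of ordered pairs) with domain `a`. -/
def FunOn (f a : ZFSet.{0}) : Prop :=
  (∀ z ∈ f, ∃ x ∈ a, ∃ y, z = ZFSet.pair x y) ∧ ∀ x ∈ a, ∃! y, ZFSet.pair x y ∈ f

/-- `c` is an infinite cardinal of the transitive model `V`. -/
structure InfCard (V : Set ZFSet.{0}) (c : ZFSet.{0}) : Prop where
  mem : c ∈ V
  ord : c.IsOrdinal
  inf : ZFSet.omega ⊆ c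
  card : ∀ a ∈ c, ∀ f ∈ V, FunOn f a → ∃ y ∈ c, ∀ x ∈ a, ZFSet.pair x y ∉ f

/-- `c` is the least infinite cardinal of `V` greater than `b`. -/
def NextCard (V : Set ZFSet.{0}) (b c : ZFSet.{0}) : Prop :=
  InfCard V c ∧ b ∈ c ∧ ∀ d ∈ c, InfCard V d → d ∈ b ∨ d = b

/-- `al n` is `ℵ_n` of `V`, and `w`, `w₁`, `w₂` are `ℵ_ω`, `ℵ_{ω+1}`, `ℵ_{ω+2}` of `V`. -/
structure Alephs (V : Set ZFSet.{0}) (al : ℕ → ZFSet.{0}) (w w₁ w₂ : ZFSet.{0}) : Prop where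
  zero : al 0 = ZFSet.omega
  succ : ∀ n, NextCard V (al n) (al (n + 1))
  lim : InfCard V w ∧ (∀ n, al n ∈ w) ∧ ∀ c ∈ w, ∃ n, c ∈ al n
  one : NextCard V w w₁
  two : NextCard V w₁ w₂

/-- The von Neumann numerals. -/
def num : ℕ → ZFSet.{0}
  | 0 => ∅
  | n + 1 => insert (num n) (num n)

/-- The set `A` of natural numbers as a set. -/
noncomputable def nset (A : Set ℕ) : ZFSet.{0} :=
  ZFSet.sep (fun x => ∃ n ∈ A, x = num n) ZFSet.omega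

/-- `g` is an element of `∏_{n ∈ A} ℵ_n` of the model `V`. -/
def Elt (V : Set ZFSet.{0}) (al : ℕ → ZFSet.{0}) (A : Set ℕ) (g : ZFSet.{0}) : Prop :=
  g ∈ V ∧ FunOn g (nset A) ∧ ∀ n ∈ A, ∀ y, ZFSet.pair (num n) y ∈ g → y ∈ al n

/-- `g ≤ g'` pointwise on `A`. -/
def PLe (A : Set ℕ) (g g' : ZFSet.{0}) : Prop :=
  ∀ n ∈ A, ∀ y y', ZFSet.pair (num n) y ∈ g → ZFSet.pair (num n) y' ∈ g' → y ⊆ y'

/-- In `V` there is a family indexed by `c` of elements of `∏_{n ∈ A} ℵ_n` which is cofinal for the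
pointwise order. -/
def CofFam (V : Set ZFSet.{0}) (al : ℕ → ZFSet.{0}) (A : Set ℕ) (c : ZFSet.{0}) : Prop :=
  ∃ F ∈ V, FunOn F c ∧ (∀ x ∈ c, ∀ g, ZFSet.pair x g ∈ F → Elt V al A g) ∧
    ∀ g, Elt V al A g → ∃ x ∈ c, ∃ g', ZFSet.pair x g' ∈ F ∧ PLe A g g'

/-- `V` satisfies: the cofinality of `∏_{n ∈ A} ℵ_n` is the cardinal `c`. -/
def CofIs (V : Set ZFSet.{0}) (al : ℕ → ZFSet.{0}) (A : Set ℕ) (c : ZFSet.{0}) : Prop :=
  InfCard V c ∧ CofFam V al A c ∧ ∀ d ∈ c, ¬ CofFam V al A d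

end Pool.PC
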