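import Pool.Agent.Lib.MP_ad72f3_pc.Ev

/-!
# Names for pairs, ordinals and functions (N-side)
-/

set_option autoImplicit false
set_option linter.unusedSectionVars false

open Cardinal Set Order

namespace Pool.PC

open Pool.MP_3ade05_lc

variable {P : Type 1} [Preorder P]

/-- Name of the unordered pair. -/
def uN (σ τ : Name P) : Name P := Name.mk Bool (fun b => cond b σ τ) (fun _ => ⊤)

/-- Name of the ordered pair. -/
def oN (σ τ : Name P) : Name P := uN (uN σ σ) (uN σ τ)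

variable (P) in
/-- Name of an ordinal. -/
noncomputable def ordN : Ordinal.{0} → Name P
  | α => Name.mk α.ToType (fun i => ordN (Ordinal.ToType.toOrd i).1) (fun _ => ⊤)
termination_by α => α
decreasing_by exact (Ordinal.ToType.toOrd i).2

lemma ordN_def (α : Ordinal.{0}) : ordN P α =
    Name.mk α.ToType (fun i => ordN P (Ordinal.ToType.toOrd i).1) (fun _ => ⊤) := by
  rw [ordN]

lemma A_ne_self (σ : Name P) (k : σ.ι) : σ.A k ≠ σ := by
  induction σ using Name.ind with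
  | h σ ih =>
    intro h
    have h1 : ∀ τ : Name P, τ = σ → (∀ l : τ.ι, τ.A l ≠ τ) := by
      intro τ hτ l
      subst hτ
      have := ih k
      revert this
      rw [h]
      intro this
      exact this l
    exact h1 σ rfl k h

lemma ordN_ι (α : Ordinal.{0}) (β : Ordinal.{0}) (h : β < α) :
    ∃ k : (ordN P α).ι, (ordN P α).A k = ordN P β := by
  rw [ordN_def]
  refine ⟨Ordinal.ToType.mk ⟨β, h⟩, ?_⟩
  show ordN P (Ordinal.ToType.toOrd (Ordinal.ToType.mk ⟨β, h⟩)).1 = ordN P β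
  simp [Ordinal.ToType.toOrd]

/-- Task N0. -/
lemma ordN_injective : Function.Injective (ordN P) := by
  intro α β h
  by_contra hne
  rcases lt_or_gt_of_ne hne with hlt | hlt
  · obtain ⟨k, hk⟩ := ordN_ι (P := P) β α hlt
    exact A_ne_self _ k (hk.trans h)
  · obtain ⟨k, hk⟩ := ordN_ι (P := P) α β hlt
    exact A_ne_self _ k (hk.trans h.symm)

lemma uN_injective {σ τ σ' τ' : Name P} (h : uN σ τ = uN σ' τ') : σ = σ' ∧ τ = τ' := by
  unfold uN at h
  injection h with h1 h2 h3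
  have h2' : (fun b => cond b σ τ) = (fun b => cond b σ' τ') := h2
  exact ⟨congrFun h2' true, congrFun h2' false⟩

/-- Task N0. -/
lemma oN_injective {σ τ σ' τ' : Name P} (h : oN σ τ = oN σ' τ') : σ = σ' ∧ τ = τ' :=
  uN_injective (uN_injective h).2

/-- Task N0: closure under operations on ordinals. -/
lemma Ev.ord1 (F : Ordinal.{0} → Ordinal.{0}) :
    Ev (P := P) (fun U _ => ∀ α, ordN P α ∈ U → ordN P (F α) ∈ U) := by
  refine (Ev.op (n := 1) (fun v => ordN P (F (Function.invFun (ordN P) (v 0))))).mono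
    fun U H h α hα => ?_
  have := h ![ordN P α] (by intro i; fin_cases i; exact hα)
  simpa [Function.leftInverse_invFun ordN_injective α] using this

lemma Ev.ord2 (F : Ordinal.{0} → Ordinal.{0} → Ordinal.{0}) :
    Ev (P := P) (fun U _ => ∀ α β, ordN P α ∈ U → ordN P β ∈ U → ordN P (F α β) ∈ U) := by
  refine (Ev.op (n := 2) (fun v => ordN P (F (Function.invFun (ordN P) (v 0))
    (Function.invFun (ordN P) (v 1))))).mono fun U H h α β hα hβ => ?_
  have := h ![ordN P α, ordN P β] (by intro i; fin_cases i; exacts [hα, hβ])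
  simpa [Function.leftInverse_invFun ordN_injective α,
    Function.leftInverse_invFun ordN_injective β] using this

lemma Ev.ord3 (F : Ordinal.{0} → Ordinal.{0} → Ordinal.{0} → Ordinal.{0}) :
    Ev (P := P) (fun U _ => ∀ α β γ, ordN P α ∈ U → ordN P β ∈ U → ordN P γ ∈ U →
      ordN P (F α β γ) ∈ U) := by
  refine (Ev.op (n := 3) (fun v => ordN P (F (Function.invFun (ordN P) (v 0))
    (Function.invFun (ordN P) (v 1)) (Function.invFun (ordN P) (v 2))))).mono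
    fun U H h α β γ hα hβ hγ => ?_
  have := h ![ordN P α, ordN P β, ordN P γ] (by intro i; fin_cases i; exacts [hα, hβ, hγ])
  simpa [Function.leftInverse_invFun ordN_injective α,
    Function.leftInverse_invFun ordN_injective β,
    Function.leftInverse_invFun ordN_injective γ] using this

/-- Task N0: genericity with an ordinal as the answer. -/
lemma Ev.ogen {n : ℕ} (R : (Fin n → Name P) → P → Ordinal.{0} → Prop) :
    Ev (P := P) (fun U H => ∀ v : Fin n → Name P, (∀ i, v i ∈ U) →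
      (∃ q ∈ H, ∃ ξ, ordN P ξ ∈ U ∧ R v q ξ) ∨ (∃ p ∈ H, ∀ q ≤ p, ∀ ξ, ¬ R v q ξ)) := by
  refine (Ev.gen (n := n) (fun v q ρ => ∃ ξ, ρ = ordN P ξ ∧ R v q ξ)).mono fun U H h v hv => ?_
  rcases h v hv with ⟨q, hq, ρ, hρ, ξ, rfl, hR⟩ | ⟨p, hp, hn⟩
  · exact Or.inl ⟨q, hq, ξ, hρ, hR⟩
  · exact Or.inr ⟨p, hp, fun q hq ξ hR => hn q hq _ ⟨ξ, rfl, hR⟩⟩

/-- Task N0: genericity with ordinal parameters and an ordinal as the answer. -/
lemma Ev.ogen0 (R : P → Ordinal.{0} → Prop) :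
    Ev (P := P) (fun U H => (∃ q ∈ H, ∃ ξ, ordN P ξ ∈ U ∧ R q ξ) ∨
      (∃ p ∈ H, ∀ q ≤ p, ∀ ξ, ¬ R q ξ)) :=
  (Ev.ogen (n := 0) (fun _ q ξ => R q ξ)).mono fun _ _ h => h Fin.elim0 (fun i => i.elim0)

lemma Ev.ogen1 (R : Ordinal.{0} → P → Ordinal.{0} → Prop) :
    Ev (P := P) (fun U H => ∀ α, ordN P α ∈ U →
      (∃ q ∈ H, ∃ ξ, ordN P ξ ∈ U ∧ R α q ξ) ∨ (∃ p ∈ H, ∀ q ≤ p, ∀ ξ, ¬ R α q ξ)) := by
  refine (Ev.ogen (n := 1) (fun v q ξ => R (Function.invFun (ordN P) (v 0)) q ξ)).mono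
    fun U H h α hα => ?_
  have := h ![ordN P α] (by intro i; fin_cases i; exact hα)
  simpa [Function.leftInverse_invFun ordN_injective α] using this

lemma Ev.ogen2 (R : Ordinal.{0} → Ordinal.{0} → P → Ordinal.{0} → Prop) :
    Ev (P := P) (fun U H => ∀ α β, ordN P α ∈ U → ordN P β ∈ U →
      (∃ q ∈ H, ∃ ξ, ordN P ξ ∈ U ∧ R α β q ξ) ∨ (∃ p ∈ H, ∀ q ≤ p, ∀ ξ, ¬ R α β q ξ)) := by
  refine (Ev.ogen (n := 2) (fun v q ξ => R (Function.invFun (ordN P) (v 0))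
    (Function.invFun (ordN P) (v 1)) q ξ)).mono fun U H h α β hα hβ => ?_
  have := h ![ordN P α, ordN P β] (by intro i; fin_cases i; exacts [hα, hβ])
  simpa [Function.leftInverse_invFun ordN_injective α,
    Function.leftInverse_invFun ordN_injective β] using this

lemma Ev.ogen3 (R : Ordinal.{0} → Ordinal.{0} → Ordinal.{0} → P → Ordinal.{0} → Prop) :
    Ev (P := P) (fun U H => ∀ α β γ, ordN P α ∈ U → ordN P β ∈ U → ordN P γ ∈ U →
      (∃ q ∈ H, ∃ ξ, ordN P ξ ∈ U ∧ R α β γ q ξ) ∨ (∃ p ∈ H, ∀ q ≤ p, ∀ ξ, ¬ R α β γ q ξ)) := by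
  refine (Ev.ogen (n := 3) (fun v q ξ => R (Function.invFun (ordN P) (v 0))
    (Function.invFun (ordN P) (v 1)) (Function.invFun (ordN P) (v 2)) q ξ)).mono
    fun U H h α β γ hα hβ hγ => ?_
  have := h ![ordN P α, ordN P β, ordN P γ] (by intro i; fin_cases i; exacts [hα, hβ, hγ])
  simpa [Function.leftInverse_invFun ordN_injective α,
    Function.leftInverse_invFun ordN_injective β,
    Function.leftInverse_invFun ordN_injective γ] using this

/-- The name of the set of all pairs of `d i` and `v j` with `q ⊩ R i j`. -/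
def relN {I J : Type} (d : I → Name P) (v : J → Name P) (R : P → I → J → Prop)
    (hR : ∀ q q' i j, q' ≤ q → R q i j → R q' i j) : Name P :=
  Name.mk (I × J) (fun z => oN (d z.1) (v z.2))
    (fun z => ⟨{q | R q z.1 z.2}, fun a b hab h => hR a b z.1 z.2 hab h⟩)

/-- Basic properties of hulls. -/
structure Base (U : Set (Name P)) (H : Set P) : Prop where
  countable : U.Countable
  filt : IsFilt H
  full : Name.Full U H univ
  uN : ∀ σ ∈ U, ∀ τ ∈ U, uN σ τ ∈ U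
  ord_mem : ∀ α, ordN P α ∈ U → ∀ σ ∈ U, Name.val U H σ ∈ Name.val U H (ordN P α) →
    ∃ β < α, ordN P β ∈ U ∧ Name.val U H σ = Name.val U H (ordN P β)
  nat : ∀ n : ℕ, ordN P n ∈ U
  omega : ordN P Ordinal.omega0 ∈ U

/-- Task N1. -/
theorem Ev.base : Ev (P := P) Base := by
  have h1 : Ev (P := P) (fun U _ => ∀ n : ℕ, ∀ v : Fin 0 → Name P, (∀ i, v i ∈ U) →
      ordN P n ∈ U) := Ev.all fun n => Ev.op (n := 0) (fun _ => ordN P n)
  refine ((Ev.filt.and Ev.full).and ((Ev.op (n := 2) (fun v => PC.uN (v 0) (v 1))).and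
    (h1.and (Ev.op (n := 0) (fun _ => ordN P Ordinal.omega0))))).mono fun U H h => ?_
  obtain ⟨⟨⟨hU, hH⟩, hf⟩, h2, h3, h4⟩ := h
  refine ⟨hU, hH, hf, fun σ hσ τ hτ => ?_, fun α _ σ _ hm => ?_, fun n => ?_, ?_⟩
  · exact h2 ![σ, τ] (by intro i; fin_cases i; exacts [hσ, hτ])
  · rw [ordN_def] at hm
    obtain ⟨k, hk, _, e⟩ := Name.mem_val.1 hm
    exact ⟨(Ordinal.ToType.toOrd k).1, (Ordinal.ToType.toOrd k).2, hk, e⟩
  · exact h3 n Fin.elim0 (fun i => i.elim0)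
  · exact h4 Fin.elim0 (fun i => i.elim0)

lemma mem_omega_iff {x : ZFSet.{0}} : x ∈ ZFSet.omega ↔ ∃ n, x = num n := by
  have key : ∀ n, num n = ZFSet.mk (PSet.ofNat n) := by
    intro n
    induction n with
    | zero => rfl
    | succ n ih =>
      show insert (num n) (num n) = _
      rw [ih]
      rfl
  constructor
  · refine Quotient.inductionOn x fun y => ?_
    rintro ⟨⟨n⟩, hn⟩
    exact ⟨n, (ZFSet.sound hn).trans (key n).symm⟩
  · rintro ⟨n, rfl⟩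
    induction n with
    | zero => exact ZFSet.omega_zero
    | succ n ih => exact ZFSet.omega_succ ih

section
variable {U : Set (Name P)} {H : Set P} (hB : Base U H)
include hB

/-- Task N1. -/
lemma val_uN {σ τ : Name P} (hσ : σ ∈ U) (hτ : τ ∈ U) :
    Name.val U H (uN σ τ) = {Name.val U H σ, Name.val U H τ} := by
  obtain ⟨q, hq⟩ := hB.filt.ne
  ext x
  rw [Name.mem_val, ZFSet.mem_pair]
  constructor
  · rintro ⟨b, _, _, rfl⟩
    cases b with
    | false => exact Or.inr rfl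
    | true => exact Or.inl rfl
  · rintro (rfl | rfl)
    · exact ⟨true, hσ, ⟨q, hq, trivial⟩, rfl⟩
    · exact ⟨false, hτ, ⟨q, hq, trivial⟩, rfl⟩

lemma oN_mem {σ τ : Name P} (hσ : σ ∈ U) (hτ : τ ∈ U) : oN σ τ ∈ U :=
  hB.uN _ (hB.uN _ hσ _ hσ) _ (hB.uN _ hσ _ hτ)

lemma val_oN {σ τ : Name P} (hσ : σ ∈ U) (hτ : τ ∈ U) :
    Name.val U H (oN σ τ) = ZFSet.pair (Name.val U H σ) (Name.val U H τ) := by
  unfold oN
  rw [val_uN hB (hB.uN _ hσ _ hσ) (hB.uN _ hσ _ hτ), val_uN hB hσ hσ, val_uN hB hσ hτ]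
  unfold ZFSet.pair
  congr 1
  ext x
  simp

/-- Task N1. -/
lemma mem_val_ordN {α : Ordinal.{0}} {x : ZFSet.{0}} :
    x ∈ Name.val U H (ordN P α) ↔ ∃ β < α, ordN P β ∈ U ∧ x = Name.val U H (ordN P β) := by
  obtain ⟨q, hq⟩ := hB.filt.ne
  rw [ordN_def α, Name.mem_val]
  constructor
  · rintro ⟨k, hk, _, e⟩
    exact ⟨(Ordinal.ToType.toOrd k).1, (Ordinal.ToType.toOrd k).2, hk, e⟩
  · rintro ⟨β, hβ, hU, e⟩
    have h1 : (Ordinal.ToType.toOrd (Ordinal.ToType.mk ⟨β, hβ⟩ : α.ToType)).1 = β := by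
      simp [Ordinal.ToType.toOrd]
    refine ⟨Ordinal.ToType.mk ⟨β, hβ⟩, ?_, ⟨q, hq, trivial⟩, ?_⟩
    · show ordN P (Ordinal.ToType.toOrd (Ordinal.ToType.mk ⟨β, hβ⟩ : α.ToType)).1 ∈ U
      rw [h1]
      exact hU
    · show x = Name.val U H
        (ordN P (Ordinal.ToType.toOrd (Ordinal.ToType.mk ⟨β, hβ⟩ : α.ToType)).1)
      rw [h1]
      exact e

lemma val_ordN_mem_iff {α β : Ordinal.{0}} (hα : ordN P α ∈ U) (hβ : ordN P β ∈ U) :
    Name.val U H (ordN P α) ∈ Name.val U H (ordN P β) ↔ α < β := by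
  constructor
  · intro h
    by_contra hlt
    obtain ⟨γ, hγ, hγU, e⟩ := (mem_val_ordN hB).1 h
    have h1 : Name.val U H (ordN P γ) ∈ Name.val U H (ordN P α) :=
      (mem_val_ordN hB).2 ⟨γ, hγ.trans_le (not_lt.1 hlt), hγU, rfl⟩
    rw [e] at h1
    exact ZFSet.mem_irrefl _ h1
  · intro h
    exact (mem_val_ordN hB).2 ⟨α, h, hα, rfl⟩

lemma val_ordN_inj {α β : Ordinal.{0}} (hα : ordN P α ∈ U) (hβ : ordN P β ∈ U) :
    Name.val U H (ordN P α) = Name.val U H (ordN P β) ↔ α = β := by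
  constructor
  · intro h
    by_contra hne
    rcases lt_or_gt_of_ne hne with hlt | hlt
    · have h1 := (val_ordN_mem_iff hB hα hβ).2 hlt
      rw [h] at h1
      exact ZFSet.mem_irrefl _ h1
    · have h1 := (val_ordN_mem_iff hB hβ hα).2 hlt
      rw [h] at h1
      exact ZFSet.mem_irrefl _ h1
  · rintro rfl
    rfl

lemma val_ordN_subset_iff {α β : Ordinal.{0}} (hα : ordN P α ∈ U) (hβ : ordN P β ∈ U) :
    Name.val U H (ordN P α) ⊆ Name.val U H (ordN P β) ↔ α ≤ β := by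
  constructor
  · intro h
    by_contra hlt
    exact ZFSet.mem_irrefl _ (h ((val_ordN_mem_iff hB hβ hα).2 (not_le.1 hlt)))
  · intro h x hx
    obtain ⟨γ, hγ, hγU, rfl⟩ := (mem_val_ordN hB).1 hx
    exact (mem_val_ordN hB).2 ⟨γ, hγ.trans_le h, hγU, rfl⟩

lemma isOrdinal_val_ordN (α : Ordinal.{0}) : (Name.val U H (ordN P α)).IsOrdinal := by
  refine ⟨fun x hx y hy => ?_, fun {y z w} hyz hzw hw => ?_⟩
  · obtain ⟨β, hβ, _, rfl⟩ := (mem_val_ordN hB).1 hx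
    obtain ⟨γ, hγ, hγU, rfl⟩ := (mem_val_ordN hB).1 hy
    exact (mem_val_ordN hB).2 ⟨γ, hγ.trans hβ, hγU, rfl⟩
  · obtain ⟨β, hβ, _, rfl⟩ := (mem_val_ordN hB).1 hw
    obtain ⟨γ, hγ, _, rfl⟩ := (mem_val_ordN hB).1 hzw
    obtain ⟨δ, hδ, hδU, rfl⟩ := (mem_val_ordN hB).1 hyz
    exact (mem_val_ordN hB).2 ⟨δ, hδ.trans hγ, hδU, rfl⟩

lemma val_ordN_nat (n : ℕ) : Name.val U H (ordN P n) = num n := by
  induction n with
  | zero =>
    show _ = (∅ : ZFSet.{0})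
    rw [ZFSet.eq_empty]
    intro y hy
    obtain ⟨β, hβ, _⟩ := (mem_val_ordN hB).1 hy
    simp at hβ
  | succ n ih =>
    show _ = insert (num n) (num n)
    rw [← ih]
    ext x
    rw [ZFSet.mem_insert_iff, mem_val_ordN hB, mem_val_ordN hB]
    constructor
    · rintro ⟨s, hs, h1, rfl⟩
      have hs' : s < Order.succ (n : Ordinal.{0}) := by
        rw [Order.succ_eq_add_one]
        exact_mod_cast hs
      rcases (Order.lt_succ_iff.1 hs').lt_or_eq with h2 | h2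
      · exact Or.inr ⟨s, h2, h1, rfl⟩
      · left
        rw [h2]
    · rintro (rfl | ⟨s, hs, h1, rfl⟩)
      · exact ⟨n, by exact_mod_cast Nat.lt_succ_self n, hB.nat n, rfl⟩
      · exact ⟨s, hs.trans (by exact_mod_cast Nat.lt_succ_self n), h1, rfl⟩

lemma val_ordN_omega : Name.val U H (ordN P Ordinal.omega0) = ZFSet.omega := by
  ext x
  rw [mem_omega_iff, mem_val_ordN hB]
  constructor
  · rintro ⟨β, hβ, _, rfl⟩
    obtain ⟨n, rfl⟩ := Ordinal.lt_omega0.1 hβ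
    exact ⟨n, val_ordN_nat hB n⟩
  · rintro ⟨n, rfl⟩
    exact ⟨n, Ordinal.natCast_lt_omega0 n, hB.nat n, (val_ordN_nat hB n).symm⟩

lemma nset_eq (A : Set ℕ) (x : ZFSet.{0}) : x ∈ nset A ↔ ∃ n ∈ A, x = num n := by
  unfold nset
  rw [ZFSet.mem_sep, mem_omega_iff]
  constructor
  · exact fun h => h.2
  · rintro ⟨n, hn, rfl⟩
    exact ⟨⟨n, rfl⟩, n, hn, rfl⟩

lemma num_injective : Function.Injective num := by
  intro m n h
  rw [← val_ordN_nat hB m, ← val_ordN_nat hB n, val_ordN_inj hB (hB.nat m) (hB.nat n)] at h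
  exact_mod_cast h

/-- Task N1: pairs in the values of relation names. -/
lemma pair_mem_val_relN {I J : Type} {d : I → Name P} {v : J → Name P} {R : P → I → J → Prop}
    {hR : ∀ q q' i j, q' ≤ q → R q i j → R q' i j} {x y : ZFSet.{0}}
    (hpart : ∀ i j, oN (d i) (v j) ∈ U → d i ∈ U ∧ v j ∈ U) :
    ZFSet.pair x y ∈ Name.val U H (relN d v R hR) ↔
      ∃ i j, d i ∈ U ∧ v j ∈ U ∧ (∃ q ∈ H, R q i j) ∧ x = Name.val U H (d i) ∧
        y = Name.val U H (v j) := by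
  rw [Name.mem_val]
  constructor
  · rintro ⟨⟨i, j⟩, hU, ⟨q, hq, hR'⟩, e⟩
    have h1 : oN (d i) (v j) ∈ U := hU
    obtain ⟨h2, h3⟩ := hpart i j h1
    have e' : ZFSet.pair x y = Name.val U H (oN (d i) (v j)) := e
    rw [val_oN hB h2 h3] at e'
    obtain ⟨e1, e2⟩ := ZFSet.pair_injective e'
    exact ⟨i, j, h2, h3, ⟨q, hq, hR'⟩, e1, e2⟩
  · rintro ⟨i, j, h2, h3, ⟨q, hq, hR'⟩, rfl, rfl⟩
    exact ⟨(i, j), oN_mem hB h2 h3, ⟨q, hq, hR'⟩, (val_oN hB h2 h3).symm⟩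

end

/-- Task N1: the components of a pair name in the hull are in the hull. -/
lemma Ev.parts : Ev (P := P) (fun U _ => ∀ σ τ : Name P, oN σ τ ∈ U → σ ∈ U ∧ τ ∈ U) := by
  classical
  refine ((Ev.op (n := 1) (fun v => if h : ∃ z : Name P × Name P, v 0 = oN z.1 z.2 then
    h.choose.1 else v 0)).and (Ev.op (n := 1)
    (fun v => if h : ∃ z : Name P × Name P, v 0 = oN z.1 z.2 then h.choose.2 else v 0))).mono
    fun U H h σ τ hU => ?_
  have hex : ∃ z : Name P × Name P, oN σ τ = oN z.1 z.2 := ⟨(σ, τ), rfl⟩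
  have hv : ∀ i, (![oN σ τ] : Fin 1 → Name P) i ∈ U := by intro i; fin_cases i; exact hU
  have h1 := h.1 ![oN σ τ] hv
  have h2 := h.2 ![oN σ τ] hv
  have e := oN_injective hex.choose_spec
  simp only [Matrix.cons_val_fin_one] at h1 h2
  rw [dif_pos hex] at h1 h2
  rw [← e.1] at h1
  rw [← e.2] at h2
  exact ⟨h1, h2⟩

/-- Closure under a name valued operation on two ordinals. -/
lemma Ev.nm2 (nm : Ordinal.{0} → Ordinal.{0} → Name P) :
    Ev (P := P) (fun U _ => ∀ α β, ordN P α ∈ U → ordN P β ∈ U → nm α β ∈ U) := by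
  classical
  refine Ev.mono (Ev.op (n := 2) (fun v =>
    if h : ∃ z : Ordinal.{0} × Ordinal.{0}, v 0 = ordN P z.1 ∧ v 1 = ordN P z.2 then
      nm h.choose.1 h.choose.2 else v 0)) ?_
  intro U H hU α β hα hβ
  have h1 := hU ![ordN P α, ordN P β] (Name.forall2 hα hβ)
  have h2 : ∃ z : Ordinal.{0} × Ordinal.{0}, (![ordN P α, ordN P β] : Fin 2 → Name P) 0 =
      ordN P z.1 ∧ (![ordN P α, ordN P β] : Fin 2 → Name P) 1 = ordN P z.2 := ⟨(α, β), rfl, rfl⟩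
  simp only [dif_pos h2] at h1
  have h3 : α = h2.choose.1 := ordN_injective h2.choose_spec.1
  have h4 : β = h2.choose.2 := ordN_injective h2.choose_spec.2
  rwa [← h3, ← h4] at h1

/-- Task N2: surjections given by a generic relation. `R α β q a b` is a monotone relation
between the ordinals `a < α` and `b < β`. -/
theorem Ev.gen_surj (R : Ordinal.{0} → Ordinal.{0} → P → Ordinal.{0} → Ordinal.{0} → Prop)
    (hR : ∀ α β q q' a b, q' ≤ q → R α β q a b → R α β q' a b)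
    (huniq : ∀ α β q a b b', R α β q a b → R α β q a b' → b = b')
    (hlt : ∀ α β q a b, R α β q a b → a < α ∧ b < β) :
    Ev (P := P) (fun U H => ∀ α β : Ordinal.{0}, ordN P α ∈ U → ordN P β ∈ U →
      (∃ p ∈ H, (∀ a < α, ∀ q ≤ p, ∃ r ≤ q, ∃ b, R α β r a b) ∧
        (∀ b < β, ∀ q ≤ p, ∃ r ≤ q, ∃ a, R α β r a b)) →
      ∃ f ∈ MM U H, FunOn f (Name.val U H (ordN P α)) ∧
        ∀ y ∈ Name.val U H (ordN P β), ∃ x ∈ Name.val U H (ordN P α), ZFSet.pair x y ∈ f) := by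
  let S : Ordinal.{0} → Ordinal.{0} → P → Ordinal.{0} → Ordinal.{0} → Prop := R
  let nm : Ordinal.{0} → Ordinal.{0} → Name P := fun α β =>
    relN (I := α.ToType) (J := β.ToType) (fun i => ordN P (Ordinal.ToType.toOrd i).1)
      (fun j => ordN P (Ordinal.ToType.toOrd j).1)
      (fun q i j => R α β q (Ordinal.ToType.toOrd i).1 (Ordinal.ToType.toOrd j).1)
      (fun q q' i j h h' => hR α β q q' _ _ h h')
  have hEv := ((Ev.base (P := P)).and (Ev.parts (P := P))).and ((Ev.nm2 nm).and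
    ((Ev.ogen3 (P := P) (fun α β a q b => R α β q a b)).and
      (Ev.ogen3 (P := P) (fun α β b q a => R α β q a b))))
  refine hEv.mono ?_
  rintro U H ⟨⟨hB, hparts⟩, hnm, hg1, hg2⟩ α β hα hβ ⟨p, hp, hd1, hd2⟩
  have hf : nm α β ∈ U := hnm α β hα hβ
  have hpair : ∀ x y : ZFSet.{0}, ZFSet.pair x y ∈ Name.val U H (nm α β) ↔
      ∃ a b, a < α ∧ b < β ∧ ordN P a ∈ U ∧ ordN P b ∈ U ∧ (∃ q ∈ H, R α β q a b) ∧
        x = Name.val U H (ordN P a) ∧ y = Name.val U H (ordN P b) := by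
    intro x y
    rw [pair_mem_val_relN hB (fun i j h => hparts _ _ h)]
    constructor
    · rintro ⟨i, j, h1, h2, h3, h4, h5⟩
      exact ⟨_, _, (Ordinal.ToType.toOrd i).2, (Ordinal.ToType.toOrd j).2, h1, h2, h3, h4, h5⟩
    · rintro ⟨a, b, ha, hb, h1, h2, ⟨q, hq, h3⟩, h4, h5⟩
      have e1 : (Ordinal.ToType.toOrd (Ordinal.ToType.mk ⟨a, ha⟩)).1 = a := by simp
      have e2 : (Ordinal.ToType.toOrd (Ordinal.ToType.mk ⟨b, hb⟩)).1 = b := by simp
      refine ⟨Ordinal.ToType.mk ⟨a, ha⟩, Ordinal.ToType.mk ⟨b, hb⟩, ?_, ?_, ⟨q, hq, ?_⟩, ?_, ?_⟩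
      · rw [e1]; exact h1
      · rw [e2]; exact h2
      · rw [e1, e2]; exact h3
      · rw [e1]; exact h4
      · rw [e2]; exact h5
  refine ⟨Name.val U H (nm α β), ⟨nm α β, mem_univ _, hf, rfl⟩, ⟨?_, ?_⟩, ?_⟩
  · intro z hz
    obtain ⟨k, hk, -, rfl⟩ := Name.mem_val.1 hz
    obtain ⟨h1, h2⟩ := hparts _ _ hk
    exact ⟨_, (mem_val_ordN hB).2 ⟨_, (Ordinal.ToType.toOrd k.1).2, h1, rfl⟩, _,
      val_oN hB h1 h2⟩
  · intro x hx
    obtain ⟨a, ha, haU, rfl⟩ := (mem_val_ordN hB).1 hx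
    rcases hg1 α β a hα hβ haU with ⟨q, hq, b, hbU, hb⟩ | ⟨p', hp', hno⟩
    · refine ⟨Name.val U H (ordN P b), (hpair _ _).2 ⟨a, b, ha, (hlt _ _ _ _ _ hb).2, haU, hbU,
        ⟨q, hq, hb⟩, rfl, rfl⟩, ?_⟩
      intro y' hy'
      obtain ⟨a', b', -, -, haU', hbU', ⟨q', hq', hb'⟩, e1, e2⟩ := (hpair _ _).1 hy'
      have h1 : a = a' := (val_ordN_inj hB haU haU').1 e1
      subst h1
      obtain ⟨r, -, hr1, hr2⟩ := hB.filt.dir q hq q' hq'
      have h2 := huniq _ _ _ _ _ _ (hR _ _ _ _ _ _ hr1 hb) (hR _ _ _ _ _ _ hr2 hb')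
      rw [e2, h2]
    · exfalso
      obtain ⟨r, -, hr1, hr2⟩ := hB.filt.dir p hp p' hp'
      obtain ⟨r', hr', b, hb⟩ := hd1 a ha r hr1
      exact hno r' (hr'.trans hr2) b hb
  · intro y hy
    obtain ⟨b, hb, hbU, rfl⟩ := (mem_val_ordN hB).1 hy
    rcases hg2 α β b hα hβ hbU with ⟨q, hq, a, haU, ha⟩ | ⟨p', hp', hno⟩
    · have haα := (hlt _ _ _ _ _ ha).1
      exact ⟨Name.val U H (ordN P a), (mem_val_ordN hB).2 ⟨a, haα, haU, rfl⟩,
        (hpair _ _).2 ⟨a, b, haα, hb, haU, hbU, ⟨q, hq, ha⟩, rfl, rfl⟩⟩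
    · exfalso
      obtain ⟨r, -, hr1, hr2⟩ := hB.filt.dir p hp p' hp'
      obtain ⟨r', hr', a, ha⟩ := hd2 b hb r hr1
      exact hno r' (hr'.trans hr2) a ha

/-- A surjection between ordinals. -/
lemma exists_ordSurj (α β : Ordinal.{0}) : ∃ g : Ordinal.{0} → Ordinal.{0},
    β ≠ 0 → β.card ≤ α.card → (∀ a < α, g a < β) ∧ ∀ b < β, ∃ a < α, g a = b := by
  classical
  by_cases h : β ≠ 0 ∧ β.card ≤ α.card
  swap
  · exact ⟨id, fun h1 h2 => absurd ⟨h1, h2⟩ h⟩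
  obtain ⟨hβ, hc⟩ := h
  have h1 : #β.ToType ≤ #α.ToType := by simpa using hc
  obtain ⟨⟨e, he⟩⟩ := h1
  have hβ' : 0 < β := pos_iff_ne_zero.2 hβ
  let b0 : β.ToType := Ordinal.ToType.mk ⟨0, hβ'⟩
  haveI : Nonempty β.ToType := ⟨b0⟩
  let inv : α.ToType → β.ToType := Function.invFun e
  have hinv : ∀ b, inv (e b) = b := fun b => Function.leftInverse_invFun he b
  refine ⟨fun a => if ha : a < α then
    (Ordinal.ToType.toOrd (inv (Ordinal.ToType.mk ⟨a, ha⟩))).1 else 0, fun _ _ => ⟨?_, ?_⟩⟩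
  · intro a ha
    simp only [dif_pos ha]
    exact (Ordinal.ToType.toOrd _).2
  · intro b hb
    refine ⟨(Ordinal.ToType.toOrd (e (Ordinal.ToType.mk ⟨b, hb⟩))).1,
      (Ordinal.ToType.toOrd _).2, ?_⟩
    have h2 : (Ordinal.ToType.toOrd (e (Ordinal.ToType.mk ⟨b, hb⟩))).1 < α :=
      (Ordinal.ToType.toOrd _).2
    simp only [dif_pos h2]
    have h3 : Ordinal.ToType.mk ⟨(Ordinal.ToType.toOrd (e (Ordinal.ToType.mk ⟨b, hb⟩))).1, h2⟩ =
        e (Ordinal.ToType.mk ⟨b, hb⟩) := Ordinal.ToType.mk.apply_symm_apply _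
    rw [h3, hinv]
    exact congrArg Subtype.val (Ordinal.ToType.mk.symm_apply_apply _)

/-- Task N2: surjections of the ground model. -/
theorem Ev.ground_surj : Ev (P := P) (fun U H => ∀ α β : Ordinal.{0}, ordN P α ∈ U →
    ordN P β ∈ U → β ≠ 0 → β.card ≤ α.card →
      ∃ f ∈ MM U H, FunOn f (Name.val U H (ordN P α)) ∧
        ∀ y ∈ Name.val U H (ordN P β), ∃ x ∈ Name.val U H (ordN P α), ZFSet.pair x y ∈ f) := by
  choose g hg using exists_ordSurj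
  have h := (Ev.gen_surj (P := P) (fun α β _ a b => a < α ∧ b < β ∧ g α β a = b)
    (fun _ _ _ _ _ _ _ h => h) (fun _ _ _ _ _ _ h h' => h.2.2.symm.trans h'.2.2)
    (fun _ _ _ _ _ h => ⟨h.1, h.2.1⟩)).and Ev.filt
  refine h.mono ?_
  rintro U H ⟨h1, -, hF⟩ α β hα hβ hβ0 hc
  obtain ⟨p, hp⟩ := hF.ne
  obtain ⟨h2, h3⟩ := hg α β hβ0 hc
  refine h1 α β hα hβ ⟨p, hp, ?_, ?_⟩
  · intro a ha q _
    exact ⟨q, le_rfl, g α β a, ha, h2 a ha, rfl⟩
  · intro b hb q _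
    obtain ⟨a, ha, hab⟩ := h3 b hb
    exact ⟨q, le_rfl, a, ha, hb, hab⟩

namespace N3

/-- `q` forces two different values of `τ` at the same argument; `ρ` codes them. -/
def RA (v : Fin 3 → Name P) (q : P) (ρ : Name P) : Prop :=
  ∃ α β i j j' : Ordinal.{0}, v 1 = ordN P α ∧ v 2 = ordN P β ∧ i < α ∧ j < β ∧ j' < β ∧ j ≠ j' ∧
    ρ = oN (ordN P i) (oN (ordN P j) (ordN P j')) ∧
      Name.fmem (oN (ordN P i) (ordN P j)) (v 0) q ∧ Name.fmem (oN (ordN P i) (ordN P j')) (v 0) q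

/-- `q` forces that `ξ` is not a value of `τ`. -/
def RB (v : Fin 3 → Name P) (q : P) (ξ : Ordinal.{0}) : Prop :=
  ∃ α β : Ordinal.{0}, v 1 = ordN P α ∧ v 2 = ordN P β ∧ ξ < β ∧
    ∀ q' ≤ q, ∀ i < α, ¬ Name.fmem (oN (ordN P i) (ordN P ξ)) (v 0) q'

end N3

/-- Task N3: no surjections. -/
theorem Ev.no_surj : Ev (P := P) (fun U H => ∀ α β : Ordinal.{0}, ordN P α ∈ U → ordN P β ∈ U →
    (∃ p₀ ∈ H, ∀ p ≤ p₀, ∀ R : P → α.ToType → β.ToType → Prop,
      (∀ q q' a b, q' ≤ q → R q a b → R q' a b) →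
      (∀ q ≤ p, ∀ a b b', R q a b → R q a b' → b = b') →
        ∃ q ≤ p, ∃ b, ∀ q' ≤ q, ∀ a, ¬ R q' a b) →
    ∀ f ∈ MM U H, FunOn f (Name.val U H (ordN P α)) →
      ∃ y ∈ Name.val U H (ordN P β), ∀ x ∈ Name.val U H (ordN P α), ZFSet.pair x y ∉ f) := by
  refine ((Ev.base (P := P)).and (Ev.parts.and ((Ev.gen N3.RA).and (Ev.ogen N3.RB)))).mono ?_
  rintro U H ⟨hB, hparts, hA, hBB⟩ α β hα hβ ⟨p₀, hp₀, hR⟩ f hf hfun
  obtain ⟨τ, -, hτ, rfl⟩ := hf
  have hv : ∀ i, (![τ, ordN P α, ordN P β] : Fin 3 → Name P) i ∈ U := by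
    intro i
    fin_cases i
    · exact hτ
    · exact hα
    · exact hβ
  have hval : ∀ i j : Ordinal.{0}, ordN P i ∈ U → ordN P j ∈ U → ∀ q ∈ H,
      Name.fmem (oN (ordN P i) (ordN P j)) τ q →
      ZFSet.pair (Name.val U H (ordN P i)) (Name.val U H (ordN P j)) ∈ Name.val U H τ := by
    intro i j hi hj q hq h
    rw [← val_oN hB hi hj]
    exact (Name.val_mem_iff hB.full.at' (oN_mem hB hi hj) hτ).2 ⟨q, hq, h⟩
  -- uniqueness below an element of `H`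
  rcases hA _ hv with ⟨q, hq, ρ, hρ, α', β', i, j, j', h1, h2, hi, hj, hj', hne, rfl, hm, hm'⟩ |
    ⟨p₁, hp₁, hp₁'⟩
  · exfalso
    have h1' : α = α' := ordN_injective h1
    have h2' : β = β' := ordN_injective h2
    subst h1' h2'
    obtain ⟨hiU, hjj⟩ := hparts _ _ hρ
    obtain ⟨hjU, hjU'⟩ := hparts _ _ hjj
    have hx : Name.val U H (ordN P i) ∈ Name.val U H (ordN P α) :=
      (mem_val_ordN hB).2 ⟨i, hi, hiU, rfl⟩
    obtain ⟨y, -, hy⟩ := hfun.2 _ hx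
    have h3 := (hy _ (hval i j hiU hjU q hq hm)).trans (hy _ (hval i j' hiU hjU' q hq hm')).symm
    exact hne ((val_ordN_inj hB hjU hjU').1 h3)
  -- density
  rcases hBB _ hv with ⟨q, hq, ξ, hξU, α', β', h1, h2, hξ, hno⟩ | ⟨p₂, hp₂, hp₂'⟩
  · have h1' : α = α' := ordN_injective h1
    have h2' : β = β' := ordN_injective h2
    subst h1' h2'
    refine ⟨Name.val U H (ordN P ξ), (mem_val_ordN hB).2 ⟨ξ, hξ, hξU, rfl⟩, fun x hx hxy => ?_⟩
    obtain ⟨i, hi, hiU, rfl⟩ := (mem_val_ordN hB).1 hx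
    rw [← val_oN hB hiU hξU] at hxy
    obtain ⟨p₃, hp₃, h3⟩ := (Name.val_mem_iff hB.full.at' (oN_mem hB hiU hξU) hτ).1 hxy
    obtain ⟨r, -, hr1, hr2⟩ := hB.filt.dir q hq p₃ hp₃
    exact hno r hr1 i hi (Name.fmem_mono h3 hr2)
  · exfalso
    obtain ⟨r₁, hr₁, hr1, hr2⟩ := hB.filt.dir p₀ hp₀ p₁ hp₁
    obtain ⟨r, -, hr3, hr4⟩ := hB.filt.dir r₁ hr₁ p₂ hp₂
    have hr0 : r ≤ p₀ := hr3.trans hr1
    have hr01 : r ≤ p₁ := hr3.trans hr2
    obtain ⟨q, hq, b, hb⟩ := hR r hr0 (fun q a b => Name.fmem (oN (ordN P (Ordinal.ToType.toOrd a).1)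
      (ordN P (Ordinal.ToType.toOrd b).1)) τ q) (fun q q' a b hq h => Name.fmem_mono h hq) (by
        intro q hq a b b' h h'
        by_contra hne
        refine hp₁' q (hq.trans hr01) _ ⟨α, β, (Ordinal.ToType.toOrd a).1,
          (Ordinal.ToType.toOrd b).1, (Ordinal.ToType.toOrd b').1, rfl, rfl,
          (Ordinal.ToType.toOrd a).2, (Ordinal.ToType.toOrd b).2, (Ordinal.ToType.toOrd b').2,
          ?_, rfl, h, h'⟩
        intro he
        exact hne (Ordinal.ToType.mk.symm.injective (Subtype.ext he)))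
    refine hp₂' q (hq.trans hr4) (Ordinal.ToType.toOrd b).1 ⟨α, β, rfl, rfl,
      (Ordinal.ToType.toOrd b).2, fun q' hq' i hi h => ?_⟩
    refine hb q' hq' (Ordinal.ToType.mk ⟨i, hi⟩) ?_
    simpa using h

end Pool.PC
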