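import Pool.Agent.Lib.MP_ad72f3_pc.Ev
import Pool.Agent.Lib.MP_3ade05_lc.Model

/-!
# The hull model satisfies ZF and the axiom of choice (N-side)
-/

set_option autoImplicit false
set_option linter.unusedSectionVars false

open Cardinal Set Order

namespace Pool.PC

open Pool.MP_3ade05_lc

variable {P : Type 1} [Preorder P]

namespace Z1

variable {U : Set (Name P)} {H : Set P}

lemma forall_cons {α : Type*} {n : ℕ} {a : α} {v : Fin n → α} {Q : α → Prop} (h0 : Q a)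
    (h : ∀ j, Q (v j)) : ∀ j, Q ((Fin.cons a v : Fin (n + 1) → α) j) := by
  intro j
  refine Fin.cases ?_ (fun j => ?_) j
  · exact h0
  · exact h j

lemma comp_cons {α β : Type*} {n : ℕ} (f : α → β) (a : α) (v : Fin n → α) :
    (fun j => f ((Fin.cons a v : Fin (n + 1) → α) j)) =
      (Fin.cons (f a) (fun j => f (v j)) : Fin (n + 1) → β) := by
  funext j
  refine Fin.cases ?_ (fun j => ?_) j <;> rfl

/-- The largest lower set inside `Ψ`. -/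
def lo (Ψ : P → Prop) : LowerSet P :=
  ⟨{q | ∀ r ≤ q, Ψ r}, fun _ _ hba h r hr => h r (hr.trans hba)⟩

lemma mem_lo {Ψ : P → Prop} (h : ∀ p q, Ψ p → q ≤ p → Ψ q) {q : P} : q ∈ lo Ψ ↔ Ψ q :=
  ⟨fun hq => hq q le_rfl, fun hq r hr => h q r hq hr⟩

/-- Subname. -/
def sub (τ : Name P) (Ψ : Name P → P → Prop) : Name P :=
  Name.mk τ.ι τ.A (fun k => τ.c k ⊓ lo (Ψ (τ.A k)))

lemma mem_sub {τ : Name P} {Ψ : Name P → P → Prop} (mono : ∀ σ p q, Ψ σ p → q ≤ p → Ψ σ q)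
    {k : τ.ι} {q : P} : q ∈ (sub τ Ψ).c k ↔ q ∈ τ.c k ∧ Ψ (τ.A k) q := by
  show q ∈ τ.c k ⊓ lo (Ψ (τ.A k)) ↔ _
  rw [LowerSet.mem_inf_iff, mem_lo (mono _)]

/-- The name with given members. -/
def fam {ι : Type} (A : ι → Name P) : Name P := Name.mk ι A (fun _ => ⊤)

lemma mem_fam (hH : H.Nonempty) {ι : Type} {A : ι → Name P} {x : ZFSet.{0}} :
    x ∈ Name.val U H (fam A) ↔ ∃ k, A k ∈ U ∧ x = Name.val U H (A k) := by
  obtain ⟨q, hq⟩ := hH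
  rw [Name.mem_val]
  constructor
  · rintro ⟨k, h1, _, h2⟩
    exact ⟨k, h1, h2⟩
  · rintro ⟨k, h1, h2⟩
    exact ⟨k, h1, ⟨q, hq, trivial⟩, h2⟩

/-! Separation -/

/-- Name for the subset defined by `φ`. -/
def sepN {n : ℕ} (φ : Fml (n + 1)) (v : Fin (n + 1) → Name P) : Name P :=
  sub (v 0) (fun σ q => Name.Fc univ φ (Fin.cons σ (fun j => v j.succ)) q)

lemma val_sepN (hU : Name.Full U H univ) {n : ℕ} (φ : Fml (n + 1)) {v : Fin (n + 1) → Name P}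
    (hv : ∀ j, v j ∈ U) (x : ZFSet.{0}) : x ∈ Name.val U H (sepN φ v) ↔
      x ∈ Name.val U H (v 0) ∧
      Sat (MM U H) φ (Fin.cons x (fun j => Name.val U H (v j.succ))) := by
  have mono : ∀ (σ : Name P) (p q : P), Name.Fc univ φ (Fin.cons σ (fun j => v j.succ)) p →
      q ≤ p → Name.Fc univ φ (Fin.cons σ (fun j => v j.succ)) q :=
    fun _ _ _ h hq => Name.Fc_mono h hq
  constructor
  · intro hx
    obtain ⟨k, hk, ⟨q, hq, hqk⟩, rfl⟩ := Name.mem_val.1 hx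
    have h := (mem_sub (τ := v 0) mono (k := k) (q := q)).1 hqk
    refine ⟨Name.mem_val.2 ⟨k, hk, ⟨q, hq, h.1⟩, rfl⟩, ?_⟩
    have := (Name.truth hU φ _ (forall_cons (Q := (· ∈ U)) hk (fun j => hv j.succ))).2
      ⟨q, hq, h.2⟩
    rwa [comp_cons] at this
  · rintro ⟨hx, hs⟩
    obtain ⟨k, hk, ⟨q, hq, hqk⟩, rfl⟩ := Name.mem_val.1 hx
    have h2 := (Name.truth hU φ (Fin.cons ((v 0).A k) (fun j => v j.succ))
      (forall_cons (Q := (· ∈ U)) hk (fun j => hv j.succ))).1 (by rwa [comp_cons])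
    obtain ⟨p, hp, hf⟩ := h2
    obtain ⟨r, hr, h3, h4⟩ := hU.at'.filt.dir p hp q hq
    refine Name.mem_val.2 ⟨k, hk, ⟨r, hr, ?_⟩, rfl⟩
    exact (mem_sub (τ := v 0) mono (k := k) (q := r)).2
      ⟨((v 0).c k).lower h4 hqk, Name.Fc_mono hf h3⟩

/-! Collection -/

/-- The empty name. -/
def emN : Name P := Name.mk Empty Empty.elim Empty.elim

open Classical in
/-- Chosen witnesses. -/
noncomputable def wit {n : ℕ} (φ : Fml (n + 2)) (v : Fin (n + 1) → Name P)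
    (z : (v 0).ι × P) : Name P :=
  if h : ∃ σ, Name.Fc univ φ (Fin.cons ((v 0).A z.1) (Fin.cons σ (fun j => v j.succ))) z.2
  then h.choose else emN

lemma wit_spec {n : ℕ} {φ : Fml (n + 2)} {v : Fin (n + 1) → Name P} {z : (v 0).ι × P}
    {σ : Name P}
    (h : Name.Fc univ φ (Fin.cons ((v 0).A z.1) (Fin.cons σ (fun j => v j.succ))) z.2) :
    Name.Fc univ φ (Fin.cons ((v 0).A z.1) (Fin.cons (wit φ v z) (fun j => v j.succ))) z.2 := by
  have hx : ∃ σ, Name.Fc univ φ (Fin.cons ((v 0).A z.1) (Fin.cons σ (fun j => v j.succ))) z.2 :=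
    ⟨σ, h⟩
  unfold wit
  rw [dif_pos hx]
  exact hx.choose_spec

/-- The name for Collection. -/
noncomputable def colN [Small.{0} P] {n : ℕ} (φ : Fml (n + 2)) (v : Fin (n + 1) → Name P) :
    Name P :=
  fam (ι := (v 0).ι × Shrink.{0} P) (fun z => wit φ v (z.1, (equivShrink P).symm z.2))

/-! Power set -/

instance small_lower [Small.{0} P] : Small.{0} (LowerSet P) :=
  small_of_injective (β := Set P) (f := fun c => (c : Set P)) SetLike.coe_injective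

/-- The name for the power set. -/
noncomputable def powN [Small.{0} P] (τ : Name P) : Name P :=
  fam (ι := τ.ι → Shrink.{0} (LowerSet P))
    (fun d => Name.mk τ.ι τ.A (fun k => (equivShrink (LowerSet P)).symm (d k)))

lemma powN_idx [Small.{0} P] (τ : Name P) (c : τ.ι → LowerSet P) :
    ∃ k : (powN τ).ι, (powN τ).A k = Name.mk τ.ι τ.A c ∧ (powN τ).c k = ⊤ := by
  refine ⟨fun k => equivShrink (LowerSet P) (c k), ?_, rfl⟩
  show Name.mk τ.ι τ.A (fun k => (equivShrink (LowerSet P)).symm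
    (equivShrink (LowerSet P) (c k))) = _
  simp

/-- Names of subsets. -/
def inN (ν τ : Name P) : Name P := sub τ (fun σ q => Name.fmem σ ν q)

lemma val_inN (hU : Name.Full U H univ) {ν τ : Name P} (hν : ν ∈ U)
    (hsub : Name.val U H ν ⊆ Name.val U H τ) :
    Name.val U H (inN ν τ) = Name.val U H ν := by
  have mono : ∀ (σ : Name P) (p q : P), Name.fmem σ ν p → q ≤ p → Name.fmem σ ν q :=
    fun _ _ _ h hq => Name.fmem_mono h hq
  ext x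
  constructor
  · intro hx
    obtain ⟨k, hk, ⟨q, hq, hqk⟩, rfl⟩ := Name.mem_val.1 hx
    have h := (mem_sub (τ := τ) mono (k := k) (q := q)).1 hqk
    exact (Name.val_mem_iff hU.at' (by exact hk) hν).2 ⟨q, hq, h.2⟩
  · intro hx
    obtain ⟨k, hk, ⟨q, hq, hqk⟩, rfl⟩ := Name.mem_val.1 (hsub hx)
    obtain ⟨p, hp, hf⟩ := (Name.val_mem_iff hU.at' hk hν).1 hx
    obtain ⟨r, hr, h3, h4⟩ := hU.at'.filt.dir p hp q hq
    refine Name.mem_val.2 ⟨k, hk, ⟨r, hr, ?_⟩, rfl⟩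
    exact (mem_sub (τ := τ) mono (k := k) (q := r)).2
      ⟨(τ.c k).lower h4 hqk, Name.fmem_mono hf h3⟩

/-! Union, pairing -/

/-- The name for the union. -/
def uniN (τ : Name P) : Name P :=
  fam (ι := Σ k : τ.ι, (τ.A k).ι) (fun z => (τ.A z.1).A z.2)

/-- The name for the pair. -/
def prN (σ τ : Name P) : Name P := fam (fun b : Bool => cond b σ τ)

lemma val_prN (hH : H.Nonempty) {σ τ : Name P} (hσ : σ ∈ U) (hτ : τ ∈ U) :
    Name.val U H (prN σ τ) = {Name.val U H σ, Name.val U H τ} := by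
  ext x
  unfold prN
  rw [mem_fam hH, ZFSet.mem_pair]
  constructor
  · rintro ⟨b, _, rfl⟩
    cases b
    · exact Or.inr rfl
    · exact Or.inl rfl
  · rintro (rfl | rfl)
    · exact ⟨true, hσ, rfl⟩
    · exact ⟨false, hτ, rfl⟩

/-! Infinity -/

/-- The name for the successor. -/
def sucN (σ : Name P) : Name P :=
  Name.mk (Option σ.ι) (fun o => o.elim σ σ.A) (fun o => o.elim ⊤ σ.c)

lemma val_sucN (hH : H.Nonempty) {σ : Name P} (hσ : σ ∈ U) :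
    Name.val U H (sucN σ) = insert (Name.val U H σ) (Name.val U H σ) := by
  obtain ⟨q, hq⟩ := hH
  ext x
  rw [Name.mem_val, ZFSet.mem_insert_iff]
  constructor
  · rintro ⟨o, h1, h2, h3⟩
    cases o with
    | none => exact Or.inl h3
    | some k => exact Or.inr (Name.mem_val.2 ⟨k, h1, h2, h3⟩)
  · rintro (h | h)
    · exact ⟨none, hσ, ⟨q, hq, trivial⟩, h⟩
    · obtain ⟨k, h1, h2, h3⟩ := Name.mem_val.1 h
      exact ⟨some k, h1, h2, h3⟩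

/-- The names of the natural numbers. -/
def numN : ℕ → Name P
  | 0 => emN
  | n + 1 => sucN (numN n)

end Z1

/-- Task Z: for small `P` the model satisfies `ZF`. -/
theorem Ev.zf [Small.{0} P] : Ev (P := P) (fun U H => ZFModel (MM U H)) := by
  classical
  have hsep := Ev.all (P := P) (fun a : Σ n : ℕ, Fml (n + 1) =>
    Ev.op (P := P) (Z1.sepN (P := P) a.2))
  have hcol := Ev.all (P := P) (fun a : Σ n : ℕ, Fml (n + 2) =>
    Ev.op (P := P) (Z1.colN (P := P) a.2))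
  have hcw := Ev.all (P := P) (fun a : Σ n : ℕ, Fml (n + 2) =>
    Ev.gen (P := P) (n := a.1 + 2) (fun w q ρ =>
      (∃ k : (w 0).ι, ρ = (w 0).A k ∧ (w 0).c k = ⊤) ∧
      Name.Fc univ a.2 (Fin.cons (w 1) (Fin.cons ρ (fun j => w j.succ.succ))) q))
  have hpow := Ev.op (P := P) (n := 1) (fun v => Z1.powN (v 0))
  have hin := Ev.op (P := P) (n := 2) (fun v => Z1.inN (v 0) (v 1))
  have huni := Ev.op (P := P) (n := 1) (fun v => Z1.uniN (v 0))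
  have hpr := Ev.op (P := P) (n := 2) (fun v => Z1.prN (v 0) (v 1))
  have hnum := Ev.all (P := P) (fun n : ℕ => Ev.op (P := P) (n := 0) (fun _ => Z1.numN n))
  have hom := Ev.op (P := P) (n := 0) (fun _ => Z1.fam (fun n : ℕ => Z1.numN (P := P) n))
  refine ((((((((Ev.full (P := P)).and hsep).and hcol).and hcw).and hpow).and hin).and huni).and
    (hpr.and (hnum.and hom))).mono ?_
  rintro U H ⟨⟨⟨⟨⟨⟨⟨hF, hsep⟩, hcol⟩, hcw⟩, hpow⟩, hin⟩, huni⟩, hpr, hnum, hom⟩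
  have hH : H.Nonempty := hF.at'.filt.ne
  have hnumU : ∀ n : ℕ, Z1.numN n ∈ U := fun n => hnum n Fin.elim0 (fun i => i.elim0)
  have homU : Z1.fam (fun n : ℕ => Z1.numN (P := P) n) ∈ U := hom Fin.elim0 (fun i => i.elim0)
  refine zf_of (fun x hx y hy => MM_trans hx hy) ?_ ?_ ?_ ?_ ?_ ?_
  · -- Separation
    intro n φ v hv a ha
    choose ν _ h2 h3 using hv
    obtain ⟨τ, _, h5, rfl⟩ := ha
    have hUv : ∀ j, (Fin.cons τ ν : Fin (n + 1) → Name P) j ∈ U :=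
      Z1.forall_cons (Q := (· ∈ U)) h5 h2
    refine ⟨_, ⟨Z1.sepN φ (Fin.cons τ ν), mem_univ _, hsep ⟨n, φ⟩ _ hUv, rfl⟩, fun x => ?_⟩
    rw [Z1.val_sepN hF φ hUv]
    have : v = (fun j => Name.val U H ((Fin.cons τ ν : Fin (n + 1) → Name P) (Fin.succ j))) := by
      funext j
      exact h3 j
    rw [this]
    rfl
  · -- Collection
    intro n φ v hv a ha
    choose ν _ h2 h3 using hv
    obtain ⟨τ, _, h5, rfl⟩ := ha
    obtain rfl : v = fun j => Name.val U H (ν j) := funext h3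
    set w : Fin (n + 1) → Name P := Fin.cons τ ν with hw
    have hUv : ∀ j, w j ∈ U := Z1.forall_cons (Q := (· ∈ U)) h5 h2
    have hcU : Z1.colN φ w ∈ U := hcol ⟨n, φ⟩ _ hUv
    refine ⟨_, ⟨Z1.colN φ w, mem_univ _, hcU, rfl⟩, ?_⟩
    intro x hx hex
    obtain ⟨y, ⟨σ₀, _, hσU, rfl⟩, hs⟩ := hex
    obtain ⟨k, hk, ⟨q₀, hq₀, hqk⟩, rfl⟩ := Name.mem_val.1 hx
    have hs' := (Name.truth hF φ (Fin.cons (τ.A k) (Fin.cons σ₀ ν))
      (Z1.forall_cons (Q := (· ∈ U)) hk (Z1.forall_cons (Q := (· ∈ U)) hσU h2))).1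
        (by rw [Z1.comp_cons, Z1.comp_cons]; exact hs)
    obtain ⟨r₀, hr₀, hf⟩ := hs'
    rcases hcw ⟨n, φ⟩ (Fin.cons (Z1.colN φ w) (Fin.cons (τ.A k) ν))
      (Z1.forall_cons (Q := (· ∈ U)) hcU (Z1.forall_cons (Q := (· ∈ U)) hk h2)) with
      ⟨q, hq, ρ, hρ, ⟨l, hl, hl'⟩, hfq⟩ | ⟨p, hp, hn⟩
    · refine ⟨Name.val U H ρ, Name.mem_val.2 ⟨l, hl ▸ hρ, ⟨q, hq, ?_⟩, congrArg _ hl⟩, ?_⟩
      · rw [show (Z1.colN φ w).c l = ⊤ from hl']
        trivial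
      · have := (Name.truth hF φ (Fin.cons (τ.A k) (Fin.cons ρ ν))
          (Z1.forall_cons (Q := (· ∈ U)) hk (Z1.forall_cons (Q := (· ∈ U)) hρ h2))).2
            ⟨q, hq, hfq⟩
        rwa [Z1.comp_cons, Z1.comp_cons] at this
    · exfalso
      obtain ⟨r, hr, h6, h7⟩ := hF.at'.filt.dir p hp r₀ hr₀
      have h8 := Z1.wit_spec (φ := φ) (v := w) (z := (k, r)) (σ := σ₀) (Name.Fc_mono hf h7)
      refine hn r h6 (Z1.wit φ w (k, r)) ⟨⟨(k, equivShrink P r), ?_, rfl⟩, h8⟩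
      show Z1.wit φ w (k, r) = Z1.wit φ w (k, (equivShrink P).symm (equivShrink P r))
      rw [Equiv.symm_apply_apply]
  · -- Pairing
    rintro _ ⟨σ, _, h1, rfl⟩ _ ⟨τ, _, h2, rfl⟩
    refine ⟨Z1.prN σ τ, mem_univ _, hpr ![σ, τ] (Name.forall2 h1 h2), ?_⟩
    rw [Z1.val_prN hH h1 h2]
  · -- Union
    rintro _ ⟨τ, _, h1, rfl⟩
    refine ⟨_, ⟨Z1.uniN τ, mem_univ _, huni (fun _ => τ) (fun _ => h1), rfl⟩, ?_⟩
    intro y hy z hz
    obtain ⟨k, hk, _, rfl⟩ := Name.mem_val.1 hy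
    obtain ⟨l, hl, _, rfl⟩ := Name.mem_val.1 hz
    exact (Z1.mem_fam hH).2 ⟨⟨k, l⟩, hl, rfl⟩
  · -- Power set
    rintro _ ⟨τ, _, h1, rfl⟩
    refine ⟨_, ⟨Z1.powN τ, mem_univ _, hpow (fun _ => τ) (fun _ => h1), rfl⟩, ?_⟩
    rintro _ ⟨ν, _, h2, rfl⟩ hsub
    have h3 : Z1.inN ν τ ∈ U := hin ![ν, τ] (Name.forall2 h2 h1)
    rw [← Z1.val_inN hF h2 hsub]
    obtain ⟨k, hk, hk'⟩ := Z1.powN_idx τ (Z1.inN ν τ).c
    obtain ⟨q, hq⟩ := hH
    refine Name.mem_val.2 ⟨k, ?_, ⟨q, hq, ?_⟩, ?_⟩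
    · rw [hk]; exact h3
    · rw [hk']; trivial
    · rw [hk]; rfl
  · -- Infinity
    refine ⟨_, ⟨_, mem_univ _, homU, rfl⟩, ?_, ?_⟩
    · refine (Z1.mem_fam hH).2 ⟨0, hnumU 0, ?_⟩
      symm
      rw [ZFSet.eq_empty]
      intro y hy
      obtain ⟨k, _⟩ := Name.mem_val.1 hy
      exact k.elim
    · intro y hy
      obtain ⟨n, hn, rfl⟩ := (Z1.mem_fam hH).1 hy
      refine (Z1.mem_fam hH).2 ⟨n + 1, hnumU (n + 1), ?_⟩
      exact (Z1.val_sucN hH hn).symm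

namespace Z2

variable {U : Set (Name P)} {H : Set P}

/-- Indices of members of members. -/
abbrev J (τ : Name P) : Type := Σ k : τ.ι, (τ.A k).ι

/-- The member of a member. -/
def nm (τ : Name P) (j : J τ) : Name P := (τ.A j.1).A j.2

/-- `j` is active below `q`. -/
def cd (τ : Name P) (j : J τ) : LowerSet P := τ.c j.1 ⊓ (τ.A j.1).c j.2

/-- `q` decides that `j` is the first active index. -/
def fst (τ : Name P) (j : J τ) (q : P) : Prop :=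
  q ∈ cd τ j ∧ ∀ j' : J τ, WellOrderingRel j' j → ∀ r ≤ q, ¬ (r ∈ cd τ j' ∧
    Name.feq (τ.A j.1) (τ.A j'.1) r)

lemma fst_mono (τ : Name P) (j : J τ) {p q : P} (h : fst τ j p) (hq : q ≤ p) : fst τ j q :=
  ⟨(cd τ j).lower hq h.1, fun j' hj' r hr => h.2 j' hj' r (hr.trans hq)⟩

/-- The name of the choice set. -/
def chN (τ : Name P) : Name P :=
  Name.mk (J τ) (nm τ) (fun j => ⟨{q | fst τ j q}, fun _ _ hba h => fst_mono τ j h hba⟩)

/-- The formula for disjointness. -/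
def dis : Fml 1 :=
  .all (.all (.all (.imp (.mem 2 3) (.imp (.mem 1 3) (.imp (.imp (.eq 2 1) .bot)
    (.imp (.mem 0 2) (.imp (.mem 0 1) .bot)))))))

lemma feq_of_dis {τ : Name P} {p : P} (hp : Name.Fc univ dis ![τ] p) {σ σ' ν : Name P} {q : P}
    (hq : q ≤ p) (h1 : Name.fmem σ τ q) (h2 : Name.fmem σ' τ q) (h3 : Name.fmem ν σ q)
    (h4 : Name.fmem ν σ' q) : Name.feq σ σ' q := by
  refine Name.feq_reg fun r hr => ?_
  by_contra hcon
  push Not at hcon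
  have h5 := hp σ (mem_univ _) σ' (mem_univ _) ν (mem_univ _) r (hr.trans hq)
    (Name.fmem_mono h1 hr) r le_rfl (Name.fmem_mono h2 hr) r le_rfl
    (fun s hs hf => hcon s hs hf) r le_rfl (Name.fmem_mono h3 hr) r le_rfl (Name.fmem_mono h4 hr)
  exact h5

end Z2

/-- Task Z2: for small `P` the model satisfies the axiom of choice. -/
theorem Ev.choice : Ev (P := P) (fun U H => ∀ x ∈ MM U H, (∀ y ∈ MM U H, y ∈ x →
    ∃ z ∈ MM U H, z ∈ y) → (∀ y ∈ MM U H, ∀ y' ∈ MM U H, y ∈ x → y' ∈ x → y ≠ y' →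
      ∀ z ∈ MM U H, ¬ (z ∈ y ∧ z ∈ y')) →
    ∃ c ∈ MM U H, ∀ y ∈ MM U H, y ∈ x → ∃! z, z ∈ MM U H ∧ z ∈ y ∧ z ∈ c) := by
  have hch := Ev.op (P := P) (n := 1) (fun v => Z2.chN (v 0))
  have hgen := Ev.gen (P := P) (n := 2) (fun v q ρ =>
    ∃ j : Z2.J (v 0), Z2.fst (v 0) j q ∧ Name.feq (v 1) ((v 0).A j.1) q ∧ ρ = Z2.nm (v 0) j)
  refine (((Ev.full (P := P)).and hch).and hgen).mono ?_
  rintro U H ⟨⟨hF, hch⟩, hgen⟩
  rintro _ ⟨τ, _, hτ, rfl⟩ hne hdis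
  have hcU : Z2.chN τ ∈ U := hch (fun _ => τ) (fun _ => hτ)
  -- disjointness is forced
  obtain ⟨p₀, hp₀, hp₀'⟩ := (Name.truth hF Z2.dis ![τ] (fun i => by fin_cases i; exact hτ)).1
    (by
      intro y hy y' hy' z hz h1 h2 h3 h4 h5
      exact hdis y hy y' hy' h1 h2 h3 z hz ⟨h4, h5⟩)
  refine ⟨_, ⟨Z2.chN τ, mem_univ _, hcU, rfl⟩, ?_⟩
  rintro _ ⟨σ, _, hσ, rfl⟩ hστ
  -- existence
  have hex : ∃ j : Z2.J τ, ∃ q ∈ H, Z2.fst τ j q ∧ Name.feq σ (τ.A j.1) q ∧ Z2.nm τ j ∈ U := by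
    rcases hgen ![τ, σ] (Name.forall2 hτ hσ) with ⟨q, hq, ρ, hρ, j, h1, h2, rfl⟩ | ⟨p, hp, hn⟩
    · exact ⟨j, q, hq, h1, h2, hρ⟩
    · exfalso
      obtain ⟨z, hz, hzy⟩ := hne _ ⟨σ, mem_univ _, hσ, rfl⟩ hστ
      obtain ⟨k, hk, ⟨q₁, hq₁, hqk⟩, he⟩ := Name.mem_val.1 hστ
      rw [he] at hzy
      obtain ⟨l, hl, ⟨q₂, hq₂, hql⟩, rfl⟩ := Name.mem_val.1 hzy
      obtain ⟨q₃, hq₃, hf⟩ := (Name.val_eq_iff hF.at' hσ hk).1 he
      obtain ⟨r₁, hr₁, h1, h2⟩ := hF.at'.filt.dir q₁ hq₁ q₂ hq₂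
      obtain ⟨r, hr, h3, h4, h5⟩ := hF.at'.filt.dir3 hr₁ hq₃ hp
      -- the set of indices which can be active
      let S : Set (Z2.J τ) := {j | ∃ q ≤ r, q ∈ Z2.cd τ j ∧ Name.feq σ (τ.A j.1) q}
      have hS : S.Nonempty := by
        refine ⟨⟨k, l⟩, r, le_rfl, ?_, Name.feq_mono hf h4⟩
        show r ∈ τ.c k ⊓ (τ.A k).c l
        rw [LowerSet.mem_inf_iff]
        exact ⟨(τ.c k).lower (h3.trans h1) hqk, ((τ.A k).c l).lower (h3.trans h2) hql⟩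
      have hwf : WellFounded (WellOrderingRel (α := Z2.J τ)) := IsWellFounded.wf
      obtain ⟨q, hqr, hqc, hqf⟩ := hwf.min_mem S hS
      refine hn q (hqr.trans h5) _ ⟨hwf.min S hS, ⟨hqc, ?_⟩, hqf, rfl⟩
      rintro j' hj' s hs ⟨h6, h7⟩
      refine hwf.not_lt_min S (x := j') ⟨s, hs.trans hqr, h6, ?_⟩ hj'
      exact Name.feq_trans (Name.feq_mono hqf hs) h7
  obtain ⟨j, q, hq, hj, hjf, hjU⟩ := hex
  have hmem1 : ∀ {j : Z2.J τ} {q : P}, Z2.fst τ j q → Name.fmem (Z2.nm τ j) (τ.A j.1) q := by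
    intro j q h
    have h1 := h.1
    rw [show Z2.cd τ j = τ.c j.1 ⊓ (τ.A j.1).c j.2 from rfl, LowerSet.mem_inf_iff] at h1
    exact Name.fmem_of h1.2
  have hmem2 : ∀ {j : Z2.J τ} {q : P}, Z2.fst τ j q → Name.fmem (τ.A j.1) τ q := by
    intro j q h
    have h1 := h.1
    rw [show Z2.cd τ j = τ.c j.1 ⊓ (τ.A j.1).c j.2 from rfl, LowerSet.mem_inf_iff] at h1
    exact Name.fmem_of h1.1
  obtain ⟨pσ, hpσ, hpσ'⟩ := (Name.val_mem_iff hF.at' hσ hτ).1 hστ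
  -- the elements of the choice set in `val σ` come from indices whose member is `σ`
  have hkey : ∀ z, z ∈ Name.val U H σ → z ∈ Name.val U H (Z2.chN τ) →
      ∃ j : Z2.J τ, ∃ q ∈ H, Z2.fst τ j q ∧ Name.feq σ (τ.A j.1) q ∧
        z = Name.val U H (Z2.nm τ j) := by
    intro z h1 h2
    obtain ⟨i, hi, ⟨s, hs, hsi⟩, rfl⟩ := Name.mem_val.1 h2
    have hsi' : Z2.fst τ i s := hsi
    obtain ⟨s', hs', hf⟩ := (Name.val_mem_iff hF.at' (by exact hi) hσ).1 h1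
    obtain ⟨r₁, hr₁, h3, h4⟩ := hF.at'.filt.dir s hs s' hs'
    obtain ⟨r, hr, h5, h6, h7⟩ := hF.at'.filt.dir3 hr₁ hpσ hp₀
    have hsr := Z2.fst_mono τ i hsi' (h5.trans h3)
    refine ⟨i, r, hr, hsr, ?_, rfl⟩
    exact Z2.feq_of_dis hp₀' h7 (Name.fmem_mono hpσ' h6) (hmem2 hsr)
      (Name.fmem_mono hf (h5.trans h4)) (hmem1 hsr)
  refine ⟨Name.val U H (Z2.nm τ j), ⟨⟨_, mem_univ _, hjU, rfl⟩, ?_, ?_⟩, ?_⟩
  · exact (Name.val_mem_iff hF.at' hjU hσ).2 ⟨q, hq,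
      Name.fmem_congr (Name.feq_refl _ _) (Name.feq_symm hjf) (hmem1 hj)⟩
  · exact Name.mem_val.2 ⟨j, hjU, ⟨q, hq, hj⟩, rfl⟩
  · rintro z ⟨_, h1, h2⟩
    obtain ⟨i, s, hs, hi, hif, rfl⟩ := hkey z h1 h2
    obtain ⟨r, hr, h3, h4⟩ := hF.at'.filt.dir q hq s hs
    have e1 := Z2.fst_mono τ j hj h3
    have e2 := Z2.fst_mono τ i hi h4
    have e3 : Name.feq (τ.A j.1) (τ.A i.1) r :=
      Name.feq_trans (Name.feq_symm (Name.feq_mono hjf h3)) (Name.feq_mono hif h4)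
    rcases trichotomous_of (WellOrderingRel (α := Z2.J τ)) i j with h | h | h
    · exact absurd ⟨e2.1, e3⟩ (e1.2 i h r le_rfl)
    · rw [h]
    · exact absurd ⟨e1.1, Name.feq_symm e3⟩ (e2.2 j h r le_rfl)

end Pool.PC
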