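import Pool.Agent.Lib.MP_ad72f3_pc.FN

/-!
# Task K: the chain condition
-/

set_option autoImplicit false
set_option linter.unusedSectionVars false

open Cardinal Set Order

namespace Pool.PC

namespace K1Aux

/-- Nodes of the codes for the coordinates. -/
abbrev Nd (K Y Z : Type) : Type := Option (Z × (K → Option Y) × K)

/-- Arities of the nodes. -/
def Ar (K Y Z : Type) : Nd K Y Z → Type
  | none => Empty
  | some _ => K

/-- Codes for the coordinates in the closure. -/
abbrev Tr (K Y Z : Type) : Type := WType (Ar K Y Z)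

lemma mk_Tr_le {K Y Z : Type} {c : Cardinal.{0}} (hc : ℵ₀ ≤ c) (hcK : c ^ #K ≤ c)
    (hZ : #Z ≤ c) (hY : #Y ≤ c) (hK : #K ≤ c) : #(K → Option Y) ≤ c ∧ #(Tr K Y Z) ≤ c := by
  have h1 : #(Option Y) ≤ c := by
    rw [mk_option]
    exact add_le_of_le hc hY (one_le_aleph0.trans hc)
  have h2 : #(K → Option Y) ≤ c := by
    rw [← power_def]
    exact (power_le_power_right h1).trans hcK
  have h3 : #(Nd K Y Z) ≤ c := by
    rw [mk_option]
    refine add_le_of_le hc ?_ (one_le_aleph0.trans hc)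
    rw [mk_prod, mk_prod, lift_id, lift_id, lift_id, lift_id]
    exact mul_le_of_le hc hZ (mul_le_of_le hc h2 hK)
  refine ⟨h2, WType.cardinalMk_le_of_le ?_⟩
  have h4 : ∀ a : Nd K Y Z, c ^ #(Ar K Y Z a) ≤ c := by
    intro a
    cases a with
    | none =>
      show c ^ #Empty ≤ c
      rw [mk_empty, power_zero]
      exact one_le_aleph0.trans hc
    | some _ => exact hcK
  calc sum (fun a => c ^ #(Ar K Y Z a)) ≤ sum (fun _ : Nd K Y Z => c) := sum_le_sum _ _ h4
    _ = #(Nd K Y Z) * c := by rw [sum_const']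
    _ ≤ c := mul_le_of_le hc h3 le_rfl

section

variable {K I Y Z A : Type} (tp : A → Z) (f : A → I → Option Y) (e : A → K → Option I)

open Classical in
/-- The chosen element of the antichain extending the partial function `h` at the coordinates
`v`. -/
noncomputable def pick (z : Z) (h : K → Option Y) (v : K → Option I) : Option A :=
  if H : ∃ a, tp a = z ∧ ∀ k y, h k = some y → ∃ x, v k = some x ∧ f a x = some y
  then some H.choose else none

/-- One step of the evaluation of codes. -/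
noncomputable def ev1 : (Σ a : Nd K Y Z, Ar K Y Z a → Option I) → Option I
  | ⟨none, _⟩ => none
  | ⟨some (z, h, i), v⟩ => (pick tp f z h v).bind fun a => e a i

/-- The coordinate with a given code. -/
noncomputable def ev (w : Tr K Y Z) : Option I := WType.elim _ (ev1 tp f e) w

end

/-- The chain condition for partial functions. -/
theorem antichain_le {K I Y Z A : Type} {c : Cardinal.{0}} (hc : ℵ₀ ≤ c) (hcK : c ^ #K ≤ c)
    (hZ : #Z ≤ c) (hY : #Y ≤ c) (tp : A → Z) (f : A → I → Option Y)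
    (hf : ∀ a, #{x | f a x ≠ none} ≤ #K)
    (hA : ∀ a b, a ≠ b → tp a = tp b → ∃ x v w, f a x = some v ∧ f b x = some w ∧ v ≠ w) :
    #A ≤ c := by
  classical
  have hK : #K ≤ c := by
    have h2 : (2 : Cardinal.{0}) ≤ c := (natCast_lt_aleph0 (n := 2)).le.trans hc
    exact (cantor #K).le.trans ((power_le_power_right h2).trans hcK)
  obtain ⟨h1, h2⟩ := mk_Tr_le (K := K) (Y := Y) (Z := Z) hc hcK hZ hY hK
  -- enumerations of the domains
  have he : ∃ e : A → K → Option I, ∀ a x, f a x ≠ none → ∃ k, e a k = some x := by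
    have h3 : ∀ a, Nonempty ({x | f a x ≠ none} ↪ K) := fun a => hf a
    let g := fun a => (h3 a).some
    refine ⟨fun a k => if H : ∃ x, g a x = k then some H.choose.1 else none, ?_⟩
    intro a x hx
    refine ⟨g a ⟨x, hx⟩, ?_⟩
    have H : ∃ y, g a y = g a ⟨x, hx⟩ := ⟨_, rfl⟩
    have h4 : H.choose = ⟨x, hx⟩ := (g a).injective H.choose_spec
    show (if H : ∃ y, g a y = g a ⟨x, hx⟩ then some H.choose.1 else none) = some x
    rw [dif_pos H, h4]
  obtain ⟨e, he⟩ := he
  have key : ∀ a : A, ∃ q : Z × (K → Option Y) × (K → Tr K Y Z),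
      pick tp f q.1 q.2.1 (fun k => ev tp f e (q.2.2 k)) = some a := by
    intro a
    let base : Tr K Y Z := WType.mk none (fun x : Empty => x.elim)
    have h5 : ∀ k, ∃ r : Option Y × Tr K Y Z,
        (∀ y, r.1 = some y → ∃ x, ev tp f e r.2 = some x ∧ f a x = some y) ∧
        ∀ x, e a k = some x → (∃ T : Tr K Y Z, ev tp f e T = some x) →
          r.1 = f a x ∧ ev tp f e r.2 = some x := by
      intro k
      by_cases H : ∃ x, e a k = some x ∧ ∃ T : Tr K Y Z, ev tp f e T = some x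
      · obtain ⟨x, hx, T, hT⟩ := H
        refine ⟨(f a x, T), fun y hy => ⟨x, hT, hy⟩, ?_⟩
        intro x' hx' _
        rw [hx] at hx'
        obtain rfl := Option.some.inj hx'
        exact ⟨rfl, hT⟩
      · refine ⟨(none, base), fun y hy => absurd hy (by simp), ?_⟩
        intro x hx hT
        exact absurd ⟨x, hx, hT⟩ H
    choose r hr1 hr2 using h5
    refine ⟨(tp a, fun k => (r k).1, fun k => (r k).2), ?_⟩
    have H : ∃ b, tp b = tp a ∧ ∀ k y, (r k).1 = some y →
        ∃ x, ev tp f e (r k).2 = some x ∧ f b x = some y :=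
      ⟨a, rfl, fun k y hy => hr1 k y hy⟩
    have hp : pick tp f (tp a) (fun k => (r k).1) (fun k => ev tp f e (r k).2) =
        some H.choose := by
      unfold pick
      exact dif_pos H
    show pick tp f (tp a) (fun k => (r k).1) (fun k => ev tp f e (r k).2) = some a
    rw [hp]
    obtain ⟨hb1, hb2⟩ := H.choose_spec
    by_contra hne
    have hne2 : a ≠ H.choose := fun h6 => hne (by rw [← h6])
    obtain ⟨x, v, w, hv, hw, hvw⟩ := hA a H.choose hne2 hb1.symm
    obtain ⟨i, hi⟩ := he H.choose x (by rw [hw]; simp)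
    obtain ⟨k, hk⟩ := he a x (by rw [hv]; simp)
    have hT : ∃ T : Tr K Y Z, ev tp f e T = some x := by
      refine ⟨WType.mk (some (tp a, (fun k => (r k).1), i)) (fun k => (r k).2), ?_⟩
      show (pick tp f (tp a) (fun k => (r k).1) (fun k => ev tp f e (r k).2)).bind
        (fun a => e a i) = some x
      rw [hp]
      exact hi
    obtain ⟨h7, h8⟩ := hr2 k x hk hT
    rw [hv] at h7
    obtain ⟨x', h9, h10⟩ := hb2 k v h7
    rw [h8] at h9
    obtain rfl := Option.some.inj h9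
    rw [hw] at h10
    exact hvw (Option.some.inj h10).symm
  choose q hq using key
  have hinj : Function.Injective q := by
    intro a b hab
    have h3 := hq a
    rw [hab, hq b] at h3
    exact (Option.some.inj h3).symm
  refine (mk_le_of_injective hinj).trans ?_
  rw [mk_prod, mk_prod, lift_id, lift_id, lift_id, lift_id]
  refine mul_le_of_le hc hZ (mul_le_of_le hc h1 ?_)
  rw [← power_def]
  exact (power_le_power_right h2).trans hcK

end K1Aux

variable {Ω : Type} [LinearOrder Ω] [WellFoundedLT Ω] {X : Type} [D : PD Ω X]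

/-- Two conditions with the same stem, the same collapses and the same promises whose Cohen parts
agree on the common part of their domains are compatible. -/
theorem compatible {p q : Cond Ω X} (hm : p.m = q.m) (hs : p.s = q.s) (hr : p.r = q.r)
    (hc : p.u.c = q.u.c) (hF : p.u.F = q.u.F)
    (hf : ∀ α v w, p.u.f α = some v → q.u.f α = some w → v = w) :
    ∃ r : Cond Ω X, r ≤ p ∧ r ≤ q := by
  let u : Up Ω X :=
    { c := p.u.c, f := fun α => (p.u.f α).or (q.u.f α), A := p.u.A ∩ q.u.A, F := p.u.F }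
  have hor : ∀ α v, u.f α = some v → p.u.f α = some v ∨ q.u.f α = some v := by
    intro α v h
    change (p.u.f α).or (q.u.f α) = some v at h
    rw [Option.or_eq_some_iff] at h
    rcases h with h | ⟨-, h⟩
    · exact Or.inl h
    · exact Or.inr h
  have hp : ∀ α v, p.u.f α = some v → u.f α = some v := by
    intro α v h
    change (p.u.f α).or (q.u.f α) = some v
    rw [h]
    rfl
  have hq : ∀ α v, q.u.f α = some v → u.f α = some v := by
    intro α v h
    change (p.u.f α).or (q.u.f α) = some v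
    cases h1 : p.u.f α with
    | none => simpa using h
    | some w => rw [hf α w v h1 h]; rfl
  have hV : u.V p.m := by
    refine ⟨p.up.hc, ?_, ?_, Filter.inter_mem p.up.hA q.up.hA, p.up.hF⟩
    · intro α ρ σ h
      rcases hor _ _ h with h | h
      · exact p.up.ff α ρ σ h
      · exact q.up.ff α ρ σ h
    · intro m' hm' hlt
      have h1 : {α | ∃ ρ σ, u.f α = some (ρ, σ) ∧ ρ < m'} ⊆
          {α | ∃ ρ σ, p.u.f α = some (ρ, σ) ∧ ρ < m'} ∪
          {α | ∃ ρ σ, q.u.f α = some (ρ, σ) ∧ ρ < m'} := by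
        rintro α ⟨ρ, σ, h, hρ⟩
        rcases hor _ _ h with h | h
        · exact Or.inl ⟨ρ, σ, h, hρ⟩
        · exact Or.inr ⟨ρ, σ, h, hρ⟩
      exact (mk_le_mk_of_subset h1).trans ((mk_union_le _ _).trans
        (add_le_of_le (aleph0_lt_crd hm').le (p.up.fs m' hm' hlt)
          (q.up.fs m' hm' (hm ▸ hlt))))
  let r : Cond Ω X := ⟨p.m, p.s, p.r, u, p.low, hV⟩
  refine ⟨r, Cond.Dle.le ⟨rfl, rfl, ?_, ?_⟩, Cond.Dle.le ⟨hm, hs, ?_, ?_⟩⟩
  · exact List.forall₂_same.2 fun c _ => Sub.refl c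
  · exact ⟨Sub.refl _, fun α ρ σ h => ⟨ρ, hp _ _ h, rfl⟩, fun x hx _ => hx.1,
      fun _ _ _ => Sub.refl _⟩
  · change List.Forall₂ Sub q.r p.r
    rw [hr]
    exact List.forall₂_same.2 fun c _ => Sub.refl c
  · refine ⟨?_, fun α ρ σ h => ⟨ρ, hq _ _ h, rfl⟩, fun x hx _ => hx.2, ?_⟩
    · change Sub q.u.c p.u.c
      rw [hc]
      exact Sub.refl _
    · intro m' _ _
      change Sub (q.u.F m') (p.u.F m')
      rw [hF]
      exact Sub.refl _

/-- THE CHAIN CONDITION. -/
theorem chain_condition (A : Set (Cond Ω X))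
    (hA : ∀ p ∈ A, ∀ q ∈ A, p ≠ q → ¬ ∃ r : Cond Ω X, r ≤ p ∧ r ≤ q) : #A ≤ succ D.κ := by
  have hκ : ℵ₀ ≤ D.κ := D.κ_inacc.aleph0_lt.le
  have hκs : ℵ₀ ≤ succ D.κ := hκ.trans (le_succ _)
  have hpow : succ D.κ ^ D.κ ≤ succ D.κ := by
    rw [← D.two_κ, ← power_mul, mul_eq_self hκ]
  have hΩ : #Ω ≤ succ D.κ := by
    rw [D.mk_Ω]
    exact le_succ _
  have hOpt : #(Option Ω) ≤ succ D.κ := by
    rw [mk_option]
    exact add_le_of_le hκs hΩ (one_le_aleph0.trans hκs)
  have hPF : #(PF Ω) ≤ succ D.κ := by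
    show #(Ω → Option Ω) ≤ _
    rw [← power_def, D.mk_Ω]
    exact (power_le_power_right hOpt).trans hpow
  have hlist : ∀ {E : Type}, #E ≤ succ D.κ → #(List E) ≤ succ D.κ := fun {E} h =>
    (mk_list_le_max E).trans (max_le hκs h)
  have hY : #(Ω × (ℕ → Option Ω)) ≤ succ D.κ := by
    rw [mk_prod, lift_id, lift_id]
    refine mul_le_of_le hκs hΩ ?_
    rw [← power_def, mk_nat]
    have h1 : #(Option Ω) ^ ℵ₀ ≤ succ D.κ ^ D.κ :=
      (power_le_power_right hOpt).trans (power_le_power_left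
        (by
          have := aleph0_pos.trans_le hκs
          exact this.ne') hκ)
    exact h1.trans hpow
  have hZ : #(Ω × List Ω × List (PF Ω) × PF Ω × (Ω → PF Ω)) ≤ succ D.κ := by
    simp only [mk_prod, lift_id]
    exact mul_le_of_le hκs hΩ (mul_le_of_le hκs (hlist hΩ) (mul_le_of_le hκs (hlist hPF)
      (mul_le_of_le hκs hPF (mk_PF_le Ω X))))
  refine K1Aux.antichain_le (K := Ω) hκs (by rw [D.mk_Ω]; exact hpow) hZ hY
    (fun p : A => (p.1.m, p.1.s, p.1.r, p.1.u.c, p.1.u.F)) (fun p : A => p.1.u.f) ?_ ?_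
  · intro p
    rw [D.mk_Ω]
    refine le_trans (mk_le_mk_of_subset ?_) (mk_iUnion_le hκ D.mk_Ω.le
      (fun m' : Ω => {α | (m' ∈ D.W ∧ p.1.m < m') ∧
        ∃ ρ σ, p.1.u.f α = some (ρ, σ) ∧ ρ < m'}) ?_)
    · intro α hα
      change p.1.u.f α ≠ none at hα
      obtain ⟨⟨ρ, σ⟩, h⟩ := Option.ne_none_iff_exists'.1 hα
      obtain ⟨m', hm', hlt⟩ := exists_mem_W (X := X) (max ρ p.1.m)
      rw [max_lt_iff] at hlt
      exact mem_iUnion.2 ⟨m', ⟨hm', hlt.2⟩, ρ, σ, h, hlt.1⟩
    · intro m'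
      by_cases hm' : m' ∈ D.W ∧ p.1.m < m'
      · refine le_trans (mk_le_mk_of_subset ?_) ((p.1.up.fs m' hm'.1 hm'.2).trans
          (D.crd_lt m').le)
        rintro α ⟨-, h⟩
        exact h
      · have h0 : {α | (m' ∈ D.W ∧ p.1.m < m') ∧
            ∃ ρ σ, p.1.u.f α = some (ρ, σ) ∧ ρ < m'} = ∅ := by
          ext α
          constructor
          · rintro ⟨h, -⟩
            exact absurd h hm'
          · intro h
            exact h.elim
        rw [h0, mk_eq_zero]
        exact zero_le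
  · rintro ⟨p, hp⟩ ⟨q, hq⟩ hne htp
    simp only [Prod.mk.injEq] at htp
    obtain ⟨h1, h2, h3, h4, h5⟩ := htp
    by_contra hcon
    refine hA p hp q hq (fun h => hne (Subtype.ext h)) (compatible h1 h2 h3 h4 h5 ?_)
    intro α v w hv hw
    by_contra hvw
    exact hcon ⟨α, v, w, hv, hw, hvw⟩


/-- A name for an element of `B` has at most `κ⁺` possible values. -/
theorem cover_cc {A B : Type} {p : Cond Ω X} {R : Cond Ω X → A → B → Prop} (hR : FN p R) (a : A) :
    #{b | ∃ q ≤ p, R q a b} ≤ succ D.κ := by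
  classical
  have h0 : ∀ b : {b | ∃ q ≤ p, R q a b}, ∃ q : Cond Ω X, q ≤ p ∧ R q a b := fun b => b.2
  choose f hf1 hf2 using h0
  have hinj : Function.Injective f := by
    intro b b' h
    have h1 := hf2 b
    rw [h] at h1
    exact Subtype.ext (hR.uniq _ (hf1 b') a _ _ h1 (hf2 b'))
  rw [← mk_range_eq f hinj]
  refine chain_condition (range f) ?_
  rintro _ ⟨b, rfl⟩ _ ⟨b', rfl⟩ hne ⟨r, h1, h2⟩
  apply hne
  have h3 : (b : B) = b' := hR.uniq r (h1.trans (hf1 b)) a _ _ (hR.mono _ _ _ _ h1 (hf2 b))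
    (hR.mono _ _ _ _ h2 (hf2 b'))
  rw [Subtype.ext h3]

/-- VC3: `κ⁺⁺` is preserved. -/
theorem preserve_succ₂ {A B : Type} {p : Cond Ω X} (hA : #A ≤ succ D.κ)
    (hB : #B = succ (succ D.κ)) {R : Cond Ω X → A → B → Prop} (hR : FN p R) :
    ∃ b, ∀ q ≤ p, ∀ a, ¬ R q a b := by
  by_contra hcon
  push Not at hcon
  have h1 : (univ : Set B) ⊆ ⋃ a : A, {b | ∃ q ≤ p, R q a b} := by
    intro b _
    obtain ⟨q, hq, a, h⟩ := hcon b
    exact mem_iUnion.2 ⟨a, q, hq, h⟩
  have hinf : ℵ₀ ≤ succ D.κ := D.κ_inacc.aleph0_lt.le.trans (le_succ _)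
  have h2 : #B ≤ succ D.κ := by
    calc #B = #(univ : Set B) := mk_univ.symm
      _ ≤ #(⋃ a : A, {b | ∃ q ≤ p, R q a b} : Set B) := mk_le_mk_of_subset h1
      _ ≤ #A * ⨆ a : A, #{b | ∃ q ≤ p, R q a b} := Cardinal.mk_iUnion_le _
      _ ≤ succ D.κ * succ D.κ := by
        refine mul_le_mul' hA ?_
        exact ciSup_le' fun a => cover_cc hR a
      _ = succ D.κ := mul_eq_self hinf
  rw [hB] at h2
  exact absurd h2 (not_le.2 (lt_succ _))

/-- For a set `S` dense below `p` there is a set of at most `κ⁺` elements of `S` which is predense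
below `p`. -/
theorem exists_predense {p : Cond Ω X} (S : Set (Cond Ω X)) (hS : ∀ q ≤ p, ∃ r ≤ q, r ∈ S) :
    ∃ S' ⊆ S, #S' ≤ succ D.κ ∧ ∀ q ≤ p, ∃ s ∈ S', ∃ r : Cond Ω X, r ≤ q ∧ r ≤ s := by
  obtain ⟨S', hmax⟩ := zorn_subset
    {T : Set (Cond Ω X) | T ⊆ S ∧ ∀ p ∈ T, ∀ q ∈ T, p ≠ q → ¬ ∃ r : Cond Ω X, r ≤ p ∧ r ≤ q} (by
      intro c hc hchain
      refine ⟨⋃₀ c, ⟨sUnion_subset fun T hT => (hc hT).1, ?_⟩, fun T hT => subset_sUnion_of_mem hT⟩
      rintro x ⟨T, hT, hx⟩ y ⟨T', hT', hy⟩ hne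
      rcases hchain.total hT hT' with h | h
      · exact (hc hT').2 x (h hx) y hy hne
      · exact (hc hT).2 x hx y (h hy) hne)
  refine ⟨S', hmax.prop.1, chain_condition S' hmax.prop.2, fun q hq => ?_⟩
  obtain ⟨r, hr, hrS⟩ := hS q hq
  by_contra hcon
  push Not at hcon
  have hinc : ∀ s ∈ S', ¬ ∃ r' : Cond Ω X, r' ≤ r ∧ r' ≤ s := by
    rintro s hs ⟨r', h1, h2⟩
    exact hcon s hs r' (h1.trans hr) h2
  have h1 : insert r S' ⊆ S ∧
      ∀ p ∈ insert r S', ∀ q ∈ insert r S', p ≠ q → ¬ ∃ r : Cond Ω X, r ≤ p ∧ r ≤ q := by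
    refine ⟨insert_subset hrS hmax.prop.1, ?_⟩
    rintro x (rfl | hx) y (rfl | hy) hne
    · exact absurd rfl hne
    · exact hinc y hy
    · rintro ⟨r', h1, h2⟩
      exact hinc x hx ⟨r', h2, h1⟩
    · exact hmax.prop.2 x hx y hy hne
  have h2 : r ∈ S' := hmax.le_of_ge h1 (subset_insert r S') (mem_insert r S')
  exact hinc r h2 ⟨r, le_rfl, le_rfl⟩


end Pool.PC
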