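import Pool.Agent.Lib.MP_ad72f3_pc.Cond

/-!
# Task C: cardinal arithmetic
-/

set_option autoImplicit false
set_option linter.unusedSectionVars false

open Cardinal Set Order

namespace Pool.PC

variable {Ω : Type} [LinearOrder Ω] [WellFoundedLT Ω] {X : Type} [D : PD Ω X]

lemma sc_mono_right {i : ℕ} {c d : Cardinal.{0}} (h : c ≤ d) : sc i c ≤ sc i d := by
  induction i with
  | zero => exact h
  | succ i ih => exact succ_le_succ ih

lemma sc_le {i j : ℕ} (h : i ≤ j) (c : Cardinal.{0}) : sc i c ≤ sc j c := by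
  induction h with
  | refl => exact le_rfl
  | step _ ih => exact ih.trans (le_succ _)

lemma sc_lt {i j : ℕ} (h : i < j) (c : Cardinal.{0}) : sc i c < sc j c :=
  (lt_succ (sc i c)).trans_le (sc_le (Nat.succ_le_of_lt h) c)

lemma sc_isRegular {c : Cardinal.{0}} (hc : ℵ₀ ≤ c) (i : ℕ) : (sc (i + 1) c).IsRegular :=
  isRegular_succ (hc.trans (sc_le (Nat.zero_le i) c))

/-- A strong limit cardinal is closed under successors. -/
lemma sc_lt_of_lt {c θ : Cardinal.{0}} (h : c < θ) (hθ : θ.IsInaccessible) (i : ℕ) :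
    sc i c < θ := by
  induction i with
  | zero => exact h
  | succ i ih => exact hθ.isSuccLimit.succ_lt ih

omit [WellFoundedLT Ω] in
lemma crd_mono {a b : Ω} (h : a ≤ b) : crd a ≤ crd b :=
  mk_le_mk_of_subset (Iio_subset_Iio h)

/-- There are at most `θ` ordinals below `θ`. -/
lemma mk_crd_lt (θ : Cardinal.{0}) : #{a : Ω | crd a < θ} ≤ θ := by
  have h0 : ∀ a : Ω, crd a < θ → Ordinal.typein (α := Ω) (· < ·) a ∈ Iio θ.ord := by
    intro a ha
    rw [mem_Iio, Cardinal.lt_ord, Ordinal.card_typein]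
    exact ha
  have h : Function.Injective fun a : {a : Ω | crd a < θ} =>
      (⟨Ordinal.typein (α := Ω) (· < ·) a.1, h0 a.1 a.2⟩ : Iio θ.ord) := by
    intro a b hab
    have h1 := congrArg Subtype.val hab
    exact Subtype.ext (Ordinal.typein_injective (α := Ω) (· < ·) h1)
  have h2 := Cardinal.mk_le_of_injective
    (Function.Injective.comp h (ULift.down_injective : Function.Injective
      (ULift.down : ULift.{1, 0} {a : Ω | crd a < θ} → _)))
  rw [Cardinal.mk_uLift, Cardinal.mk_Iio_ordinal, Cardinal.card_ord] at h2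
  exact Cardinal.lift_le.1 h2

lemma mk_crd_lt_eq {θ : Cardinal.{0}} (hθ : θ ≤ D.κ) : #{a : Ω | crd a < θ} = θ := by
  refine le_antisymm (mk_crd_lt θ) ?_
  by_contra hlt
  rw [not_le] at hlt
  by_cases hT : {a : Ω | crd a < θ} = Set.univ
  · rw [hT, mk_univ, D.mk_Ω] at hlt
    exact absurd hlt (not_lt.2 hθ)
  · have hne : ({a : Ω | crd a < θ}ᶜ).Nonempty := by
      rw [nonempty_compl]
      exact hT
    set a := (wellFounded_lt (α := Ω)).min _ hne with ha
    have h1 : a ∈ {a : Ω | crd a < θ}ᶜ := (wellFounded_lt (α := Ω)).min_mem _ hne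
    have h2 : Iio a ⊆ {a : Ω | crd a < θ} := by
      intro b hb
      by_contra hb'
      exact (wellFounded_lt (α := Ω)).not_lt_min _ (show b ∈ {a : Ω | crd a < θ}ᶜ from hb') hb
    exact h1 ((mk_le_mk_of_subset h2).trans_lt hlt)

lemma crd_lt_iff {m : Ω} (hm : m ∈ D.W) (a : Ω) : crd a < crd m ↔ a < m := by
  refine ⟨fun h => ?_, fun h => D.W_init m hm a h⟩
  by_contra h'
  exact absurd h (not_lt.2 (crd_mono (not_lt.1 h')))

lemma aleph0_lt_crd {m : Ω} (hm : m ∈ D.W) : ℵ₀ < crd m :=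
  (D.W_inacc m hm).aleph0_lt

lemma crd_lt_crd {m m' : Ω} (hm' : m' ∈ D.W) (h : m < m') : crd m < crd m' :=
  D.W_init m' hm' m h

/-- `κ_m^{+i} < κ_m'` if `m < m'` are in `W`. -/
lemma sc_crd_lt {m m' : Ω} (hm' : m' ∈ D.W) (h : m < m') (i : ℕ) : sc i (crd m) < crd m' :=
  sc_lt_of_lt (crd_lt_crd hm' h) (D.W_inacc m' hm') i

lemma sc_crd_lt_κ (m : Ω) (i : ℕ) : sc i (crd m) < D.κ :=
  sc_lt_of_lt (D.crd_lt m) D.κ_inacc i

/-- A bounded set of small size of ordinals below `κ` has a strict upper bound. -/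
lemma exists_bound {S : Set Ω} {θ : Cardinal.{0}} (hθ : θ.IsRegular) (hθκ : θ ≤ D.κ)
    (hS : #S < θ) (h : ∀ a ∈ S, crd a < θ) : ∃ b : Ω, crd b < θ ∧ ∀ a ∈ S, a < b := by
  have h1 : #(⋃ a : S, Iic a.1) < θ := by
    rw [card_iUnion_lt_iff_forall_of_isRegular hθ hS]
    rintro ⟨a, ha⟩
    have h2 : Iic a ⊆ insert a (Iio a) := fun b hb => by
      rcases eq_or_lt_of_le hb with h3 | h3
      · exact Or.inl h3
      · exact Or.inr h3
    refine (mk_le_mk_of_subset h2).trans_lt (mk_insert_le.trans_lt ?_)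
    exact Cardinal.add_lt_of_lt hθ.aleph0_le (h a ha)
      (Cardinal.one_lt_aleph0.trans_le hθ.aleph0_le)
  have h2 : ∃ b ∈ {a : Ω | crd a < θ}, b ∉ ⋃ a : S, Iic a.1 := by
    by_contra h3
    push Not at h3
    have h4 := mk_le_mk_of_subset (show {a : Ω | crd a < θ} ⊆ ⋃ a : S, Iic a.1 from h3)
    rw [mk_crd_lt_eq hθκ] at h4
    exact absurd h1 (not_lt.2 h4)
  obtain ⟨b, hb, hb'⟩ := h2
  refine ⟨b, hb, fun a ha => ?_⟩
  by_contra h3
  exact hb' (mem_iUnion.2 ⟨⟨a, ha⟩, not_lt.1 h3⟩)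

/-- `W` is unbounded. -/
lemma exists_mem_W (a : Ω) : ∃ m ∈ D.W, a < m := by
  obtain ⟨x, hx, hx'⟩ := (D.kx_W.and (D.unb a)).exists
  exact ⟨D.kx x, hx, hx'⟩

/-! ### C2 -/

/-- The successor step of Hausdorff's formula. -/
lemma succ_pow_le {μ l : Cardinal.{0}} (hμ : ℵ₀ ≤ μ) (hμl : μ ≤ l) (h : l ^ μ ≤ l) :
    (succ l) ^ μ ≤ succ l := by
  have hl : ℵ₀ ≤ l := hμ.trans hμl
  have hreg : (succ l).IsRegular := isRegular_succ hl
  have hL : #((succ l).ord.ToType) = succ l := mk_ord_toType _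
  have key : (Set.univ : Set (μ.out → (succ l).ord.ToType)) ⊆
      ⋃ b : (succ l).ord.ToType, {f | ∀ x, f x < b} := by
    intro f _
    by_contra hcon
    simp only [mem_iUnion, mem_ofPred_eq, not_exists, not_forall, not_lt] at hcon
    have hcof : IsCofinal (Set.range f) := by
      intro b
      obtain ⟨x, hx⟩ := hcon b
      exact ⟨f x, mem_range_self x, hx⟩
    have h1 : Order.cof ((succ l).ord.ToType) ≤ #(Set.range f) := cof_le hcof
    rw [Ordinal.cof_toType, hreg.cof_ord] at h1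
    have h2 : #(Set.range f) ≤ #(μ.out) := mk_range_le
    rw [mk_out] at h2
    exact absurd (h1.trans (h2.trans hμl)) (not_le.2 (lt_succ l))
  have h3 : #(μ.out → (succ l).ord.ToType) = (succ l) ^ μ := by
    rw [← power_def, hL, mk_out]
  rw [← h3, ← mk_univ]
  refine (mk_le_mk_of_subset key).trans ?_
  refine (mk_iUnion_le _).trans ?_
  rw [hL]
  have h4 : (⨆ b : (succ l).ord.ToType, #{f : μ.out → (succ l).ord.ToType | ∀ x, f x < b}) ≤ l := by
    apply ciSup_le'
    intro b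
    have h5 : #{f : μ.out → (succ l).ord.ToType | ∀ x, f x < b} ≤ #(μ.out → Iio b) := by
      refine mk_le_of_injective (f := fun f x => ⟨f.1 x, f.2 x⟩) ?_
      intro f g hfg
      apply Subtype.ext
      funext x
      exact congrArg Subtype.val (congrFun hfg x)
    refine h5.trans ?_
    rw [← power_def, mk_out]
    have h6 : #(Iio b) ≤ l := by
      have := mk_Iio_lt b (by rw [hL, Ordinal.type_toType])
      rw [hL] at this
      exact lt_succ_iff.1 this
    exact (power_le_power_right h6).trans h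
  calc succ l * _ ≤ succ l * succ l := mul_le_mul_right (h4.trans (le_succ l)) _
    _ = succ l := mul_eq_self hreg.aleph0_le

/-- Hausdorff's formula for the powers of the cardinals `m^{+i}`, `1 ≤ i`. -/
lemma sc_power {m : Ω} (hm : m ∈ D.W) (i : ℕ) :
    sc (i + 1) (crd m) ^ (crd m) ≤ sc (i + 1) (crd m) := by
  have h0 : ℵ₀ ≤ crd m := (aleph0_lt_crd hm).le
  induction i with
  | zero =>
    change (succ (crd m)) ^ (crd m) ≤ succ (crd m)
    rw [← D.W_two m hm, ← power_mul, mul_eq_self h0]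
  | succ i ih =>
    exact succ_pow_le h0 (sc_le (Nat.zero_le (i + 1)) (crd m)) ih

lemma two_power_lt {m : Ω} (hm : m ∈ D.W) {c : Cardinal.{0}} (hc : c < crd m) :
    (2 : Cardinal.{0}) ^ c < crd m :=
  (D.W_inacc m hm).isStrongPrelimit hc

/-- The number of conditions of the collapse `Col(θ, m)`, `θ < m`. -/
lemma mk_col_le {m : Ω} (hm : m ∈ D.W) {θ : Cardinal.{0}} (hθ : θ < crd m) :
    #{c : PF Ω | IsCol θ c ∧ BelowC c m} ≤ crd m := by
  have h0 : ℵ₀ ≤ crd m := (aleph0_lt_crd hm).le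
  have hin := D.W_inacc m hm
  have hprod : #(Iio m × Iio m) = crd m := by
    rw [← mul_def]
    exact mul_eq_self h0
  have h1 : #{s : Set (Iio m × Iio m) // #s < (#(Iio m × Iio m)).ord.cof} = #(Iio m × Iio m) :=
    mk_subset_mk_lt_cof (by rw [hprod]; exact hin.isStrongPrelimit)
  rw [hprod] at h1
  have hcof : (crd m).ord.cof = crd m := hin.isRegular.cof_ord
  rw [hcof] at h1
  rw [← h1]
  have hg : ∀ c : PF Ω, IsCol θ c →
      #{p : Iio m × Iio m | c p.1.1 = some p.2.1} < crd m := by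
    intro c hc
    refine lt_of_le_of_lt ?_ (hc.1.trans hθ)
    refine mk_le_of_injective (f := fun p => ⟨p.1.1.1, ?_⟩) ?_
    · change c p.1.1.1 ≠ none
      have := p.2
      simp only [mem_ofPred_eq] at this
      rw [this]
      simp
    · rintro ⟨⟨⟨a, ha⟩, ⟨b, hb⟩⟩, hab⟩ ⟨⟨⟨a', ha'⟩, ⟨b', hb'⟩⟩, hab'⟩ he
      simp only [Subtype.mk.injEq] at he
      subst he
      simp only [mem_ofPred_eq] at hab hab'
      rw [hab] at hab'
      simp only [Option.some.injEq] at hab'
      subst hab'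
      rfl
  refine mk_le_of_injective (f := fun c => ⟨{p : Iio m × Iio m | c.1 p.1.1 = some p.2.1},
    hg c.1 c.2.1⟩) ?_
  rintro ⟨c, hc, hcb⟩ ⟨c', hc', hcb'⟩ he
  simp only [Subtype.mk.injEq] at he ⊢
  have aux : ∀ (c c' : PF Ω), IsCol θ c → BelowC c m →
      {p : Iio m × Iio m | c p.1.1 = some p.2.1} = {p : Iio m × Iio m | c' p.1.1 = some p.2.1} →
      ∀ a b, c a = some b → c' a = some b := by
    intro c c' hc hcb he a b hab
    have ha : a < m := (crd_lt_iff hm a).1 ((hc.2 a b hab).trans hθ)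
    have hb : b < m := hcb a b hab
    have : ((⟨a, ha⟩, ⟨b, hb⟩) : Iio m × Iio m) ∈ {p : Iio m × Iio m | c p.1.1 = some p.2.1} := hab
    rw [he] at this
    exact this
  funext a
  apply Option.ext
  intro b
  exact ⟨aux c c' hc hcb he a b, aux c' c hc' hcb' he.symm a b⟩

/-- The number of lower parts of a stem. -/
lemma mk_low_le {m : Ω} {s : List Ω} : #{r : List (PF Ω) | LowV X (m :: s) r} ≤ crd m := by
  induction s generalizing m with
  | nil =>
    by_cases hm : m ∈ D.W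
    · have h1 : {r : List (PF Ω) | LowV X [m] r} ⊆
          (fun c => [c]) '' {c : PF Ω | IsCol ℵ₀ c ∧ BelowC c m} := by
        intro r hr
        match r, hr with
        | [], hr => exact absurd hr (by simp [LowV])
        | [c], hr => exact ⟨c, ⟨hr.2.2.1, hr.2.2.2.1⟩, rfl⟩
        | c :: c' :: r, hr => exact absurd hr.2.2.2.2 (by simp [LowV])
      exact (mk_le_mk_of_subset h1).trans (mk_image_le.trans (mk_col_le hm (aleph0_lt_crd hm)))
    · have h1 : {r : List (PF Ω) | LowV X [m] r} = ∅ := by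
        ext r
        simp only [mem_ofPred_eq, mem_empty_iff_false, iff_false]
        exact fun hr => hm hr.mem_W
      rw [h1]
      simp
  | cons m' s ih =>
    by_cases hm : m ∈ D.W ∧ m' < m
    · obtain ⟨hm, hlt⟩ := hm
      have h1 : {r : List (PF Ω) | LowV X (m :: m' :: s) r} ⊆
          Set.image2 (fun c r => c :: r) {c : PF Ω | IsCol (sc 4 (crd m')) c ∧ BelowC c m}
            {r : List (PF Ω) | LowV X (m' :: s) r} := by
        intro r hr
        match r, hr with
        | [], hr => exact absurd hr (by simp [LowV])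
        | c :: r, hr => exact ⟨c, ⟨hr.2.2.1, hr.2.2.2.1⟩, r, hr.2.2.2.2, rfl⟩
      refine (mk_le_mk_of_subset h1).trans (mk_image2_le.trans ?_)
      refine (mul_le_mul' (mk_col_le hm (sc_crd_lt hm hlt 4)) (ih (m := m'))).trans ?_
      refine (mul_le_mul' le_rfl (crd_lt_crd hm hlt).le).trans ?_
      exact (mul_eq_self (aleph0_lt_crd hm).le).le
    · have h1 : {r : List (PF Ω) | LowV X (m :: m' :: s) r} = ∅ := by
        ext r
        simp only [mem_ofPred_eq, mem_empty_iff_false, iff_false]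
        intro hr
        apply hm
        match r, hr with
        | [], hr => exact absurd hr (by simp [LowV])
        | c :: r, hr => exact ⟨hr.1, hr.2.1 m' (by simp)⟩
      rw [h1]
      simp

/-- The union of at most `θ`-many sets of size at most `θ`. -/
lemma mk_iUnion_le {ι Z : Type} {θ : Cardinal.{0}} (hθ : ℵ₀ ≤ θ) (hι : #ι ≤ θ) (S : ι → Set Z)
    (h : ∀ i, #(S i) ≤ θ) : #(⋃ i, S i) ≤ θ := by
  refine (Cardinal.mk_iUnion_le S).trans ?_
  refine (mul_le_mul' hι (ciSup_le' h)).trans ?_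
  exact (mul_eq_self hθ).le

variable (Ω X) in
/-- The number of coordinates. -/
lemma mk_Crd_le : #(Crd Ω X) ≤ succ (succ D.κ) := by
  have hκ : ℵ₀ ≤ D.κ := D.κ_inacc.aleph0_lt.le
  have h1 : #(Crd Ω X) ≤ #(X → Ω) := mk_subtype_le _
  refine h1.trans ?_
  rw [← power_def, D.mk_Ω, ← D.two_κs]
  calc D.κ ^ #X ≤ (2 ^ D.κ) ^ #X := power_le_power_right (cantor _).le
    _ = 2 ^ (D.κ * #X) := (power_mul).symm
    _ ≤ 2 ^ (succ D.κ) := by
      apply power_le_power_left (by norm_num)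
      refine (mul_le_mul' (le_succ _) D.mk_X).trans ?_
      exact (mul_eq_self (hκ.trans (le_succ _))).le

variable (Ω X) in
lemma mk_PF_le : #(Ω → PF Ω) ≤ succ D.κ := by
  have hκ : ℵ₀ ≤ D.κ := D.κ_inacc.aleph0_lt.le
  have h1 : #(Ω → PF Ω) = ((D.κ + 1) ^ D.κ) ^ D.κ := by
    rw [← power_def, ← power_def, mk_option, D.mk_Ω]
  rw [h1, ← D.two_κ, ← power_mul, mul_eq_self hκ]
  calc (D.κ + 1) ^ D.κ ≤ (2 ^ D.κ) ^ D.κ := by
        apply power_le_power_right
        rw [add_one_of_aleph0_le hκ]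
        exact (cantor _).le
    _ = 2 ^ D.κ := by rw [← power_mul, mul_eq_self hκ]

/-! ### C3 -/

/-- Completeness of the ultrafilter. -/
lemma complete {Z : Type} (hZ : #Z < D.κ) (B : Z → Set X) (h : ∀ z, B z ∈ D.U) :
    ∀ᶠ x in (D.U : Filter X), ∀ z, x ∈ B z := by
  have hne : Nonempty Ω := by
    rw [← mk_ne_zero_iff, D.mk_Ω]
    exact D.κ_inacc.ne_zero
  obtain ⟨a₀⟩ := hne
  have h1 := D.diag (fun _ : Z => a₀) B (fun a => (mk_subtype_le _).trans_lt hZ) h
  filter_upwards [h1, D.unb a₀] with x hx hx' z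
  exact hx z hx'

/-- Normality: a regressive function is constant on a large set. -/
lemma regressive {Z : Type} (rk : Z → Ω) (hrk : ∀ a : Ω, #{z | rk z < a} < D.κ) (φ : X → Z)
    (h : ∀ᶠ x in (D.U : Filter X), rk (φ x) < D.kx x) :
    ∃ z, ∀ᶠ x in (D.U : Filter X), φ x = z := by
  by_contra hcon
  push Not at hcon
  have h1 : ∀ z, {x | φ x ≠ z} ∈ D.U := by
    intro z
    exact hcon z
  have h2 := D.diag rk (fun z => {x | φ x ≠ z}) hrk h1
  obtain ⟨x, hx1, hx2⟩ := (h2.and h).exists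
  exact hx1 (φ x) hx2 rfl

/-- A function with fewer than `κ` values is constant on a large set. -/
lemma eventually_const {Z : Type} (hZ : #Z < D.κ) (φ : X → Z) :
    ∃ z, ∀ᶠ x in (D.U : Filter X), φ x = z := by
  have hne : Nonempty Ω := by
    rw [← mk_ne_zero_iff, D.mk_Ω]
    exact D.κ_inacc.ne_zero
  obtain ⟨a₀⟩ := hne
  exact regressive (fun _ : Z => a₀) (fun a => (mk_subtype_le _).trans_lt hZ) φ (D.unb a₀)

/-- Normality for collapses: if `c x` is a condition of `Col(θ, κ_x)` for almost all `x`, it is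
constant on a large set. -/
lemma col_const {θ : Cardinal.{0}} (hθ : θ < D.κ) (c : X → PF Ω)
    (h : ∀ᶠ x in (D.U : Filter X), IsCol θ (c x) ∧ BelowC (c x) (D.kx x)) :
    ∃ c₀, ∀ᶠ x in (D.U : Filter X), c x = c₀ := by
  classical
  -- a point `a₁` with `θ < crd a₁`
  obtain ⟨a₁, ha₁W, ha₁⟩ : ∃ a₁ ∈ D.W, θ < crd a₁ := by
    by_contra hcon
    push Not at hcon
    -- all ordinals have cardinality `≤ θ`
    have h1 : ∀ a : Ω, crd a < succ θ := by
      intro a
      obtain ⟨m, hm, ham⟩ := exists_mem_W (D := D) a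
      exact lt_succ_iff.2 ((mk_le_mk_of_subset (Iio_subset_Iio ham.le)).trans (hcon m hm))
    have h2 : #Ω ≤ succ θ := by
      have h3 : {a : Ω | crd a < succ θ} = Set.univ := by
        exact Set.eq_univ_of_forall h1
      have h4 := mk_crd_lt (Ω := Ω) (succ θ)
      rwa [h3, mk_univ] at h4
    rw [D.mk_Ω] at h2
    exact absurd h2 (not_le.2 (D.κ_inacc.isSuccLimit.succ_lt hθ))
  have hne : Nonempty Ω := ⟨a₁⟩
  let Z : Type := {c : PF Ω // IsCol θ c ∧ ∃ b, BelowC c b}
  have hwf : WellFounded ((· < ·) : Ω → Ω → Prop) := wellFounded_lt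
  let rk : Z → Ω := fun z => hwf.min {b | BelowC z.1 b} z.2.2
  have hrkmem : ∀ z : Z, BelowC z.1 (rk z) := fun z => hwf.min_mem {b | BelowC z.1 b} z.2.2
  have hrkle : ∀ (z : Z) (b : Ω), BelowC z.1 b → rk z ≤ b := by
    intro z b hb
    exact not_lt.1 (hwf.not_lt_min {b | BelowC z.1 b} hb)
  have hrk : ∀ a : Ω, #{z | rk z < a} < D.κ := by
    intro a
    obtain ⟨m, hm, ham⟩ := exists_mem_W (D := D) (max a a₁)
    have hθm : θ < crd m := ha₁.trans (crd_lt_crd hm ((le_max_right _ _).trans_lt ham))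
    refine lt_of_le_of_lt ?_ (D.crd_lt m)
    refine le_trans ?_ (mk_col_le hm hθm)
    refine mk_le_of_injective (f := fun z => ⟨z.1.1, z.1.2.1, ?_⟩) ?_
    · intro x y hxy
      exact (hrkmem z.1 x y hxy).trans ((show rk z.1 < a from z.2).trans
        ((le_max_left _ _).trans_lt ham))
    · rintro ⟨⟨z, hz⟩, hz'⟩ ⟨⟨w, hw⟩, hw'⟩ he
      simp only [Subtype.mk.injEq] at he
      subst he
      rfl
  let z₀ : Z := ⟨fun _ => none, ⟨by
      have h1 : pdom (fun _ : Ω => (none : Option Ω)) = ∅ := by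
        ext a
        simp [pdom]
      obtain ⟨x, hx⟩ := h.exists
      exact lt_of_le_of_lt (by rw [h1]; simp) hx.1.1, by intro a b hab; cases hab⟩,
    a₁, by intro a b hab; cases hab⟩
  let φ : X → Z := fun x => if hx : IsCol θ (c x) ∧ ∃ b, BelowC (c x) b then ⟨c x, hx⟩ else z₀
  have hφ : ∀ᶠ x in (D.U : Filter X), rk (φ x) < D.kx x ∧ (φ x).1 = c x := by
    filter_upwards [h, D.kx_W, D.unb a₁] with x hx hxW hxa
    have hx' : IsCol θ (c x) ∧ ∃ b, BelowC (c x) b := ⟨hx.1, _, hx.2⟩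
    have hφx : φ x = ⟨c x, hx'⟩ := dif_pos hx'
    have hθx : θ < crd (D.kx x) := ha₁.trans (crd_lt_crd hxW hxa)
    -- the set of values
    let S : Set Ω := {b | ∃ a, c x a = some b}
    have hS : #S < crd (D.kx x) := by
      refine lt_of_le_of_lt ?_ (hx.1.1.trans hθx)
      have : S ⊆ (fun a => (c x a).getD a₁) '' (pdom (c x)) := by
        rintro b ⟨a, hab⟩
        refine ⟨a, ?_, ?_⟩
        · change c x a ≠ none
          rw [hab]
          simp
        · simp [hab]
      exact (mk_le_mk_of_subset this).trans mk_image_le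
    have hSlt : ∀ b ∈ S, crd b < crd (D.kx x) := by
      rintro b ⟨a, hab⟩
      exact (crd_lt_iff hxW b).2 (hx.2 a b hab)
    obtain ⟨b, hb, hSb⟩ := exists_bound (D.W_inacc _ hxW).isRegular (D.crd_lt _).le hS hSlt
    have hbelow : BelowC (c x) b := fun a b' hab => hSb b' ⟨a, hab⟩
    rw [hφx]
    refine ⟨?_, rfl⟩
    exact (hrkle ⟨c x, hx'⟩ b hbelow).trans_lt ((crd_lt_iff hxW b).1 hb)
  obtain ⟨z, hz⟩ := regressive rk hrk φ (hφ.mono fun x hx => hx.1)
  refine ⟨z.1, ?_⟩
  filter_upwards [hφ, hz] with x hx hxz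
  rw [← hxz, hx.2]

end Pool.PC
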