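import Pool.Agent.Lib.MP_ad72f3_pc.CardAux
import Pool.Agent.Lib.MP_ad72f3_pc.Rec

/-!
# Task L: closure of the direct order
-/

set_option autoImplicit false
set_option linter.unusedSectionVars false

open Cardinal Set Order

namespace Pool.PC

variable {Ω : Type} [LinearOrder Ω] [WellFoundedLT Ω] {X : Type} [D : PD Ω X]

/-- The union of an increasing sequence of partial functions. -/
lemma L1_union {ι : Type} [LinearOrder ι] (g : ι → PF Ω) (hg : ∀ i j, i < j → Sub (g i) (g j)) :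
    ∃ c : PF Ω, (∀ i, Sub (g i) c) ∧ ∀ a b, c a = some b → ∃ i, g i a = some b := by
  classical
  have huniq : ∀ i j a b b', g i a = some b → g j a = some b' → b = b' := by
    intro i j a b b' h h'
    rcases lt_trichotomy i j with hlt | rfl | hgt
    · have h3 := hg _ _ hlt a b h
      rw [h'] at h3
      exact (Option.some.inj h3).symm
    · rw [h'] at h
      exact (Option.some.inj h).symm
    · have h3 := hg _ _ hgt a _ h'
      rw [h] at h3
      exact Option.some.inj h3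
  refine ⟨fun a => if h : ∃ b i, g i a = some b then some h.choose else none, ?_, ?_⟩
  · intro i a b hab
    have h : ∃ b i, g i a = some b := ⟨b, i, hab⟩
    obtain ⟨j, hj⟩ := h.choose_spec
    have h2 : h.choose = b := huniq j i a _ _ hj hab
    change (if h : ∃ b i, g i a = some b then some h.choose else none) = some b
    rw [dif_pos h, h2]
  · intro a b hab
    change (if h : ∃ b i, g i a = some b then some h.choose else none) = some b at hab
    split_ifs at hab with h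
    obtain ⟨j, hj⟩ := h.choose_spec
    exact ⟨j, by rw [← hab]; exact hj⟩

/-- The union of at most `θ` many conditions of `Col(θ^+, <κ)` is a condition. -/
lemma L1_col {ι : Type} {θ : Cardinal.{0}} (hθ : ℵ₀ ≤ θ) (hι : #ι ≤ θ) (g : ι → PF Ω) (c : PF Ω)
    (hg : ∀ i, IsCol (succ θ) (g i)) (h : ∀ a b, c a = some b → ∃ i, g i a = some b) :
    IsCol (succ θ) c := by
  refine ⟨?_, fun a b hab => ?_⟩
  · rw [lt_succ_iff]
    refine le_trans (mk_le_mk_of_subset ?_)
      (mk_iUnion_le hθ hι (fun i => pdom (g i)) fun i => lt_succ_iff.1 (hg i).1)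
    intro a ha
    obtain ⟨b, hb⟩ := Option.ne_none_iff_exists'.1 ha
    obtain ⟨i, hi⟩ := h a b hb
    refine mem_iUnion.2 ⟨i, ?_⟩
    change g i a ≠ none
    rw [hi]
    exact Option.some_ne_none _
  · obtain ⟨i, hi⟩ := h a b hab
    exact (hg i).2 a b hi

/-- Upper parts are closed under decreasing sequences of length `m^{+3}`. -/
theorem Up.closure {m : Ω} (hm : m ∈ D.W) (ι : Type) [LinearOrder ι] [WellFoundedLT ι]
    [Nonempty ι] (hι : #ι ≤ sc 3 (crd m)) (s : ι → Up Ω X) (hV : ∀ i, (s i).V m)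
    (hs : ∀ i j, i < j → (s j).Le m (s i)) : ∃ u : Up Ω X, u.V m ∧ ∀ i, u.Le m (s i) := by
  classical
  have hinf : ∀ (m' : Ω), m' ∈ D.W → ∀ k, ℵ₀ ≤ sc k (crd m') := fun m' hm' k =>
    (aleph0_lt_crd hm').le.trans (sc_le (Nat.zero_le k) (crd m'))
  -- the collapse
  obtain ⟨c, hc1, hc2⟩ := L1_union (fun i => (s i).c) fun i j hij => (hs i j hij).c
  -- the promises
  have hF : ∀ m', ∃ d : PF Ω, (m < m' → m' ∈ D.W → ∀ i, Sub ((s i).F m') d) ∧
      (m' ∈ D.W → IsCol (sc 4 (crd m')) d) := by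
    intro m'
    by_cases h1 : m < m' ∧ m' ∈ D.W
    · obtain ⟨d, hd1, hd2⟩ := L1_union (fun i => (s i).F m')
        fun i j hij => (hs i j hij).F m' h1.2 h1.1
      refine ⟨d, fun _ _ => hd1, fun _ => ?_⟩
      refine L1_col (hinf m' h1.2 3) (hι.trans (sc_mono_right (crd_mono h1.1.le)))
        (fun i => (s i).F m') d (fun i => (hV i).hF m' h1.2) hd2
    · obtain ⟨i⟩ := ‹Nonempty ι›
      exact ⟨(s i).F m', fun h2 h3 => absurd ⟨h2, h3⟩ h1, fun h3 => (hV i).hF m' h3⟩
  choose F hF1 hF2 using hF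
  -- the Cohen part
  have hf0 : ∀ i j, i ≤ j → ∀ α ρ σ, (s i).f α = some (ρ, σ) → ∃ ρ', (s j).f α = some (ρ', σ) ∧
      max ρ' m = max ρ m := by
    intro i j hij α ρ σ h
    rcases hij.lt_or_eq with hlt | rfl
    · exact (hs i j hlt).f α ρ σ h
    · exact ⟨ρ, h, rfl⟩
  have huniq : ∀ i j α ρ σ ρ' σ', (s i).f α = some (ρ, σ) → (s j).f α = some (ρ', σ') →
      σ' = σ ∧ max ρ' m = max ρ m := by
    intro i j α ρ σ ρ' σ' h h'
    rcases le_total i j with hij | hij
    · obtain ⟨ρ'', h1, h2⟩ := hf0 i j hij α ρ σ h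
      rw [h'] at h1
      simp only [Option.some.injEq, Prod.mk.injEq] at h1
      exact ⟨h1.2, by rw [h1.1, h2]⟩
    · obtain ⟨ρ'', h1, h2⟩ := hf0 j i hij α ρ' σ' h'
      rw [h] at h1
      simp only [Option.some.injEq, Prod.mk.injEq] at h1
      exact ⟨h1.2.symm, by rw [h1.1, h2]⟩
  have hf : ∀ α, ∃ v : Option (Ω × (ℕ → Option Ω)),
      (∀ i ρ σ, (s i).f α = some (ρ, σ) → v = some (max ρ m, σ)) ∧
      (∀ ρ σ, v = some (ρ, σ) → ∃ i ρ', (s i).f α = some (ρ', σ) ∧ ρ = max ρ' m) := by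
    intro α
    by_cases h : ∃ i ρ σ, (s i).f α = some (ρ, σ)
    · obtain ⟨i, ρ, σ, h1⟩ := h
      refine ⟨some (max ρ m, σ), fun j ρ' σ' h2 => ?_, fun ρ' σ' h2 => ?_⟩
      · obtain ⟨h3, h4⟩ := huniq i j α ρ σ ρ' σ' h1 h2
        rw [h3, h4]
      · simp only [Option.some.injEq, Prod.mk.injEq] at h2
        exact ⟨i, ρ, by rw [h1, h2.2], h2.1.symm⟩
    · exact ⟨none, fun i ρ σ h1 => absurd ⟨i, ρ, σ, h1⟩ h, fun ρ σ h1 => absurd h1 (by simp)⟩
  choose f hf1 hf2 using hf
  refine ⟨⟨c, f, {x | ∀ i, m < D.kx x → x ∈ (s i).A}, F⟩, ⟨?_, ?_, ?_, ?_, ?_⟩, fun i =>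
    ⟨hc1 i, ?_, ?_, ?_⟩⟩
  · exact L1_col (hinf m hm 3) hι (fun i => (s i).c) c (fun i => (hV i).hc) hc2
  · intro α ρ σ h
    obtain ⟨i, ρ', h1, -⟩ := hf2 α ρ σ h
    exact (hV i).ff α ρ' σ h1
  · intro m' hm' hlt
    refine le_trans (mk_le_mk_of_subset ?_) (mk_iUnion_le (hinf m' hm' 0)
      (hι.trans (sc_crd_lt hm' hlt 3).le)
      (fun i => {α | ∃ ρ σ, (s i).f α = some (ρ, σ) ∧ ρ < m'}) fun i => (hV i).fs m' hm' hlt)
    rintro α ⟨ρ, σ, h1, h2⟩
    obtain ⟨i, ρ', h3, h4⟩ := hf2 α ρ σ h1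
    refine mem_iUnion.2 ⟨i, ρ', σ, h3, ?_⟩
    rw [h4] at h2
    exact (le_max_left _ _).trans_lt h2
  · have h1 : ∀ᶠ x in (D.U : Filter X), ∀ i, x ∈ (s i).A :=
      complete (hι.trans_lt (sc_crd_lt_κ m 3)) (fun i => (s i).A) fun i => (hV i).hA
    exact Filter.mem_of_superset h1 fun x hx i _ => hx i
  · exact fun m' hm' => hF2 m' hm'
  · intro α ρ σ h
    exact ⟨max ρ m, hf1 α i ρ σ h, by rw [max_assoc, max_self]⟩
  · intro x hx hlt
    exact hx i hlt
  · exact fun m' hm' hlt => hF1 m' hlt hm' i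

/-- Meeting `m^{+3}` many open dense sets. -/
theorem Up.meet {m : Ω} (hm : m ∈ D.W) {ι : Type} (hι : #ι ≤ sc 3 (crd m))
    (S : ι → Set (Up Ω X))
    (hopen : ∀ i (v v' : Up Ω X), v.V m → v'.V m → v'.Le m v → v ∈ S i → v' ∈ S i)
    (hdense : ∀ i (v : Up Ω X), v.V m → ∃ v' : Up Ω X, v'.V m ∧ v'.Le m v ∧ v' ∈ S i)
    (u : Up Ω X) (hu : u.V m) : ∃ u' : Up Ω X, u'.V m ∧ u'.Le m u ∧ ∀ i, u' ∈ S i :=
  meet_all (Up.Le m) (fun v => v.V m) (Up.Le.refl m) (fun _ _ _ h h' => h.trans h') (sc 3 (crd m))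
    (fun κ _ _ _ hκ s hV hs => Up.closure hm κ hκ s hV hs) hι S hopen hdense u hu

/-- `p'` is a direct extension of `p` which agrees with `p` on the last `k` collapses of the list
(that is, on the first `k` collapses in the order of time). -/
def Cond.DleK (k : ℕ) (p' p : Cond Ω X) : Prop := p'.Dle p ∧ p'.r.rtake k = p.r.rtake k

namespace L2

open Classical in
/-- The union of a family of partial functions. -/
noncomputable def uni {ι : Type} (c : ι → PF Ω) : PF Ω := fun a =>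
  if h : ∃ i, c i a ≠ none then c h.choose a else none

omit [WellFoundedLT Ω] in
lemma uni_val {ι : Type} {c : ι → PF Ω} {a b : Ω} (h : uni c a = some b) :
    ∃ i, c i a = some b := by
  unfold uni at h
  split at h
  · exact ⟨_, h⟩
  · exact absurd h (by simp)

omit [WellFoundedLT Ω] in
lemma sub_uni {ι : Type} [LinearOrder ι] {c : ι → PF Ω} (hc : ∀ i j, i < j → Sub (c i) (c j))
    (i : ι) : Sub (c i) (uni c) := by
  intro a b hab
  have h : ∃ i, c i a ≠ none := ⟨i, by rw [hab]; simp⟩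
  unfold uni
  rw [dif_pos h]
  have hj := h.choose_spec
  obtain ⟨b', hb'⟩ := Option.ne_none_iff_exists'.1 hj
  rcases lt_trichotomy i h.choose with h1 | h1 | h1
  · exact hc _ _ h1 a b hab
  · rw [← h1]
    exact hab
  · have := hc _ _ h1 a b' hb'
    rw [hab] at this
    rw [hb', this]

lemma isCol_uni {ι : Type} {c : ι → PF Ω} {m : Ω} (hm : m ∈ D.W)
    (hι : #ι ≤ sc 3 (crd m)) (h : ∀ i, IsCol (sc 4 (crd m)) (c i)) :
    IsCol (sc 4 (crd m)) (uni c) := by
  refine ⟨?_, fun a b hab => ?_⟩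
  · have h1 : pdom (uni c) ⊆ ⋃ i, pdom (c i) := by
      intro a ha
      obtain ⟨b, hb⟩ := Option.ne_none_iff_exists'.1 ha
      obtain ⟨i, hi⟩ := uni_val hb
      rw [mem_iUnion]
      exact ⟨i, by change c i a ≠ none; rw [hi]; simp⟩
    have h2 : #(⋃ i, pdom (c i)) ≤ sc 3 (crd m) := by
      refine mk_iUnion_le ?_ hι _ fun i => ?_
      · exact (aleph0_lt_crd hm).le.trans (sc_le (i := 0) (j := 3) (by norm_num) (crd m))
      · exact lt_succ_iff.1 (h i).1
    exact lt_succ_iff.2 ((mk_le_mk_of_subset h1).trans h2)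
  · obtain ⟨i, hi⟩ := uni_val hab
    exact (h i).2 a b hi

omit [WellFoundedLT Ω] in
lemma below_uni {ι : Type} {c : ι → PF Ω} {m : Ω} (h : ∀ i, BelowC (c i) m) :
    BelowC (uni c) m := fun a b hab => by
  obtain ⟨i, hi⟩ := uni_val hab
  exact h i a b hi

lemma low_length : ∀ {t : List Ω} {r : List (PF Ω)}, LowV X t r → r.length = t.length
  | [], [], _ => rfl
  | m :: t, c :: r, h => by
    rw [List.length_cons, List.length_cons, low_length h.2.2.2.2]
  | [], _ :: _, h => absurd h (by simp [LowV])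
  | _ :: _, [], h => absurd h (by simp [LowV])

/-- The head of a stem. -/
lemma low_head {m : Ω} {t₀ : List Ω} : ∀ {t₁ : List Ω} {r : List (PF Ω)},
    LowV X (t₁ ++ m :: t₀) r → ∃ m' t', t₁ ++ m :: t₀ = m' :: t' ∧ m ≤ m' ∧ m' ∈ D.W
  | [], _, h => ⟨m, t₀, rfl, le_rfl, h.mem_W⟩
  | a :: t₁, [], h => absurd h (by simp [LowV])
  | a :: t₁, c :: r, h => by
    obtain ⟨m', t', e, h1, h2⟩ := low_head h.2.2.2.2
    refine ⟨a, t₁ ++ m :: t₀, rfl, ?_, h.1⟩
    have h3 : m' < a := h.2.1 m' (by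
      change m' ∈ (t₁ ++ m :: t₀).head?
      rw [e]
      rfl)
    exact h1.trans h3.le

/-- The lower part. -/
lemma low_closure {m : Ω} {t₀ : List Ω} {ι : Type} [LinearOrder ι] [Nonempty ι]
    (hι : #ι ≤ sc 3 (crd m)) : ∀ {t₁ : List Ω} (r : ι → List (PF Ω)),
    (∀ i, LowV X (t₁ ++ m :: t₀) (r i)) → (∀ i j, i < j → List.Forall₂ Sub (r i) (r j)) →
    (∀ i j, i < j → (r j).rtake (t₀.length + 1) = (r i).rtake (t₀.length + 1)) →
    ∃ R, LowV X (t₁ ++ m :: t₀) R ∧ (∀ i, List.Forall₂ Sub (r i) R) ∧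
      ∀ i, R.rtake (t₀.length + 1) = (r i).rtake (t₀.length + 1)
  | [], r, h1, h2, h3 => by
    have hr : ∀ i, (r i).rtake (t₀.length + 1) = r i := by
      intro i
      have := low_length (h1 i)
      rw [List.nil_append, List.length_cons] at this
      unfold List.rtake
      rw [this, Nat.sub_self, List.drop_zero]
    have heq : ∀ i j, r i = r j := by
      intro i j
      rcases lt_trichotomy i j with h | h | h
      · rw [← hr i, ← hr j, h3 i j h]
      · rw [h]
      · rw [← hr i, ← hr j, h3 j i h]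
    obtain ⟨i₀⟩ := (inferInstance : Nonempty ι)
    refine ⟨r i₀, h1 i₀, fun i => ?_, fun i => by rw [heq i₀ i]⟩
    rw [heq i i₀]
    exact List.forall₂_same.2 fun c _ => Sub.refl c
  | a :: t₁, r, h1, h2, h3 => by
    have hne : ∀ i, ∃ c r', r i = c :: r' := by
      intro i
      have := low_length (h1 i)
      cases hri : r i with
      | nil =>
        rw [hri] at this
        simp at this
      | cons c r' => exact ⟨c, r', rfl⟩
    choose c r' hr using hne
    have h1' : ∀ i, a ∈ D.W ∧ (∀ b ∈ (t₁ ++ m :: t₀).head?, b < a) ∧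
        IsCol (th (t₁ ++ m :: t₀)) (c i) ∧ BelowC (c i) a ∧ LowV X (t₁ ++ m :: t₀) (r' i) := by
      intro i
      have := h1 i
      rw [hr i] at this
      exact this
    have h2' : ∀ i j, i < j → Sub (c i) (c j) ∧ List.Forall₂ Sub (r' i) (r' j) := by
      intro i j hij
      have := h2 i j hij
      rw [hr i, hr j, List.forall₂_cons] at this
      exact this
    have hlen : ∀ i, (r' i).length = t₁.length + (t₀.length + 1) := by
      intro i
      rw [low_length (h1' i).2.2.2.2, List.length_append, List.length_cons]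
    have htake : ∀ (x : PF Ω) (l : List (PF Ω)), l.length = t₁.length + (t₀.length + 1) →
        (x :: l).rtake (t₀.length + 1) = l.rtake (t₀.length + 1) := by
      intro x l hl
      unfold List.rtake
      rw [List.length_cons, hl]
      have e1 : t₁.length + (t₀.length + 1) + 1 - (t₀.length + 1) = t₁.length + 1 := by omega
      have e2 : t₁.length + (t₀.length + 1) - (t₀.length + 1) = t₁.length := by omega
      rw [e1, e2, List.drop_succ_cons]
    have h3' : ∀ i j, i < j → (r' j).rtake (t₀.length + 1) = (r' i).rtake (t₀.length + 1) := by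
      intro i j hij
      have := h3 i j hij
      rwa [hr i, hr j, htake _ _ (hlen i), htake _ _ (hlen j)] at this
    obtain ⟨R, hR1, hR2, hR3⟩ := low_closure hι r' (fun i => (h1' i).2.2.2.2)
      (fun i j hij => (h2' i j hij).2) h3'
    obtain ⟨i₀⟩ := (inferInstance : Nonempty ι)
    obtain ⟨m', t', e, hm1, hm2⟩ := low_head hR1
    have hRlen : R.length = t₁.length + (t₀.length + 1) := by
      rw [low_length hR1, List.length_append, List.length_cons]
    refine ⟨uni c :: R, ⟨(h1' i₀).1, (h1' i₀).2.1, ?_, below_uni fun i => (h1' i).2.2.2.1, hR1⟩,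
      fun i => ?_, fun i => ?_⟩
    · change IsCol (th (t₁ ++ m :: t₀)) (uni c)
      rw [e]
      refine isCol_uni hm2 (hι.trans (sc_mono_right (crd_mono hm1))) fun i => ?_
      have := (h1' i).2.2.1
      rw [e] at this
      exact this
    · rw [hr i, List.forall₂_cons]
      exact ⟨sub_uni (fun i j hij => (h2' i j hij).1) i, hR2 i⟩
    · rw [hr i, htake _ _ (hlen i), htake _ _ hRlen]
      exact hR3 i

lemma DleK_refl (k : ℕ) (p : Cond Ω X) : p.DleK k p := ⟨Cond.Dle.refl p, rfl⟩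

lemma DleK_trans {k : ℕ} {p p' p'' : Cond Ω X} (h : p''.DleK k p') (h' : p'.DleK k p) :
    p''.DleK k p := ⟨h.1.trans h'.1, h.2.trans h'.2⟩

lemma DleK_t {k : ℕ} {p p' : Cond Ω X} (h : p'.DleK k p) : p'.t = p.t := by
  unfold Cond.t
  rw [h.1.m, h.1.s]

end L2

/-- Conditions with a fixed stem `t₁ ++ m :: t₀` and a fixed lower part below `m` are closed under
decreasing sequences of length `m^{+3}`. -/
theorem Cond.closure {m : Ω} {t₁ t₀ : List Ω} (ι : Type) [LinearOrder ι] [WellFoundedLT ι]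
    [Nonempty ι] (hι : #ι ≤ sc 3 (crd m)) (s : ι → Cond Ω X)
    (ht : ∀ i, (s i).t = t₁ ++ m :: t₀)
    (hs : ∀ i j, i < j → (s j).DleK (t₀.length + 1) (s i)) :
    ∃ q : Cond Ω X, ∀ i, q.DleK (t₀.length + 1) (s i) := by
  obtain ⟨i₀⟩ := (inferInstance : Nonempty ι)
  have hlow : ∀ i, LowV X (t₁ ++ m :: t₀) (s i).r := by
    intro i
    rw [← ht i]
    exact (s i).low
  obtain ⟨R, hR1, hR2, hR3⟩ := L2.low_closure hι (fun i => (s i).r) hlow
    (fun i j hij => (hs i j hij).1.r) (fun i j hij => (hs i j hij).2)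
  have ht' : ∀ i, (s i).m :: (s i).s = (s i₀).m :: (s i₀).s := fun i => (ht i).trans (ht i₀).symm
  have hm : ∀ i, (s i).m = (s i₀).m := fun i => (List.cons.inj (ht' i)).1
  have hs' : ∀ i, (s i).s = (s i₀).s := fun i => (List.cons.inj (ht' i)).2
  obtain ⟨m', t', e, hm1, hm2⟩ := L2.low_head (hlow i₀)
  have hM : m' = (s i₀).m := by
    have := (ht i₀).trans e
    exact (List.cons.inj this).1.symm
  subst hM
  obtain ⟨u, hu1, hu2⟩ := Up.closure (X := X) hm2 ι
    (hι.trans (sc_mono_right (crd_mono hm1))) (fun i => (s i).u)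
    (fun i => by rw [← hm i]; exact (s i).up)
    (fun i j hij => by rw [← hm i]; exact (hs i j hij).1.u)
  refine ⟨⟨(s i₀).m, (s i₀).s, R, u, ?_, hu1⟩, fun i => ⟨⟨(hm i).symm, (hs' i).symm, hR2 i, ?_⟩,
    hR3 i⟩⟩
  · have : (s i₀).m :: (s i₀).s = t₁ ++ m :: t₀ := ht i₀
    rw [this]
    exact hR1
  · rw [hm i]
    exact hu2 i

/-- Meeting `m^{+3}` many sets which are open and dense for `DleK`. -/
theorem Cond.meet {m : Ω} {t₁ t₀ : List Ω} {ι : Type} (hι : #ι ≤ sc 3 (crd m))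
    (S : ι → Set (Cond Ω X)) (p : Cond Ω X) (hp : p.t = t₁ ++ m :: t₀)
    (hopen : ∀ i (q q' : Cond Ω X), q'.DleK (t₀.length + 1) q → q ∈ S i → q' ∈ S i)
    (hdense : ∀ i (q : Cond Ω X), q.DleK (t₀.length + 1) p →
      ∃ q' : Cond Ω X, q'.DleK (t₀.length + 1) q ∧ q' ∈ S i) :
    ∃ q : Cond Ω X, q.DleK (t₀.length + 1) p ∧ ∀ i, q ∈ S i := by
  obtain ⟨q, hq, -, h⟩ := meet_all (fun q' q : Cond Ω X => q'.DleK (t₀.length + 1) q)
    (fun q => q.DleK (t₀.length + 1) p) (fun q => L2.DleK_refl _ q)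
    (fun a b c h h' => L2.DleK_trans h h') (sc 3 (crd m))
    (by
      intro κ _ _ _ hκ s hV hs
      obtain ⟨q, hq⟩ := Cond.closure (t₁ := t₁) κ hκ s
        (fun i => (L2.DleK_t (hV i)).trans hp) hs
      obtain ⟨i₀⟩ := (inferInstance : Nonempty κ)
      exact ⟨q, L2.DleK_trans (hq i₀) (hV i₀), hq⟩)
    hι S (fun i v v' _ _ h1 h2 => hopen i v v' h1 h2)
    (fun i v hv => by
      obtain ⟨q', h1, h2⟩ := hdense i v hv
      exact ⟨q', L2.DleK_trans h1 hv, h1, h2⟩) p (L2.DleK_refl _ p)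
  exact ⟨q, hq, h⟩

end Pool.PC
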