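import Pool.Agent.Lib.MP_ad72f3_pc.Dom

/-!
# The two cofinal families (V-side)
-/

set_option autoImplicit false
set_option linter.unusedSectionVars false

open Cardinal Set Order

namespace Pool.PC

variable {Ω : Type} [LinearOrder Ω] [WellFoundedLT Ω] {X : Type} [D : PD Ω X]

lemma PD.nonempty (Ω : Type) [LinearOrder Ω] [WellFoundedLT Ω] (X : Type) [D : PD Ω X] :
    (univ : Set Ω).Nonempty := by
  have h1 : #Ω ≠ 0 := by
    rw [D.mk_Ω]
    exact (aleph0_pos.trans D.κ_inacc.aleph0_lt).ne'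
  obtain ⟨a⟩ := mk_ne_zero_iff.1 h1
  exact ⟨a, mem_univ a⟩

/-- The ordinal `0`. -/
noncomputable def zz (Ω : Type) [LinearOrder Ω] [WellFoundedLT Ω] (X : Type) [D : PD Ω X] : Ω :=
  wellFounded_lt.min univ (PD.nonempty Ω X)

lemma crd_zz : crd (zz Ω X) = 0 := by
  have h1 : IsEmpty (Iio (zz Ω X)) :=
    ⟨fun a => wellFounded_lt.not_lt_min univ (mem_univ a.1) a.2⟩
  exact mk_eq_zero _

/-- The cardinal `ℵ_j` as decided by `q`. -/
noncomputable def alc (q : Cond Ω X) (j : ℕ) : Cardinal.{0} :=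
  if j = 0 then ℵ₀ else sc ((j - 1) % 4 + 1) (crd (q.pt ((j - 1) / 4)))

/-- `q` decides `ℵ_j`. -/
def known (q : Cond Ω X) (j : ℕ) : Prop := j = 0 ∨ (j - 1) / 4 < q.len

open Classical in
/-- Cut off at `ℵ_j`. -/
noncomputable def cap (q : Cond Ω X) (j : ℕ) (w : Ω) : Ω :=
  if crd w < alc q j then w else zz Ω X

/-- The family for the residues `0, 1`: `F₁(κ_k)` at `4k+1`, `F₄(κ_k)` at `4k+4`, and finitely
many prescribed values. -/
noncomputable def val0 (z : (Ω → Ω) × (Ω → Ω) × List Ω) (q : Cond Ω X) (j : ℕ) : Ω :=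
  cap q j ((z.2.2[j]?).getD
    (if j % 4 = 1 then z.1 (q.pt ((j - 1) / 4)) else z.2.1 (q.pt ((j - 1) / 4))))

/-- `q` decides that the `j`-th value of the element with index `z` is `v`. -/
def TR0 (z : (Ω → Ω) × (Ω → Ω) × List Ω) (q : Cond Ω X) (j : ℕ) (v : Ω) : Prop :=
  known q j ∧ v = val0 z q j

/-- The family for the residues `2, 3`: the generic functions of the two coordinates, and finitely
many prescribed values. -/
def TR1 (z : Crd Ω X × Crd Ω X × List Ω) (q : Cond Ω X) (j : ℕ) (v : Ω) : Prop :=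
  known q j ∧ ((∃ w, z.2.2[j]? = some w ∧ v = cap q j w) ∨ (z.2.2[j]? = none ∧
    ((∃ w, q.Rt (if j % 4 = 2 then z.1 else z.2.1) ((j - 1) / 4) w ∧ v = cap q j w) ∨
      (q.Ru (if j % 4 = 2 then z.1 else z.2.1) ((j - 1) / 4) ∧ v = zz Ω X))))

/-- Names `T z` for elements of the product `∏ ℵ_j`, given by relations
`T z q j v` (`q ⊩ τ_z(j) = v`). -/
structure TT {Z : Type} (T : Z → Cond Ω X → ℕ → Ω → Prop) : Prop where
  mono : ∀ z q q' j v, q' ≤ q → T z q j v → T z q' j v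
  uniq : ∀ z q j v v', T z q j v → T z q j v' → v = v'
  dense : ∀ z p j, ∃ q ≤ p, ∃ v, T z q j v
  lt : ∀ z q j v, T z q j v → known q j ∧ crd v < alc q j

/-- A name for a partial element of the product `∏ ℵ_j`, seen below `p`. -/
structure EN (p : Cond Ω X) (R : Cond Ω X → ℕ → Ω → Prop) : Prop where
  mono : ∀ q q' j v, q' ≤ q → R q j v → R q' j v
  uniq : ∀ q ≤ p, ∀ j v v', R q j v → R q j v' → v = v'
  bd : ∀ q ≤ p, ∀ j v, known q j → R q j v → crd v < alc q j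

namespace M1

lemma len_pos (q : Cond Ω X) : 0 < q.len := Nat.succ_pos _

lemma pt_eq {q q' : Cond Ω X} {j : ℕ} (h : q' ≤ q) (hk : known q j) :
    q'.pt ((j - 1) / 4) = q.pt ((j - 1) / 4) := by
  refine Cond.pt_of_le h ?_
  rcases hk with rfl | hk
  · simpa using len_pos q
  · exact hk

end M1

/-- Task M1. -/
lemma known.mono {q q' : Cond Ω X} {j : ℕ} (h : q' ≤ q) (hk : known q j) : known q' j ∧
    alc q' j = alc q j := by
  constructor
  · rcases hk with h0 | hk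
    · exact Or.inl h0
    · exact Or.inr (hk.trans_le (Cond.len_le h))
  · unfold alc
    rw [M1.pt_eq h hk]

lemma dense_known (p : Cond Ω X) (j : ℕ) : ∃ q ≤ p, known q j := by
  obtain ⟨q, hq, h1, -⟩ := Cond.exists_len p ((j - 1) / 4 + 1) p.m
  exact ⟨q, hq, Or.inr h1⟩

namespace M1

lemma cap_eq {q q' : Cond Ω X} {j : ℕ} (h : q' ≤ q) (hk : known q j) (w : Ω) :
    cap q' j w = cap q j w := by
  unfold cap
  rw [(hk.mono h).2]

lemma alc_pos (q : Cond Ω X) (j : ℕ) : 0 < alc q j := by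
  unfold alc
  split_ifs
  · exact aleph0_pos
  · change 0 < succ (sc ((j - 1) % 4) (crd (q.pt ((j - 1) / 4))))
    exact (bot_le).trans_lt (lt_succ _)

lemma crd_zz_lt (q : Cond Ω X) (j : ℕ) : crd (zz Ω X) < alc q j := by
  rw [crd_zz]
  exact alc_pos q j

lemma cap_lt (q : Cond Ω X) (j : ℕ) (w : Ω) : crd (cap q j w) < alc q j := by
  unfold cap
  split_ifs with h
  · exact h
  · exact crd_zz_lt q j

end M1

theorem TR0.tt : TT (TR0 (Ω := Ω) (X := X)) where
  mono := by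
    rintro z q q' j v h ⟨hk, rfl⟩
    refine ⟨(hk.mono h).1, ?_⟩
    unfold val0
    rw [M1.cap_eq h hk, M1.pt_eq h hk]
  uniq := by
    rintro z q j v v' ⟨-, rfl⟩ ⟨-, rfl⟩
    rfl
  dense := by
    intro z p j
    obtain ⟨q, hq, hk⟩ := dense_known p j
    exact ⟨q, hq, _, hk, rfl⟩
  lt := by
    rintro z q j v ⟨hk, rfl⟩
    exact ⟨hk, M1.cap_lt _ _ _⟩

theorem TR1.tt : TT (TR1 (Ω := Ω) (X := X)) where
  mono := by
    rintro z q q' j v h ⟨hk, hv⟩
    refine ⟨(hk.mono h).1, ?_⟩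
    rcases hv with ⟨w, h1, h2⟩ | ⟨h0, ⟨w, h1, h2⟩ | ⟨h1, h2⟩⟩
    · exact Or.inl ⟨w, h1, by rw [M1.cap_eq h hk]; exact h2⟩
    · exact Or.inr ⟨h0, Or.inl ⟨w, h1.mono h, by rw [M1.cap_eq h hk]; exact h2⟩⟩
    · exact Or.inr ⟨h0, Or.inr ⟨h1.mono h, h2⟩⟩
  uniq := by
    rintro z q j v v' ⟨-, hv⟩ ⟨-, hv'⟩
    rcases hv with ⟨w, h1, h2⟩ | ⟨h0, hv⟩
    · rcases hv' with ⟨w', h1', h2'⟩ | ⟨h0', -⟩
      · rw [h1] at h1'
        rw [h2, h2', Option.some.inj h1']
      · rw [h1] at h0'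
        exact absurd h0' (by simp)
    · rcases hv' with ⟨w', h1', h2'⟩ | ⟨-, hv'⟩
      · rw [h1'] at h0
        exact absurd h0 (by simp)
      · rcases hv with ⟨w, h1, h2⟩ | ⟨h1, h2⟩
        · rcases hv' with ⟨w', h1', h2'⟩ | ⟨h1', h2'⟩
          · rw [h2, h2', h1.uniq h1']
          · exact absurd h1' h1.not_Ru
        · rcases hv' with ⟨w', h1', h2'⟩ | ⟨h1', h2'⟩
          · exact absurd h1 h1'.not_Ru
          · rw [h2, h2']
  dense := by
    intro z p j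
    obtain ⟨q, hq, hk⟩ := dense_known p j
    rcases h0 : z.2.2[j]? with _ | w
    · obtain ⟨r, hr, hv⟩ := Cond.dense_Rt q (if j % 4 = 2 then z.1 else z.2.1) ((j - 1) / 4)
      rcases hv with ⟨w, hw⟩ | hu
      · exact ⟨r, hr.trans hq, cap r j w, (hk.mono hr).1, Or.inr ⟨h0, Or.inl ⟨w, hw, rfl⟩⟩⟩
      · exact ⟨r, hr.trans hq, zz Ω X, (hk.mono hr).1, Or.inr ⟨h0, Or.inr ⟨hu, rfl⟩⟩⟩
    · exact ⟨q, hq, cap q j w, hk, Or.inl ⟨w, h0, rfl⟩⟩
  lt := by
    rintro z q j v ⟨hk, hv⟩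
    refine ⟨hk, ?_⟩
    rcases hv with ⟨w, -, rfl⟩ | ⟨-, ⟨w, -, rfl⟩ | ⟨-, rfl⟩⟩
    · exact M1.cap_lt _ _ _
    · exact M1.cap_lt _ _ _
    · exact M1.crd_zz_lt _ _


namespace M2

/-- Every nonempty type of size at most `θ` is coded by the ordinals below `θ`. -/
lemma exists_dec {Z : Type} [hne : Nonempty Z] {θ : Cardinal.{0}} (h : #Z ≤ θ) :
    ∃ dec : Ordinal.{0} → Z, ∀ z, ∃ ξ < θ.ord, dec ξ = z := by
  classical
  have h1 : #Z ≤ #θ.ord.ToType := by rwa [mk_ord_toType]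
  obtain ⟨e⟩ := h1
  obtain ⟨z₀⟩ := hne
  refine ⟨fun ξ => if hξ : ∃ z, (Ordinal.ToType.toOrd (e z)).1 = ξ then hξ.choose else z₀,
    fun z => ?_⟩
  refine ⟨(Ordinal.ToType.toOrd (e z)).1, (Ordinal.ToType.toOrd (e z)).2, ?_⟩
  have h2 : ∃ z', (Ordinal.ToType.toOrd (e z')).1 = (Ordinal.ToType.toOrd (e z)).1 := ⟨z, rfl⟩
  simp only [h2, dif_pos]
  have h3 := h2.choose_spec
  have h4 : Ordinal.ToType.toOrd (e h2.choose) = Ordinal.ToType.toOrd (e z) := Subtype.ext h3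
  exact e.injective (EquivLike.injective _ h4)

lemma mk_fun_le : #(Ω → Ω) ≤ succ D.κ := by
  rw [← power_def, D.mk_Ω, power_self_eq D.κ_inacc.aleph0_lt.le, D.two_κ]

lemma mk_list_le : #(List Ω) ≤ succ D.κ := by
  have h1 : ℵ₀ ≤ #Ω := by
    rw [D.mk_Ω]
    exact D.κ_inacc.aleph0_lt.le
  have h2 : Infinite Ω := infinite_iff.2 h1
  rw [mk_list_eq_mk, D.mk_Ω]
  exact le_succ _

end M2

variable (Ω X) in
/-- Task M2: codes. -/
lemma exists_dec0 : ∃ dec : Ordinal.{0} → (Ω → Ω) × (Ω → Ω) × List Ω,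
    ∀ z, ∃ ξ < (succ D.κ).ord, dec ξ = z := by
  have hinf : ℵ₀ ≤ succ D.κ := D.κ_inacc.aleph0_lt.le.trans (le_succ _)
  have hne : Nonempty ((Ω → Ω) × (Ω → Ω) × List Ω) := ⟨(id, id, [])⟩
  refine M2.exists_dec ?_
  rw [mk_prod, mk_prod]
  simp only [lift_id]
  calc #(Ω → Ω) * (#(Ω → Ω) * #(List Ω)) ≤ succ D.κ * (succ D.κ * succ D.κ) :=
        mul_le_mul' (M2.mk_fun_le (X := X)) (mul_le_mul' (M2.mk_fun_le (X := X)) (M2.mk_list_le (X := X)))
    _ = succ D.κ := by rw [mul_eq_self hinf, mul_eq_self hinf]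

variable (Ω X) in
lemma exists_dec1 : ∃ dec : Ordinal.{0} → Crd Ω X × Crd Ω X × List Ω,
    ∀ z, ∃ ξ < (succ (succ D.κ)).ord, dec ξ = z := by
  have hinf : ℵ₀ ≤ succ (succ D.κ) :=
    (D.κ_inacc.aleph0_lt.le.trans (le_succ _)).trans (le_succ _)
  have hc : Nonempty (Crd Ω X) := ⟨⟨fun _ => zz Ω X, fun x => by
    rw [crd_zz]
    change 0 < succ (sc 2 (crd (D.kx x)))
    exact bot_le.trans_lt (lt_succ _)⟩⟩
  obtain ⟨c⟩ := hc
  have hne : Nonempty (Crd Ω X × Crd Ω X × List Ω) := ⟨(c, c, [])⟩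
  refine M2.exists_dec ?_
  rw [mk_prod, mk_prod]
  simp only [lift_id]
  calc #(Crd Ω X) * (#(Crd Ω X) * #(List Ω)) ≤
        succ (succ D.κ) * (succ (succ D.κ) * succ (succ D.κ)) :=
        mul_le_mul' (mk_Crd_le Ω X) (mul_le_mul' (mk_Crd_le Ω X)
          ((M2.mk_list_le (X := X)).trans (le_succ _)))
    _ = succ (succ D.κ) := by rw [mul_eq_self hinf, mul_eq_self hinf]



/-- The residue classes. -/
def A0 : Set ℕ := {n | n % 4 = 0 ∨ n % 4 = 1}

/-- The residue classes. -/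
def A1 : Set ℕ := {n | n % 4 = 2 ∨ n % 4 = 3}

namespace M4

/-- decide finitely many values -/
lemma decide_list (p : Cond Ω X) {R : Cond Ω X → ℕ → Ω → Prop}
    (hmono : ∀ q q' j v, q' ≤ q → R q j v → R q' j v) (N : ℕ) :
    ∃ q ≤ p, ∃ l : List Ω, l.length = N ∧ ∀ j (hj : j < l.length),
      R q j l[j] ∨ ∀ q' ≤ q, ∀ v, ¬ R q' j v := by
  induction N with
  | zero => exact ⟨p, le_refl p, [], rfl, fun j hj => absurd hj (by simp)⟩
  | succ N ih =>
    obtain ⟨q, hq, l, hl, hd⟩ := ih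
    by_cases h : ∃ q' ≤ q, ∃ v, R q' N v
    · obtain ⟨q', hq', v, hv⟩ := h
      refine ⟨q', hq'.trans hq, l ++ [v], by simp [hl], fun j hj => ?_⟩
      by_cases hj' : j < l.length
      · rw [List.getElem_append_left hj']
        rcases hd j hj' with h1 | h1
        · exact Or.inl (hmono _ _ _ _ hq' h1)
        · exact Or.inr fun q'' hq'' => h1 q'' (hq''.trans hq')
      · have hjN : j = N := by
          simp only [List.length_append, List.length_cons, List.length_nil] at hj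
          omega
        subst hjN
        left
        rw [List.getElem_append_right (by omega)]
        simpa using hv
    · push Not at h
      refine ⟨q, hq, l ++ [zz Ω X], by simp [hl], fun j hj => ?_⟩
      by_cases hj' : j < l.length
      · rw [List.getElem_append_left hj']
        exact hd j hj'
      · have hjN : j = N := by
          simp only [List.length_append, List.length_cons, List.length_nil] at hj
          omega
        subst hjN
        exact Or.inr h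

lemma exists_lt_pt (q : Cond Ω X) {k : ℕ} (hk : k < q.len) : ∃ ξ, ξ < q.pt k := by
  have h1 := aleph0_lt_crd (q.pt_mem_W hk)
  have h2 : crd (q.pt k) ≠ 0 := (aleph0_pos.trans h1).ne'
  obtain ⟨a⟩ := mk_ne_zero_iff.1 h2
  exact ⟨a.1, a.2⟩

end M4

/-- Task M4: the family `TR0` is cofinal. -/
theorem up0 {dec : Ordinal.{0} → (Ω → Ω) × (Ω → Ω) × List Ω}
    (hdec : ∀ z, ∃ ξ < (succ D.κ).ord, dec ξ = z) (p : Cond Ω X)
    (R : Cond Ω X → ℕ → Ω → Prop) (hR : EN p R) :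
    ∃ q ≤ p, ∃ ξ < (succ D.κ).ord, ∀ q' ≤ q, ∀ j ∈ A0, ∀ v w, R q' j v → TR0 (dec ξ) q' j w →
      v ≤ w := by
  have hR4 : FNB 4 p (fun q kx b => R q (4 * kx.1 + 4) b) :=
    { mono := fun q q' a b h1 h2 => hR.mono q q' _ b h1 h2
      uniq := fun q hq a b b' h1 h2 => hR.uniq q hq _ b b' h1 h2
      bd := by
        intro q hq k ξ b hk hb
        have h1 := hR.bd q hq (4 * k + 4) b (Or.inr (by omega)) hb
        unfold alc at h1
        rw [if_neg (by omega), show (4 * k + 4 - 1) % 4 + 1 = 4 by omega,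
          show (4 * k + 4 - 1) / 4 = k by omega] at h1
        exact h1 }
  obtain ⟨q₁, hq₁, F₄, hF₄, hd₄⟩ := dom_four hR4
  have hR1 : FNB 1 q₁ (fun q kx b => R q (4 * kx.1 + 1) b) :=
    { mono := fun q q' a b h1 h2 => hR.mono q q' _ b h1 h2
      uniq := fun q hq a b b' h1 h2 => hR.uniq q (hq.trans hq₁) _ b b' h1 h2
      bd := by
        intro q hq k ξ b hk hb
        have h1 := hR.bd q (hq.trans hq₁) (4 * k + 1) b (Or.inr (by omega)) hb
        unfold alc at h1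
        rw [if_neg (by omega), show (4 * k + 1 - 1) % 4 + 1 = 1 by omega,
          show (4 * k + 1 - 1) / 4 = k by omega] at h1
        exact h1 }
  obtain ⟨q₂, hq₂, F₁, hF₁, hd₁⟩ := dom_one hR1
  obtain ⟨q₃, hq₃, l, hl, hd⟩ := M4.decide_list q₂ hR.mono (4 * q₂.len + 1)
  obtain ⟨ξ, hξ, hz⟩ := hdec (F₁, F₄, l)
  refine ⟨q₃, hq₃.trans (hq₂.trans hq₁), ξ, hξ, ?_⟩
  intro q' hq' j hj v w hv hw
  rw [hz] at hw
  obtain ⟨hk, rfl⟩ := hw
  have hq'p : q' ≤ p := hq'.trans (hq₃.trans (hq₂.trans hq₁))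
  unfold val0 cap
  by_cases hjl : j < l.length
  · have h1 : l[j]? = some l[j] := List.getElem?_eq_getElem hjl
    simp only [h1, Option.getD_some]
    rcases hd j hjl with h2 | h2
    · have h3 := hR.mono _ _ _ _ hq' h2
      rw [if_pos (hR.bd q' hq'p j _ hk h3)]
      exact (hR.uniq q' hq'p j _ _ hv h3).le
    · exact absurd hv (h2 q' hq' v)
  · have h1 : l[j]? = none := List.getElem?_eq_none (by omega)
    simp only [h1, Option.getD_none]
    have hjN : 4 * q₂.len + 1 ≤ j := by omega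
    have hk' : (j - 1) / 4 < q'.len := by
      rcases hk with h2 | h2
      · omega
      · exact h2
    have hlen : q₂.len ≤ (j - 1) / 4 := by omega
    obtain ⟨ζ, hζ⟩ := M4.exists_lt_pt q' (k := (j - 1) / 4 - 1) (by omega)
    have hW := q'.pt_mem_W hk'
    rcases hj with hj | hj
    · have hne : ¬ j % 4 = 1 := by omega
      simp only [if_neg hne]
      have hje : 4 * ((j - 1) / 4) + 4 = j := by omega
      have halc : alc q' j = sc 4 (crd (q'.pt ((j - 1) / 4))) := by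
        unfold alc
        rw [if_neg (by omega), show (j - 1) % 4 + 1 = 4 by omega]
      rw [if_pos (by rw [halc]; exact hF₄ _ hW)]
      exact hd₄ _ ((Cond.len_le hq₂).trans hlen) q' (hq'.trans (hq₃.trans hq₂)) hk' ζ hζ v
        (by simpa only [hje] using hv)
    · simp only [if_pos hj]
      have hje : 4 * ((j - 1) / 4) + 1 = j := by omega
      have halc : alc q' j = sc 1 (crd (q'.pt ((j - 1) / 4))) := by
        unfold alc
        rw [if_neg (by omega), show (j - 1) % 4 + 1 = 1 by omega]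
      rw [if_pos (by rw [halc]; exact hF₁ _ hW)]
      exact hd₁ _ hlen q' (hq'.trans hq₃) hk' ζ hζ v (by simpa only [hje] using hv)

/-! ### Auxiliary lemmas for M5 and M7 -/

lemma M5_known2 {q : Cond Ω X} {k : ℕ} (hk : k < q.len) : known q (4 * k + 2) := by
  right
  have h1 : (4 * k + 2 - 1) / 4 = k := by omega
  rw [h1]
  exact hk

lemma M5_known3 {q : Cond Ω X} {k : ℕ} (hk : k < q.len) : known q (4 * k + 3) := by
  right
  have h1 : (4 * k + 3 - 1) / 4 = k := by omega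
  rw [h1]
  exact hk

lemma M5_alc2 (q : Cond Ω X) (k : ℕ) : alc q (4 * k + 2) = sc 2 (crd (q.pt k)) := by
  unfold alc
  have h1 : (4 * k + 2 - 1) / 4 = k := by omega
  have h2 : (4 * k + 2 - 1) % 4 + 1 = 2 := by omega
  rw [if_neg (by omega), h1, h2]

lemma M5_alc3 (q : Cond Ω X) (k : ℕ) : alc q (4 * k + 3) = sc 3 (crd (q.pt k)) := by
  unfold alc
  have h1 : (4 * k + 3 - 1) / 4 = k := by omega
  have h2 : (4 * k + 3 - 1) % 4 + 1 = 3 := by omega
  rw [if_neg (by omega), h1, h2]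

lemma M5_zz_lt (q : Cond Ω X) {k : ℕ} (hk : k < q.len) : zz Ω X < q.pt k := by
  have hW := Cond.pt_mem_W q hk
  rw [← crd_lt_iff hW, crd_zz]
  exact aleph0_pos.trans (aleph0_lt_crd hW)

lemma M5_cap {q : Cond Ω X} {j : ℕ} {w : Ω} (h : crd w < alc q j) : cap q j w = w := by
  unfold cap
  rw [if_pos h]

lemma M5_len_pos (q : Cond Ω X) : 1 ≤ q.len := by
  change 1 ≤ (q.m :: q.s).length
  simp

/-- Deciding finitely many values. -/
lemma M5_decide {p : Cond Ω X} {R : Cond Ω X → ℕ → Ω → Prop}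
    (hmono : ∀ q q' j v, q' ≤ q → R q j v → R q' j v) (N : ℕ) :
    ∃ q ≤ p, ∀ j < N, (∃ v, R q j v) ∨ ∀ q' ≤ q, ∀ v, ¬ R q' j v := by
  induction N with
  | zero => exact ⟨p, le_rfl, fun j hj => absurd hj (Nat.not_lt_zero j)⟩
  | succ N ih =>
    obtain ⟨q, hq, h⟩ := ih
    by_cases h1 : ∃ r ≤ q, ∃ v, R r N v
    · obtain ⟨r, hr, v, hv⟩ := h1
      refine ⟨r, hr.trans hq, fun j hj => ?_⟩
      rcases Nat.lt_succ_iff_lt_or_eq.1 hj with h2 | rfl
      · rcases h j h2 with ⟨w, hw⟩ | h3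
        · exact Or.inl ⟨w, hmono _ _ _ _ hr hw⟩
        · exact Or.inr fun q' hq' => h3 q' (hq'.trans hr)
      · exact Or.inl ⟨v, hv⟩
    · push Not at h1
      refine ⟨q, hq, fun j hj => ?_⟩
      rcases Nat.lt_succ_iff_lt_or_eq.1 hj with h2 | rfl
      · exact h j h2
      · exact Or.inr h1

/-- Task M5: the family `TR1` is cofinal. -/
theorem up1 {dec : Ordinal.{0} → Crd Ω X × Crd Ω X × List Ω}
    (hdec : ∀ z, ∃ ξ < (succ (succ D.κ)).ord, dec ξ = z) (p : Cond Ω X)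
    (R : Cond Ω X → ℕ → Ω → Prop) (hR : EN p R) :
    ∃ q ≤ p, ∃ ξ < (succ (succ D.κ)).ord, ∀ q' ≤ q, ∀ j ∈ A1, ∀ v w, R q' j v →
      TR1 (dec ξ) q' j w → v ≤ w := by
  classical
  have hF2 : FNB 2 p (fun q (a : ℕ × Ω) b => R q (4 * a.1 + 2) b) :=
    { mono := fun q q' a b hq hr => hR.mono q q' _ b hq hr
      uniq := fun q hq a b b' h h' => hR.uniq q hq _ b b' h h'
      bd := fun q hq k ξ b hk hb => by
        have h1 := hR.bd q hq (4 * k + 2) b (M5_known2 hk) hb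
        rwa [M5_alc2] at h1 }
  obtain ⟨q₁, hq₁, h₁, hb₁, hd₁⟩ := dom_two (Or.inl rfl) hF2
  have hF3 : FNB 3 q₁ (fun q (a : ℕ × Ω) b => R q (4 * a.1 + 3) b) :=
    { mono := fun q q' a b hq hr => hR.mono q q' _ b hq hr
      uniq := fun q hq a b b' h h' => hR.uniq q (hq.trans hq₁) _ b b' h h'
      bd := fun q hq k ξ b hk hb => by
        have h1 := hR.bd q (hq.trans hq₁) (4 * k + 3) b (M5_known3 hk) hb
        rwa [M5_alc3] at h1 }
  obtain ⟨q₂, hq₂, h₂, hb₂, hd₂⟩ := dom_two (Or.inr rfl) hF3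
  obtain ⟨q₃, hq₃, K₁, hK₁⟩ := Cond.t_bd q₂ h₁ 2 (Filter.Eventually.of_forall hb₁)
  obtain ⟨q₄, hq₄, K₂, hK₂⟩ := Cond.t_bd q₃ h₂ 3 (Filter.Eventually.of_forall hb₂)
  obtain ⟨q₅, hq₅, hlen, -⟩ := Cond.exists_len q₄ (max (max K₁ K₂) (max q₁.len q₂.len)) (zz Ω X)
  obtain ⟨q₆, hq₆, hdec6⟩ := M5_decide (p := q₅) hR.mono (4 * q₅.len + 1)
  have hle : q₆ ≤ p :=
    hq₆.trans (hq₅.trans (hq₄.trans (hq₃.trans (hq₂.trans hq₁))))
  let l : List Ω := (List.range (4 * q₅.len + 1)).map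
    (fun j => if h : ∃ v, R q₆ j v then h.choose else zz Ω X)
  have hl1 : ∀ j < 4 * q₅.len + 1, l[j]? =
      some (if h : ∃ v, R q₆ j v then h.choose else zz Ω X) := by
    intro j hj
    simp only [l, List.getElem?_map, List.getElem?_range hj, Option.map_some]
  have hl2 : ∀ j, l[j]? = none → 4 * q₅.len + 1 ≤ j := by
    intro j hj
    by_contra hcon
    rw [hl1 j (by omega)] at hj
    exact absurd hj (by simp)
  obtain ⟨ξ, hξ, hξz⟩ := hdec (h₁, h₂, l)
  refine ⟨q₆, hle, ξ, hξ, fun q' hq' j hj v w hv hw => ?_⟩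
  rw [hξz] at hw
  obtain ⟨hkn, hw⟩ := hw
  have hvb := hR.bd q' (hq'.trans hle) j v hkn hv
  rcases hw with ⟨w', hw', rfl⟩ | ⟨hnone, hw⟩
  · have hj4 : j < 4 * q₅.len + 1 := by
      by_contra hcon
      have h1 : l.length ≤ j := by
        simp only [l, List.length_map, List.length_range]
        omega
      rw [List.getElem?_eq_none h1] at hw'
      exact absurd hw' (by simp)
    rw [hl1 j hj4] at hw'
    have hex : ∃ v, R q₆ j v := by
      rcases hdec6 j hj4 with h1 | h1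
      · exact h1
      · exact absurd hv (h1 q' hq' v)
    rw [dif_pos hex] at hw'
    have h2 : hex.choose = w' := Option.some.inj hw'
    have h3 : R q' j w' := hR.mono _ _ _ _ hq' (h2 ▸ hex.choose_spec)
    have h4 : v = w' := hR.uniq q' (hq'.trans hle) j v w' hv h3
    rw [← h4, M5_cap hvb]
  · have hjN := hl2 j hnone
    simp only [A1, Set.mem_ofPred_eq] at hj
    set k : ℕ := (j - 1) / 4 with hk
    have hkl : k < q'.len := by
      rcases hkn with h1 | h1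
      · omega
      · exact h1
    have hk1 : q₅.len ≤ k := by omega
    have hkpos : k - 1 < q'.len := by omega
    have hzz : zz Ω X < q'.pt (k - 1) := M5_zz_lt q' hkpos
    have h5 := hq'.trans hq₆
    have hmax1 : K₁ ≤ k := ((le_max_left _ _).trans (le_max_left _ _)).trans (hlen.trans hk1)
    have hmax2 : K₂ ≤ k := ((le_max_right _ _).trans (le_max_left _ _)).trans (hlen.trans hk1)
    have hmax3 : q₁.len ≤ k := ((le_max_left _ _).trans (le_max_right _ _)).trans (hlen.trans hk1)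
    have hmax4 : q₂.len ≤ k := ((le_max_right _ _).trans (le_max_right _ _)).trans
      (hlen.trans hk1)
    rcases hj with hj | hj
    · have hjk : j = 4 * k + 2 := by omega
      rw [if_pos hj] at hw
      have hv2 : R q' (4 * k + 2) v := hjk ▸ hv
      obtain ⟨v', hv', hlt⟩ := hd₁ k hmax3 q'
        (h5.trans (hq₅.trans (hq₄.trans (hq₃.trans hq₂)))) hkl (zz Ω X) hzz v hv2
      obtain ⟨v'', hv'', hb''⟩ := hK₁ q' (h5.trans (hq₅.trans hq₄)) k hmax1 hkl
      rcases hw with ⟨w', hw', rfl⟩ | ⟨hRu, -⟩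
      · have e1 := Cond.Rt.uniq hv' hw'
        have e2 := Cond.Rt.uniq hv'' hw'
        subst e1
        subst e2
        rw [hjk, M5_cap (by rw [M5_alc2]; exact hb'')]
        exact hlt.le
      · exact absurd hRu hv'.not_Ru
    · have hjk : j = 4 * k + 3 := by omega
      rw [if_neg (by omega)] at hw
      have hv2 : R q' (4 * k + 3) v := hjk ▸ hv
      obtain ⟨v', hv', hlt⟩ := hd₂ k hmax4 q'
        (h5.trans (hq₅.trans (hq₄.trans hq₃))) hkl (zz Ω X) hzz v hv2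
      obtain ⟨v'', hv'', hb''⟩ := hK₂ q' (h5.trans hq₅) k hmax2 hkl
      rcases hw with ⟨w', hw', rfl⟩ | ⟨hRu, -⟩
      · have e1 := Cond.Rt.uniq hv' hw'
        have e2 := Cond.Rt.uniq hv'' hw'
        subst e1
        subst e2
        rw [hjk, M5_cap (by rw [M5_alc3]; exact hb'')]
        exact hlt.le
      · exact absurd hRu hv'.not_Ru


/-- Task M6: no family of size `κ` is cofinal. -/
theorem lo0 {dec : Ordinal.{0} → (Ω → Ω) × (Ω → Ω) × List Ω}
    (hdec : ∀ z, ∃ ξ < (succ D.κ).ord, dec ξ = z) {S : Type} (hS : #S ≤ D.κ) (p : Cond Ω X)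
    (R : Cond Ω X → S → ℕ → Ω → Prop) (hR : ∀ s, EN p (fun q => R q s)) :
    ∃ q ≤ p, ∃ ξ < (succ D.κ).ord, ∀ s, ∀ p' ≤ q, ∃ r ≤ p', ∃ j ∈ A0, ∀ q' ≤ r, ∀ v w,
      R q' s j v → TR0 (dec ξ) q' j w → v < w := by
  rcases isEmpty_or_nonempty S with hSe | hSn
  · obtain ⟨ξ, hξ, -⟩ := hdec (id, id, [])
    exact ⟨p, le_refl p, ξ, hξ, fun s => hSe.elim s⟩
  -- a surjection from `Ω` onto `S`
  obtain ⟨e, he⟩ : ∃ e : Ω → S, Function.Surjective e := by
    have h1 : #S ≤ #Ω := by rw [D.mk_Ω]; exact hS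
    obtain ⟨f⟩ := h1
    exact ⟨Function.invFun f, Function.invFun_surjective f.injective⟩
  have hkn : ∀ (q : Cond Ω X) (k : ℕ), k < q.len → known q (4 * k + 1) := fun q k hk =>
    Or.inr (by rwa [show (4 * k + 1 - 1) / 4 = k by omega])
  have halc : ∀ (q : Cond Ω X) (k : ℕ), alc q (4 * k + 1) = sc 1 (crd (q.pt k)) := by
    intro q k
    unfold alc
    rw [if_neg (by omega), show (4 * k + 1 - 1) % 4 + 1 = 1 by omega,
      show (4 * k + 1 - 1) / 4 = k by omega]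
  have h1 : FNB 1 p (fun q (x : ℕ × Ω) b => R q (e x.2) (4 * x.1 + 1) b) := by
    refine ⟨⟨fun q q' x b hq h => (hR (e x.2)).mono q q' _ b hq h,
      fun q hq x b b' h h' => (hR (e x.2)).uniq q hq _ b b' h h'⟩, ?_⟩
    intro q hq k ξ b hk h
    have h2 := (hR (e ξ)).bd q hq (4 * k + 1) b (hkn q k hk) h
    rwa [halc] at h2
  obtain ⟨q, hq, F, hF, hdom⟩ := dom_one h1
  have hF' : ∀ m : Ω, ∃ b : Ω, m ∈ D.W → crd b < sc 1 (crd m) ∧ F m < b := by
    intro m
    by_cases hm : m ∈ D.W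
    · obtain ⟨b, hb, hb'⟩ := exists_bound (D := D) (S := {F m}) (sc_isRegular
        (aleph0_lt_crd hm).le 0) (sc_crd_lt_κ (X := X) m 1).le (by
          rw [mk_singleton]
          exact one_lt_aleph0.trans_le ((aleph0_lt_crd hm).le.trans (sc_le (Nat.zero_le 1) _)))
        (by
          rintro a rfl
          exact hF m hm)
      exact ⟨b, fun _ => ⟨hb, hb' _ rfl⟩⟩
    · exact ⟨m, fun h => absurd h hm⟩
  choose F' hF' using hF'
  obtain ⟨ξ, hξ, hdξ⟩ := hdec (F', F', [])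
  refine ⟨q, hq, ξ, hξ, fun s p' hp' => ?_⟩
  obtain ⟨a, rfl⟩ := he s
  obtain ⟨r, hr, hrl, har⟩ := Cond.exists_len p' q.len a
  refine ⟨r, hr, 4 * r.len + 1, Or.inr (by omega), fun q' hq' v w hv hw => ?_⟩
  have hlen : 0 < r.len := by
    change 0 < (r.m :: r.s).length
    simp
  obtain ⟨hw1, rfl⟩ := hw
  have hk : r.len < q'.len := by
    rcases hw1 with h2 | h2
    · omega
    · rwa [show (4 * r.len + 1 - 1) / 4 = r.len by omega] at h2
  have hW := q'.pt_mem_W hk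
  have h3 : val0 (dec ξ) q' (4 * r.len + 1) = F' (q'.pt r.len) := by
    rw [hdξ]
    unfold val0
    simp only [List.getElem?_nil, Option.getD_none]
    rw [if_pos (by omega), show (4 * r.len + 1 - 1) / 4 = r.len by omega]
    unfold cap
    rw [if_pos]
    rw [halc]
    exact (hF' _ hW).1
  rw [h3]
  refine lt_of_le_of_lt ?_ (hF' _ hW).2
  refine hdom r.len hrl q' (hq'.trans (hr.trans hp')) hk a ?_ v hv
  rw [Cond.pt_of_le hq' (by omega : r.len - 1 < r.len), Cond.pt_last]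
  exact har


/-- Task M7: no family of size `κ⁺` is cofinal. -/
theorem lo1 {dec : Ordinal.{0} → Crd Ω X × Crd Ω X × List Ω}
    (hdec : ∀ z, ∃ ξ < (succ (succ D.κ)).ord, dec ξ = z) {S : Type} (hS : #S ≤ succ D.κ)
    (p : Cond Ω X) (R : Cond Ω X → S → ℕ → Ω → Prop) (hR : ∀ s, EN p (fun q => R q s)) :
    ∃ q ≤ p, ∃ ξ < (succ (succ D.κ)).ord, ∀ s, ∀ p' ≤ q, ∃ r ≤ p', ∃ j ∈ A1, ∀ q' ≤ r, ∀ v w,
      R q' s j v → TR1 (dec ξ) q' j w → v < w := by
  have hF : ∀ s, FNB 2 p (fun q (a : ℕ × Ω) b => R q s (4 * a.1 + 2) b) := fun s =>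
    { mono := fun q q' a b hq hr => (hR s).mono q q' _ b hq hr
      uniq := fun q hq a b b' h h' => (hR s).uniq q hq _ b b' h h'
      bd := fun q hq k ξ b hk hb => by
        have h1 := (hR s).bd q hq (4 * k + 2) b (M5_known2 hk) hb
        rwa [M5_alc2] at h1 }
  obtain ⟨h, hb, hd⟩ := dom_family (Or.inl rfl) hS
    (fun s q (a : ℕ × Ω) b => R q s (4 * a.1 + 2) b) hF
  obtain ⟨q, hq, K₀, hK₀⟩ := Cond.t_bd p h 2 (Filter.Eventually.of_forall hb)
  obtain ⟨ξ, hξ, hξz⟩ := hdec (h, h, [])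
  refine ⟨q, hq, ξ, hξ, fun s p' hp' => ?_⟩
  obtain ⟨r, hr, K, hK⟩ := hd s p' (hp'.trans hq)
  refine ⟨r, hr, 4 * max K (max K₀ 1) + 2, Or.inl (by omega), ?_⟩
  intro q' hq' v w hv hw
  rw [hξz] at hw
  obtain ⟨hkn, hw⟩ := hw
  set k : ℕ := max K (max K₀ 1) with hk
  have hk4 : (4 * k + 2 - 1) / 4 = k := by omega
  have hkK : K ≤ k := le_max_left _ _
  have hkK0 : K₀ ≤ k := (le_max_left _ _).trans (le_max_right _ _)
  have hk1 : 1 ≤ k := (le_max_right _ _).trans (le_max_right _ _)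
  have hkl : k < q'.len := by
    rcases hkn with h1 | h1
    · omega
    · rwa [hk4] at h1
  have hzz : zz Ω X < q'.pt (k - 1) := M5_zz_lt q' (by omega)
  obtain ⟨v', hv', hlt⟩ := hK k hkK q' hq' hkl (zz Ω X) hzz v hv
  obtain ⟨v'', hv'', hb''⟩ := hK₀ q' (hq'.trans (hr.trans hp')) k hkK0 hkl
  rcases hw with ⟨w', hw', rfl⟩ | ⟨-, hw⟩
  · exact absurd hw' (by simp)
  · rw [if_pos (by omega), hk4] at hw
    rcases hw with ⟨w', hw', rfl⟩ | ⟨hRu, -⟩
    · have e1 := Cond.Rt.uniq hv' hw'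
      have e2 := Cond.Rt.uniq hv'' hw'
      subst e1
      subst e2
      rw [M5_cap (by rw [M5_alc2]; exact hb'')]
      exact hlt
    · exact absurd hRu hv'.not_Ru

end Pool.PC
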