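import Pool.Agent.Lib.MP_ad72f3_pc.Data

/-!
# The forcing notion: extender based Prikry forcing with interleaved collapses
-/

set_option autoImplicit false
set_option linter.unusedSectionVars false
set_option linter.unusedVariables false

open Cardinal Set Order

namespace Pool.PC

variable (Ω : Type) [LinearOrder Ω] [WellFoundedLT Ω] (X : Type)

/-- Partial functions on the ordinals below `κ`. -/
abbrev PF := Ω → Option Ω

variable {Ω}

/-- Inclusion of partial functions. -/
def Sub (c c' : PF Ω) : Prop := ∀ a b, c a = some b → c' a = some b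

/-- The domain. -/
def pdom (c : PF Ω) : Set Ω := {a | c a ≠ none}

/-- Conditions of the collapse `Col(θ, <κ)`. -/
def IsCol (θ : Cardinal.{0}) (c : PF Ω) : Prop := #(pdom c) < θ ∧ ∀ a b, c a = some b → crd a < θ

/-- All values are `< m`. -/
def BelowC (c : PF Ω) (m : Ω) : Prop := ∀ a b, c a = some b → b < m

variable (Ω) in
/-- The coordinates: functions `h` with `h x < (κ_x)^(+3)`. -/
def Crd [D : PD Ω X] : Type := {h : X → Ω // ∀ x, crd (h x) < sc 3 (crd (D.kx x))}

variable [D : PD Ω X]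

variable (Ω) in
/-- The Cohen part: to each coordinate in its domain it assigns a rank and a finite partial
function from `ℕ` to the ordinals below `κ`. -/
abbrev Coh := Crd Ω X → Option (Ω × (ℕ → Option Ω))

variable (Ω) in
/-- Upper parts of conditions. -/
@[ext] structure Up where
  /-- the current collapse -/
  c : PF Ω
  /-- the Cohen part -/
  f : Coh Ω X
  /-- the measure one set -/
  A : Set X
  /-- the promises -/
  F : Ω → PF Ω

variable {X}

/-- `u` is an upper part above the last point `m`. -/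
structure Up.V (m : Ω) (u : Up Ω X) : Prop where
  hc : IsCol (sc 4 (crd m)) u.c
  ff : ∀ α ρ σ, u.f α = some (ρ, σ) → {n | σ n ≠ none}.Finite
  fs : ∀ m' ∈ D.W, m < m' → #{α | ∃ ρ σ, u.f α = some (ρ, σ) ∧ ρ < m'} ≤ crd m'
  hA : u.A ∈ D.U
  hF : ∀ m' ∈ D.W, IsCol (sc 4 (crd m')) (u.F m')

/-- `u'` is a direct extension of `u`, the last point being `m`. -/
structure Up.Le (m : Ω) (u' u : Up Ω X) : Prop where
  c : Sub u.c u'.c
  f : ∀ α ρ σ, u.f α = some (ρ, σ) → ∃ ρ', u'.f α = some (ρ', σ) ∧ max ρ' m = max ρ m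
  A : ∀ x ∈ u'.A, m < D.kx x → x ∈ u.A
  F : ∀ m' ∈ D.W, m < m' → Sub (u.F m') (u'.F m')

/-- The point `x` can be added. -/
structure Up.OK (m : Ω) (u : Up Ω X) (x : X) : Prop where
  A : x ∈ u.A
  W : D.kx x ∈ D.W
  lt : m < D.kx x
  c : BelowC u.c (D.kx x)

open Classical in
/-- The finite partial function at the coordinate `α` after adding the `n`-th point `x`: if the
rank `ρ` is `< κ_x` (the coordinate is active) and the value at `n` is not yet decided, the value
at `n` becomes `α x`. -/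
noncomputable def updf (n : ℕ) (x : X) (α : Crd Ω X) (ρ : Ω) (σ : ℕ → Option Ω) : ℕ → Option Ω :=
  if ρ < D.kx x ∧ σ n = none then Function.update σ n (some (α.1 x)) else σ

/-- The Cohen part after adding the `n`-th point `x`. -/
noncomputable def stepf (n : ℕ) (f : Coh Ω X) (x : X) : Coh Ω X := fun α =>
  match f α with
  | none => none
  | some (ρ, σ) => some (ρ, updf n x α ρ σ)

/-- The upper part after adding the `n`-th point `x`. -/
noncomputable def Up.step (n : ℕ) (u : Up Ω X) (x : X) : Up Ω X where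
  c := u.F (D.kx x)
  f := stepf n u.f x
  A := u.A
  F := u.F

variable (X) in
/-- The cardinal from which the ordinals up to the next point are collapsed. -/
noncomputable def th : List Ω → Cardinal.{0}
  | [] => ℵ₀
  | m :: _ => sc 4 (crd m)

variable (X) in
/-- `r` is a lower part for the stem `t` (last point first). -/
def LowV : List Ω → List (PF Ω) → Prop
  | [], [] => True
  | m :: t, c :: r => m ∈ D.W ∧ (∀ a ∈ t.head?, a < m) ∧ IsCol (th t) c ∧ BelowC c m ∧ LowV t r
  | _, _ => False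

variable (Ω X) in
/-- Conditions. -/
structure Cond where
  /-- the last point -/
  m : Ω
  /-- the other points, last one first -/
  s : List Ω
  /-- the lower part -/
  r : List (PF Ω)
  /-- the upper part -/
  u : Up Ω X
  low : LowV X (m :: s) r
  up : u.V m

namespace Cond

/-- The number of points. -/
def len (p : Cond Ω X) : ℕ := (p.m :: p.s).length

/-- The stem. -/
def t (p : Cond Ω X) : List Ω := p.m :: p.s

/-- Direct extensions. -/
structure Dle (p' p : Cond Ω X) : Prop where
  m : p'.m = p.m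
  s : p'.s = p.s
  r : List.Forall₂ Sub p.r p'.r
  u : p'.u.Le p.m p.u

end Cond

/-! ### Basic lemmas -/

lemma Sub.refl (c : PF Ω) : Sub c c := fun _ _ h => h

lemma Sub.trans {c c' c'' : PF Ω} (h : Sub c c') (h' : Sub c' c'') : Sub c c'' :=
  fun a b hab => h' a b (h a b hab)

lemma BelowC.mono {c c' : PF Ω} {m : Ω} (h : BelowC c' m) (hs : Sub c c') : BelowC c m :=
  fun a b hab => h a b (hs a b hab)

lemma LowV.mem_W {m : Ω} {t : List Ω} {r : List (PF Ω)} (h : LowV X (m :: t) r) : m ∈ D.W := by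
  cases r with
  | nil => exact absurd h (by simp [LowV])
  | cons c r => exact h.1

lemma Up.Le.refl (m : Ω) (u : Up Ω X) : u.Le m u where
  c := Sub.refl _
  f := fun α ρ σ h => ⟨ρ, h, rfl⟩
  A := fun x hx _ => hx
  F := fun _ _ _ => Sub.refl _

lemma Up.Le.trans {m : Ω} {u u' u'' : Up Ω X} (h : u''.Le m u') (h' : u'.Le m u) :
    u''.Le m u where
  c := h'.c.trans h.c
  f := fun α ρ σ e => by
    obtain ⟨ρ', e', h1⟩ := h'.f α ρ σ e
    obtain ⟨ρ'', e'', h2⟩ := h.f α ρ' σ e'
    exact ⟨ρ'', e'', h2.trans h1⟩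
  A := fun x hx hm => h'.A x (h.A x hx hm) hm
  F := fun m' hm' hlt => (h'.F m' hm' hlt).trans (h.F m' hm' hlt)

lemma Up.Le.OK {m : Ω} {u u' : Up Ω X} {x : X} (h : u'.Le m u) (hx : u'.OK m x) : u.OK m x where
  A := h.A x hx.A hx.lt
  W := hx.W
  lt := hx.lt
  c := hx.c.mono h.c

lemma stepf_some {n : ℕ} {f : Coh Ω X} {x : X} {α : Crd Ω X} {ρ : Ω} {σ : ℕ → Option Ω}
    (h : f α = some (ρ, σ)) : stepf n f x α = some (ρ, updf n x α ρ σ) := by
  simp only [stepf, h]

lemma stepf_eq_some {n : ℕ} {f : Coh Ω X} {x : X} {α : Crd Ω X} {ρ : Ω} {τ : ℕ → Option Ω}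
    (h : stepf n f x α = some (ρ, τ)) : ∃ σ, f α = some (ρ, σ) ∧ τ = updf n x α ρ σ := by
  unfold stepf at h
  split at h
  · exact absurd h (by simp)
  · rename_i ρ' σ he
    simp only [Option.some.injEq, Prod.mk.injEq] at h
    obtain ⟨rfl, rfl⟩ := h
    exact ⟨σ, he, rfl⟩

lemma Up.Le.step {m : Ω} {u u' : Up Ω X} {x : X} (n : ℕ) (h : u'.Le m u) (hx : u'.OK m x) :
    (u'.step n x).Le (D.kx x) (u.step n x) where
  c := h.F _ hx.W hx.lt
  f := by
    intro α ρ τ e
    obtain ⟨σ, e1, e2⟩ := stepf_eq_some e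
    obtain ⟨ρ', e3, e4⟩ := h.f α ρ σ e1
    refine ⟨ρ', ?_, ?_⟩
    · change stepf n u'.f x α = _
      rw [stepf_some e3, e2]
      unfold updf
      have h1 : ρ' < D.kx x ↔ ρ < D.kx x := by
        have h2 : max ρ' m < D.kx x ↔ max ρ m < D.kx x := by rw [e4]
        rw [max_lt_iff, max_lt_iff] at h2
        constructor
        · exact fun h3 => (h2.1 ⟨h3, hx.lt⟩).1
        · exact fun h3 => (h2.2 ⟨h3, hx.lt⟩).1
      simp only [h1]
    · have h5 : max (max ρ' m) (D.kx x) = max (max ρ m) (D.kx x) := by rw [e4]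
      rwa [max_assoc, max_assoc, max_eq_right hx.lt.le] at h5
  A := fun y hy hlt => h.A y hy (hx.lt.trans hlt)
  F := fun m' hm' hlt => h.F m' hm' (hx.lt.trans hlt)

lemma Up.V.step {m : Ω} {u : Up Ω X} {x : X} (n : ℕ) (h : u.V m) (hx : u.OK m x) :
    (u.step n x).V (D.kx x) where
  hc := h.hF _ hx.W
  ff := by
    intro α ρ τ e
    obtain ⟨σ, e1, e2⟩ := stepf_eq_some e
    have h1 := h.ff α ρ σ e1
    rw [e2]
    refine (h1.union (Set.finite_singleton n)).subset ?_
    intro k hk
    by_cases hkn : k = n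
    · exact Or.inr hkn
    · left
      change σ k ≠ none
      change updf n x α ρ σ k ≠ none at hk
      unfold updf at hk
      split_ifs at hk
      · rwa [Function.update_of_ne hkn] at hk
      · exact hk
  fs := by
    intro m' hm' hlt
    refine le_trans (mk_le_mk_of_subset ?_) (h.fs m' hm' (hx.lt.trans hlt))
    rintro α ⟨ρ, τ, e, hρ⟩
    obtain ⟨σ, e1, -⟩ := stepf_eq_some e
    exact ⟨ρ, σ, e1, hρ⟩
  hA := h.hA
  hF := h.hF

namespace Cond

/-- Adding a point. -/
noncomputable def step (p : Cond Ω X) (x : X) (hx : p.u.OK p.m x) : Cond Ω X where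
  m := D.kx x
  s := p.m :: p.s
  r := p.u.c :: p.r
  u := p.u.step p.len x
  low := ⟨hx.W, by simpa using hx.lt, p.up.hc, hx.c, p.low⟩
  up := p.up.step _ hx

lemma Dle.refl (p : Cond Ω X) : p.Dle p where
  m := rfl
  s := rfl
  r := List.forall₂_same.2 fun c _ => Sub.refl c
  u := Up.Le.refl _ _

lemma Dle.trans {p p' p'' : Cond Ω X} (h : p''.Dle p') (h' : p'.Dle p) : p''.Dle p where
  m := h.m.trans h'.m
  s := h.s.trans h'.s
  r := by
    have h1 := h'.r
    have h2 := h.r
    rw [List.forall₂_iff_get] at h1 h2 ⊢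
    refine ⟨h1.1.trans h2.1, fun i hi hi' => ?_⟩
    exact (h1.2 i hi (h1.1 ▸ hi)).trans (h2.2 i (h1.1 ▸ hi) hi')
  u := by
    have h1 := h.u
    rw [h'.m] at h1
    exact h1.trans h'.u

lemma Dle.len {p p' : Cond Ω X} (h : p'.Dle p) : p'.len = p.len := by
  unfold Cond.len
  rw [h.m, h.s]

lemma Dle.OK {p p' : Cond Ω X} {x : X} (h : p'.Dle p) (hx : p'.u.OK p'.m x) :
    p.u.OK p.m x := by
  rw [h.m] at hx
  exact h.u.OK hx

lemma Dle.step {p p' : Cond Ω X} {x : X} (h : p'.Dle p) (hx : p'.u.OK p'.m x) :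
    (p'.step x hx).Dle (p.step x (h.OK hx)) where
  m := rfl
  s := by
    change p'.m :: p'.s = p.m :: p.s
    rw [h.m, h.s]
  r := List.Forall₂.cons h.u.c h.r
  u := by
    change (p'.u.step p'.len x).Le (D.kx x) (p.u.step p.len x)
    rw [h.len]
    have h1 := h.m ▸ hx
    exact h.u.step _ h1

/-- The order of the forcing notion: `Ext p' p` says that `p'` is stronger than `p`. -/
inductive Ext : Cond Ω X → Cond Ω X → Prop
  | dir {p' p : Cond Ω X} : p'.Dle p → Ext p' p
  | step {p' p : Cond Ω X} (x : X) (hx : p.u.OK p.m x) : Ext p' (p.step x hx) → Ext p' p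

lemma Ext.dle_trans {p p' q : Cond Ω X} (h : Ext q p') (h' : p'.Dle p) : Ext q p := by
  induction h generalizing p with
  | dir h1 => exact .dir (h1.trans h')
  | step x hx _ ih => exact .step x (h'.OK hx) (ih (h'.step hx))

lemma Ext.trans {p p' p'' : Cond Ω X} (h : Ext p'' p') (h' : Ext p' p) : Ext p'' p := by
  induction h' generalizing p'' with
  | dir h1 => exact h.dle_trans h1
  | step x hx _ ih => exact .step x hx (ih h)

instance : Preorder (Cond Ω X) where
  le p' p := Ext p' p
  le_refl p := .dir (Dle.refl p)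
  le_trans _ _ _ h h' := Ext.trans h h'

lemma le_def {p' p : Cond Ω X} : p' ≤ p ↔ Ext p' p := Iff.rfl

lemma Dle.le {p' p : Cond Ω X} (h : p'.Dle p) : p' ≤ p := .dir h

lemma step_le (p : Cond Ω X) (x : X) (hx : p.u.OK p.m x) : p.step x hx ≤ p :=
  .step x hx (.dir (Dle.refl _))

end Cond

end Pool.PC
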