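import Pool.Agent.Lib.MP_ad72f3_pc.FN

/-!
# Task V: covering lemmas
-/

set_option autoImplicit false
set_option linter.unusedSectionVars false

open Cardinal Set Order

namespace Pool.PC

variable {Ω : Type} [LinearOrder Ω] [WellFoundedLT Ω] {X : Type} [D : PD Ω X]

/-- Every direct extension has a one step extension; it extends the corresponding step of the
original condition. -/
theorem V1_step {p q' : Cond Ω X} (h : q'.Dle p) : ∃ x, ∃ hx : p.u.OK p.m x,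
    ∃ hx' : q'.u.OK q'.m x, q'.step x hx' ≤ q' ∧ q'.step x hx' ≤ p.step x hx := by
  obtain ⟨x, hx, -⟩ := q'.exists_step q'.m
  exact ⟨x, h.OK hx, hx, q'.step_le x hx, (h.step hx).le⟩

/-- The extensions of a condition. -/
theorem V1_cases {p q' : Cond Ω X} (h : q' ≤ p) :
    ∃ q'' ≤ q', ∃ x, ∃ hx : p.u.OK p.m x, q'' ≤ p.step x hx := by
  cases h with
  | dir h1 =>
    obtain ⟨x, hx, hx', h2, h3⟩ := V1_step h1
    exact ⟨_, h2, x, hx, h3⟩
  | step x hx h1 => exact ⟨q', le_rfl, x, hx, h1⟩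

/-- Small value sets are decided by direct extensions. -/
theorem decide_small {A B : Type} (hB : #B < D.κ) {p₀ : Cond Ω X}
    {R : Cond Ω X → A → B → Prop} (hR : FN p₀ R) (a : A) (p : Cond Ω X) (hp : p ≤ p₀) :
    ∃ q : Cond Ω X, q.Dle p ∧ ((∃ b, ∀ q' ≤ q, ∃ q'' ≤ q', R q'' a b) ∨
      ∀ q' ≤ q, ∀ b, ¬ R q' a b) := by
  have hJ : #(Option B) < D.κ := by
    rw [mk_option]
    exact add_lt_of_lt D.κ_inacc.aleph0_lt.le hB (one_lt_aleph0.trans D.κ_inacc.aleph0_lt)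
  set G : Option B → Set (Cond Ω X) := fun j => match j with
    | some b => {q | ∀ q' ≤ q, q' ≤ p₀ → ∃ q'' ≤ q', R q'' a b}
    | none => {q | ∀ q' ≤ q, q' ≤ p₀ → ∀ b, ¬ R q' a b} with hG
  have g1 : ∀ j (p p' : Cond Ω X), p'.Dle p → p ∈ G j → p' ∈ G j := by
    rintro (_ | b) p p' hpp hmem q' hq' h0
    · exact hmem q' (hq'.trans hpp.le) h0
    · exact hmem q' (hq'.trans hpp.le) h0
  have g2 : ∀ j (p : Cond Ω X), (∀ x (hx : p.u.OK p.m x), p.step x hx ∈ G j) →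
      ∃ j', p ∈ G j' := by
    rintro (_ | b) p hst
    · refine ⟨none, fun q' hq' h0 b hb => ?_⟩
      obtain ⟨q'', h1, x, hx, h2⟩ := V1_cases hq'
      exact hst x hx q'' h2 (h1.trans h0) b (hR.mono _ _ _ _ h1 hb)
    · refine ⟨some b, fun q' hq' h0 => ?_⟩
      obtain ⟨q'', h1, x, hx, h2⟩ := V1_cases hq'
      obtain ⟨q3, h3, h4⟩ := hst x hx q'' h2 (h1.trans h0)
      exact ⟨q3, h3.trans h1, h4⟩
  have g3 : ∀ p : Cond Ω X, ∃ q ≤ p, ∃ j, q ∈ G j := by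
    intro p
    by_cases h : ∃ q' ≤ p, q' ≤ p₀ ∧ ∃ b, R q' a b
    · obtain ⟨q', h1, h2, b, hb⟩ := h
      exact ⟨q', h1, some b, fun q'' h3 _ => ⟨q'', le_rfl, hR.mono _ _ _ _ h3 hb⟩⟩
    · exact ⟨p, le_rfl, none, fun q' h1 h2 b hb => h ⟨q', h1, h2, b, hb⟩⟩
  obtain ⟨q, hq, j, hj⟩ := prikry hJ G g1 g2 g3 p
  refine ⟨q, hq, ?_⟩
  have hqp : ∀ q' ≤ q, q' ≤ p₀ := fun q' h => h.trans (hq.le.trans hp)
  rcases j with _ | b
  · exact Or.inr fun q' h => hj q' h (hqp q' h)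
  · exact Or.inl ⟨b, fun q' h => hj q' h (hqp q' h)⟩

/-- Small value sets are decided by direct extensions: there is at most one value. -/
theorem decide_small' {A B : Type} (hB : #B < D.κ) {p₀ : Cond Ω X}
    {R : Cond Ω X → A → B → Prop} (hR : FN p₀ R) (a : A) (p : Cond Ω X) (hp : p ≤ p₀) :
    ∃ q : Cond Ω X, q.Dle p ∧ ∃ Y : Set B, Y.Subsingleton ∧ ∀ q' ≤ q, ∀ b, R q' a b → b ∈ Y := by
  obtain ⟨q, hq, ⟨b, hb⟩ | h⟩ := decide_small hB hR a p hp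
  · refine ⟨q, hq, {b}, Set.subsingleton_singleton, fun q' hq' b' hb' => ?_⟩
    obtain ⟨q'', h1, h2⟩ := hb q' hq'
    exact hR.uniq q'' (h1.trans (hq'.trans (hq.le.trans hp))) a b' b (hR.mono _ _ _ _ h1 hb') h2
  · exact ⟨q, hq, ∅, Set.subsingleton_empty, fun q' hq' b hb => (h q' hq' b hb).elim⟩

/-- All values lie in a set of size `κ` decided by a direct extension. -/
theorem cover_κ {A B : Type} {p₀ : Cond Ω X}
    {R : Cond Ω X → A → B → Prop} (hR : FN p₀ R) (a : A) (p : Cond Ω X) (hp : p ≤ p₀) :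
    ∃ q : Cond Ω X, q.Dle p ∧ ∃ Y : Set B, #Y ≤ D.κ ∧ ∀ q' ≤ q, ∀ b, R q' a b → b ∈ Y := by
  have hκ : ℵ₀ < D.κ := D.κ_inacc.aleph0_lt
  set G : Unit → Set (Cond Ω X) := fun _ =>
    {q | ∃ Y : Set B, #Y ≤ D.κ ∧ ∀ q' ≤ q, q' ≤ p₀ → ∀ b, R q' a b → b ∈ Y} with hG
  have g0 : #Unit < D.κ := by
    rw [mk_fintype, Fintype.card_unit, Nat.cast_one]
    exact one_lt_aleph0.trans hκ
  have g1 : ∀ j (p p' : Cond Ω X), p'.Dle p → p ∈ G j → p' ∈ G j := by
    rintro - p p' hpp ⟨Y, hY, h⟩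
    exact ⟨Y, hY, fun q' hq' => h q' (hq'.trans hpp.le)⟩
  have g2 : ∀ j (p : Cond Ω X), (∀ x (hx : p.u.OK p.m x), p.step x hx ∈ G j) →
      ∃ j', p ∈ G j' := by
    intro _ p hst
    have hst' : ∀ q : {q | ∃ x, ∃ hx : p.u.OK p.m x, q = p.step x hx},
        ∃ Y : Set B, #Y ≤ D.κ ∧ ∀ q' ≤ (q : Cond Ω X), q' ≤ p₀ → ∀ b, R q' a b → b ∈ Y := by
      rintro ⟨_, x, hx, rfl⟩
      exact hst x hx
    choose Y hY hY' using hst'
    refine ⟨(), ⋃ q, Y q, mk_iUnion_le hκ.le p.mk_step _ hY, fun q' hq' h0 b hb => ?_⟩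
    obtain ⟨q'', h1, x, hx, h2⟩ := V1_cases hq'
    exact Set.mem_iUnion.2 ⟨⟨_, x, hx, rfl⟩, hY' ⟨_, x, hx, rfl⟩ q'' h2 (h1.trans h0) b
      (hR.mono _ _ _ _ h1 hb)⟩
  have g3 : ∀ p : Cond Ω X, ∃ q ≤ p, ∃ j, q ∈ G j := by
    intro p
    by_cases h : ∃ q' ≤ p, q' ≤ p₀ ∧ ∃ b, R q' a b
    · obtain ⟨q', h1, h2, b, hb⟩ := h
      refine ⟨q', h1, (), {b}, ?_, fun q'' h3 h4 b' hb' => ?_⟩
      · rw [mk_singleton]
        exact (one_lt_aleph0.trans hκ).le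
      · exact hR.uniq q'' h4 a b' b hb' (hR.mono _ _ _ _ h3 hb)
    · refine ⟨p, le_rfl, (), ∅, ?_, fun q' h1 h2 b hb => (h ⟨q', h1, h2, b, hb⟩).elim⟩
      rw [mk_eq_zero]
      exact zero_le
  obtain ⟨q, hq, -, Y, hY, h⟩ := prikry g0 G g1 g2 g3 p
  exact ⟨q, hq, Y, hY, fun q' hq' => h q' hq' (hq'.trans (hq.le.trans hp))⟩

section V2

lemma V2_len : ∀ (t : List Ω) {r : List (PF Ω)}, LowV X t r → r.length = t.length
  | [], [], _ => rfl
  | [], _ :: _, h => absurd h (by simp [LowV])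
  | _ :: _, [], h => absurd h (by simp [LowV])
  | _ :: t, _ :: _, h => by
    have h1 := V2_len t h.2.2.2.2
    simp only [List.length_cons, h1]

lemma V2_tail : ∀ (t₁ : List Ω) {t' : List Ω} {r₁ r₀ : List (PF Ω)}, r₁.length = t₁.length →
    LowV X (t₁ ++ t') (r₁ ++ r₀) → LowV X t' r₀
  | [], _, r₁, _, hl, h => by
    have h1 : r₁ = [] := List.length_eq_zero_iff.1 (by simpa using hl)
    subst h1
    exact h
  | _ :: t₁, _, [], _, hl, _ => by simp at hl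
  | _ :: t₁, _, _ :: r₁, _, hl, h => V2_tail t₁ (by simpa using hl) h.2.2.2.2

lemma V2_repl : ∀ (t₁ : List Ω) {t' : List Ω} {r₁ r₀ r₀' : List (PF Ω)},
    r₁.length = t₁.length → LowV X (t₁ ++ t') (r₁ ++ r₀) → LowV X t' r₀' →
    LowV X (t₁ ++ t') (r₁ ++ r₀')
  | [], _, r₁, _, _, hl, _, h' => by
    have h1 : r₁ = [] := List.length_eq_zero_iff.1 (by simpa using hl)
    subst h1
    exact h'
  | _ :: t₁, _, [], _, _, hl, _, _ => by simp at hl
  | _ :: t₁, _, _ :: r₁, _, _, hl, h, h' =>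
    ⟨h.1, h.2.1, h.2.2.1, h.2.2.2.1, V2_repl t₁ (by simpa using hl) h.2.2.2.2 h'⟩

lemma V2_rd_append {α : Type} {l₁ l₂ : List α} {n : ℕ} (h : l₂.length = n) :
    (l₁ ++ l₂).rdrop n = l₁ ∧ (l₁ ++ l₂).rtake n = l₂ := by
  subst h
  unfold List.rdrop List.rtake
  rw [List.length_append, Nat.add_sub_cancel]
  exact ⟨List.take_left' rfl, List.drop_left' rfl⟩

lemma V2_rd {α : Type} (l : List α) (n : ℕ) : l.rdrop n ++ l.rtake n = l := by
  unfold List.rdrop List.rtake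
  exact List.take_append_drop _ _

lemma V2_rt_len {α : Type} {l : List α} {n : ℕ} (h : n ≤ l.length) :
    (l.rtake n).length = n := by
  unfold List.rtake
  rw [List.length_drop]
  omega

lemma V2_rd_len {α : Type} (l : List α) (n : ℕ) :
    (l.rdrop n).length = l.length - n := by
  unfold List.rdrop
  rw [List.length_take]
  omega

lemma V2_rt_rt {α : Type} {l : List α} {n k : ℕ} (h : n ≤ k) :
    (l.rtake k).rtake n = l.rtake n := by
  unfold List.rtake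
  rw [List.drop_drop, List.length_drop]
  congr 1
  omega

lemma V2_fa_rt {α β : Type} {R : α → β → Prop} {l : List α} {l' : List β}
    (h : List.Forall₂ R l l') (n : ℕ) :
    List.Forall₂ R (l.rtake n) (l'.rtake n) := by
  unfold List.rtake
  rw [h.length_eq]
  exact List.forall₂_drop _ h

lemma V2_fa_rd {α β : Type} {R : α → β → Prop} {l : List α} {l' : List β}
    (h : List.Forall₂ R l l') (n : ℕ) :
    List.Forall₂ R (l.rdrop n) (l'.rdrop n) := by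
  unfold List.rdrop
  rw [h.length_eq]
  exact List.forall₂_take _ h

lemma V2_fa_app {α β : Type} {R : α → β → Prop} {l l₁ : List α} {l' l₁' : List β}
    (h : List.Forall₂ R l l') (h' : List.Forall₂ R l₁ l₁') :
    List.Forall₂ R (l ++ l₁) (l' ++ l₁') := List.rel_append h h'

lemma V2_fs_refl (l : List (PF Ω)) : List.Forall₂ Sub l l :=
  List.forall₂_same.2 fun c _ => Sub.refl c

lemma V2_fs_trans {l l' l'' : List (PF Ω)} (h : List.Forall₂ Sub l l')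
    (h' : List.Forall₂ Sub l' l'') : List.Forall₂ Sub l l'' := by
  rw [List.forall₂_iff_get] at h h' ⊢
  refine ⟨h.1.trans h'.1, fun i hi hi' => ?_⟩
  exact (h.2 i hi (h.1 ▸ hi)).trans (h'.2 i (h.1 ▸ hi) hi')

/-- Replace the lower part below `m`. -/
lemma V2_low {m : Ω} {t₁ t₀ : List Ω} {r r' : List (PF Ω)} (h : LowV X (t₁ ++ m :: t₀) r)
    (h' : LowV X (m :: t₀) r') :
    LowV X (t₁ ++ m :: t₀) (r.rdrop (t₀.length + 1) ++ r') := by
  have h1 := V2_len _ h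
  rw [List.length_append, List.length_cons] at h1
  have h2 : (r.rdrop (t₀.length + 1)).length = t₁.length := by
    rw [V2_rd_len]
    omega
  have h3 : LowV X (t₁ ++ m :: t₀) (r.rdrop (t₀.length + 1) ++ r.rtake (t₀.length + 1)) := by
    rw [V2_rd]
    exact h
  exact V2_repl t₁ h2 h3 h'

lemma V2_low_tail {m : Ω} {t₁ t₀ : List Ω} {r : List (PF Ω)} (h : LowV X (t₁ ++ m :: t₀) r) :
    LowV X (m :: t₀) (r.rtake (t₀.length + 1)) := by
  have h1 := V2_len _ h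
  rw [List.length_append, List.length_cons] at h1
  have h2 : (r.rdrop (t₀.length + 1)).length = t₁.length := by
    rw [V2_rd_len]
    omega
  have h3 : LowV X (t₁ ++ m :: t₀) (r.rdrop (t₀.length + 1) ++ r.rtake (t₀.length + 1)) := by
    rw [V2_rd]
    exact h
  exact V2_tail t₁ h2 h3

/-- The condition `q` with the lower part below `m` replaced by `r`. -/
def V2rep (q : Cond Ω X) (n : ℕ) (r : List (PF Ω))
    (h : LowV X (q.m :: q.s) (q.r.rdrop n ++ r)) : Cond Ω X :=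
  ⟨q.m, q.s, q.r.rdrop n ++ r, q.u, h, q.up⟩

lemma V2rep_mono {q q' : Cond Ω X} {n : ℕ} {r r' : List (PF Ω)}
    (h : LowV X (q.m :: q.s) (q.r.rdrop n ++ r))
    (h' : LowV X (q'.m :: q'.s) (q'.r.rdrop n ++ r')) (hq : q'.Dle q)
    (hr : List.Forall₂ Sub r r') : (V2rep q' n r' h').Dle (V2rep q n r h) where
  m := hq.m
  s := hq.s
  r := V2_fa_app (V2_fa_rd hq.r n) hr
  u := hq.u

lemma V2rep_dle {q : Cond Ω X} {n : ℕ} {r : List (PF Ω)}
    (h : LowV X (q.m :: q.s) (q.r.rdrop n ++ r))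
    (hr : List.Forall₂ Sub (q.r.rtake n) r) : (V2rep q n r h).Dle q where
  m := rfl
  s := rfl
  r := by
    have h1 : List.Forall₂ Sub (q.r.rdrop n ++ q.r.rtake n) (q.r.rdrop n ++ r) :=
      V2_fa_app (V2_fs_refl _) hr
    rw [V2_rd] at h1
    exact h1
  u := Up.Le.refl _ _

lemma V2rep_congr {q : Cond Ω X} {n : ℕ} {r r' : List (PF Ω)}
    (h : LowV X (q.m :: q.s) (q.r.rdrop n ++ r))
    (h' : LowV X (q.m :: q.s) (q.r.rdrop n ++ r')) (e : r = r') :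
    V2rep q n r h = V2rep q n r' h' := by
  subst e
  rfl

/-- The lower part of an extension. -/
lemma V2_ext_r {q q' : Cond Ω X} (h : q' ≤ q) :
    List.Forall₂ Sub q.r (q'.r.rtake q.len) := by
  have h0 : Cond.Ext q' q := h
  clear h
  induction h0 with
  | @dir p h1 =>
    have h2 : q'.r.rtake p.len = q'.r := by
      have h3 : p.r.length = p.len := V2_len _ p.low
      have h4 : q'.r.length = p.len := by rw [← h3, h1.r.length_eq]
      unfold List.rtake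
      rw [h4, Nat.sub_self, List.drop_zero]
    rw [h2]
    exact h1.r
  | @step p x hx _ ih =>
    have h1 : List.Forall₂ Sub (p.u.c :: p.r) (q'.r.rtake (p.len + 1)) := ih
    have h2 := V2_fa_rt h1 p.len
    rw [V2_rt_rt (Nat.le_succ _)] at h2
    have h3 : (p.u.c :: p.r).rtake p.len = p.r :=
      (V2_rd_append (l₁ := [p.u.c]) (V2_len _ p.low)).2
    rw [h3] at h2
    exact h2

/-- The value at `a` is decided. -/
def V2dec {A B : Type} (R : Cond Ω X → A → B → Prop) (a : A) (q : Cond Ω X) : Prop :=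
  (∃ b, ∀ q' ≤ q, ∃ q'' ≤ q', R q'' a b) ∨ ∀ q' ≤ q, ∀ b, ¬ R q' a b

lemma V2dec.mono {A B : Type} {p : Cond Ω X} {R : Cond Ω X → A → B → Prop} (hR : FN p R) {a : A}
    {q q' : Cond Ω X} (hq : q' ≤ q) (h : V2dec R a q) : V2dec R a q' := by
  rcases h with ⟨b, hb⟩ | h
  · exact Or.inl ⟨b, fun q'' hq'' => hb q'' (hq''.trans hq)⟩
  · exact Or.inr fun q'' hq'' => h q'' (hq''.trans hq)

end V2

/-- The covering lemma below `κ_j`. -/
theorem cover_small {A B : Type} {m : Ω} {t₁ t₀ : List Ω} (hA : #A ≤ sc 3 (crd m))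
    (hB : #B < D.κ) {p : Cond Ω X} (hp : p.t = t₁ ++ m :: t₀)
    {R : Cond Ω X → A → B → Prop} (hR : FN p R) :
    ∃ q : Cond Ω X, q.Dle p ∧ ∃ Y : A → Set B, (∀ a, #(Y a) ≤ crd m) ∧
      ∀ q' ≤ q, ∀ a b, R q' a b → b ∈ Y a := by
  have hmW : m ∈ D.W := by
    have h1 := p.low
    change LowV X p.t p.r at h1
    rw [hp] at h1
    exact (V2_low_tail h1).mem_W
  have htlow : ∀ q : Cond Ω X, q.t = t₁ ++ m :: t₀ → LowV X (t₁ ++ m :: t₀) q.r := by
    intro q hq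
    have h1 : LowV X q.t q.r := q.low
    rwa [hq] at h1
  -- the index type
  set n : ℕ := t₀.length + 1 with hn
  have hlen : ∀ q : Cond Ω X, q.t = t₁ ++ m :: t₀ → q.r.length = t₁.length + n := by
    intro q hq
    rw [V2_len _ (htlow q hq)]
    simp only [List.length_append, List.length_cons, hn]
  have hrep : ∀ q : Cond Ω X, q.t = t₁ ++ m :: t₀ → ∀ r, LowV X (m :: t₀) r →
      LowV X (q.m :: q.s) (q.r.rdrop n ++ r) := by
    intro q hq r hr
    change LowV X q.t _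
    rw [hq]
    exact V2_low (htlow q hq) hr
  have htail : ∀ q : Cond Ω X, q.t = t₁ ++ m :: t₀ → LowV X (m :: t₀) (q.r.rtake n) :=
    fun q hq => V2_low_tail (htlow q hq)
  have hinf : ℵ₀ ≤ sc 3 (crd m) := (aleph0_lt_crd hmW).le.trans (sc_le (Nat.zero_le 3) (crd m))
  have hι : #(A × {r : List (PF Ω) | LowV X (m :: t₀) r}) ≤ sc 3 (crd m) := by
    rw [Cardinal.mk_prod, Cardinal.lift_id, Cardinal.lift_id]
    refine Cardinal.mul_le_of_le hinf hA ?_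
    exact (mk_low_le (X := X)).trans (sc_le (Nat.zero_le 3) (crd m))
  let S : A × {r : List (PF Ω) | LowV X (m :: t₀) r} → Set (Cond Ω X) := fun z =>
    {q | q.t = t₁ ++ m :: t₀ → List.Forall₂ Sub (q.r.rtake n) z.2.1 →
      ∃ r', List.Forall₂ Sub z.2.1 r' ∧ LowV X (m :: t₀) r' ∧
        ∃ h' : LowV X (q.m :: q.s) (q.r.rdrop n ++ r'), V2dec R z.1 (V2rep q n r' h')}
  obtain ⟨q, hqp, hqS⟩ := Cond.meet (m := m) (t₁ := t₁) (t₀ := t₀) hι S p hp (by
    intro z q q' hq' hq ht hsub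
    have ht' : q.t = t₁ ++ m :: t₀ := by
      rw [← ht]
      unfold Cond.t
      rw [hq'.1.m, hq'.1.s]
    rw [hq'.2] at hsub
    obtain ⟨r', h1, h2, h3, h4⟩ := hq ht' hsub
    refine ⟨r', h1, h2, hrep q' ht r' h2, ?_⟩
    exact V2dec.mono hR (V2rep_mono h3 _ hq'.1 (V2_fs_refl _)).le h4) (by
    intro z q hq
    by_cases hsub : List.Forall₂ Sub (q.r.rtake n) z.2.1
    · have ht : q.t = t₁ ++ m :: t₀ := by
        rw [← hp]
        unfold Cond.t
        rw [hq.1.m, hq.1.s]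
      have hlow := hrep q ht z.2.1 z.2.2
      have hd1 : (V2rep q n z.2.1 hlow).Dle q := V2rep_dle hlow hsub
      obtain ⟨q₁, hq₁, hdec⟩ := decide_small hB hR z.1 (V2rep q n z.2.1 hlow)
        (hd1.le.trans hq.1.le)
      have hq₁q : q₁.Dle q := hq₁.trans hd1
      have ht₁ : q₁.t = t₁ ++ m :: t₀ := by
        rw [← ht]
        unfold Cond.t
        rw [hq₁q.m, hq₁q.s]
      have hlow' := hrep q₁ ht₁ (q.r.rtake n) (htail q ht)
      have hrt : (q₁.r.rdrop n ++ q.r.rtake n).rdrop n = q₁.r.rdrop n ∧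
          (q₁.r.rdrop n ++ q.r.rtake n).rtake n = q.r.rtake n :=
        V2_rd_append (V2_rt_len (by rw [hlen q ht]; omega))
      refine ⟨V2rep q₁ n (q.r.rtake n) hlow', ⟨⟨hq₁q.m, hq₁q.s, ?_, hq₁q.u⟩, hrt.2⟩, ?_⟩
      · have h5 : List.Forall₂ Sub (q.r.rdrop n ++ q.r.rtake n) (q₁.r.rdrop n ++ q.r.rtake n) :=
          V2_fa_app (V2_fa_rd hq₁q.r n) (V2_fs_refl _)
        rw [V2_rd] at h5
        exact h5
      · intro _ _
        have h6 : List.Forall₂ Sub z.2.1 (q₁.r.rtake n) := by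
          have h7 := V2_fa_rt hq₁.r n
          have h8 : (q.r.rdrop n ++ z.2.1).rtake n = z.2.1 :=
            (V2_rd_append (V2_len _ z.2.2)).2
          change List.Forall₂ Sub ((q.r.rdrop n ++ z.2.1).rtake n) (q₁.r.rtake n) at h7
          rwa [h8] at h7
        have hlow'' : LowV X (q₁.m :: q₁.s) ((q₁.r.rdrop n ++ q.r.rtake n).rdrop n ++
            q₁.r.rtake n) := by
          rw [hrt.1]
          exact hrep q₁ ht₁ _ (htail q₁ ht₁)
        refine ⟨q₁.r.rtake n, h6, htail q₁ ht₁, hlow'', ?_⟩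
        refine V2dec.mono hR ?_ hdec
        refine Cond.Dle.le ⟨rfl, rfl, ?_, Up.Le.refl _ _⟩
        change List.Forall₂ Sub q₁.r ((q₁.r.rdrop n ++ q.r.rtake n).rdrop n ++ q₁.r.rtake n)
        rw [hrt.1, V2_rd]
        exact V2_fs_refl _
    · exact ⟨q, ⟨Cond.Dle.refl q, rfl⟩, fun _ h => absurd h hsub⟩)
  have ht : q.t = t₁ ++ m :: t₀ := by
    rw [← hp]
    unfold Cond.t
    rw [hqp.1.m, hqp.1.s]
  have hqle : q ≤ p := hqp.1.le
  refine ⟨q, hqp.1, fun a => {b | ∃ r' : List (PF Ω), LowV X (m :: t₀) r' ∧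
    ∃ h : LowV X (q.m :: q.s) (q.r.rdrop n ++ r'), V2rep q n r' h ≤ p ∧
      ∀ q' ≤ V2rep q n r' h, ∃ q'' ≤ q', R q'' a b}, ?_, ?_⟩
  · intro a
    refine le_trans ?_ (mk_low_le (X := X) (m := m) (s := t₀))
    refine Cardinal.mk_le_of_injective (f := fun b => ⟨b.2.choose, b.2.choose_spec.1⟩) ?_
    intro b b' hbb
    have h1 : b.2.choose = b'.2.choose := congrArg Subtype.val hbb
    obtain ⟨-, h2, h3, h4⟩ := b.2.choose_spec
    obtain ⟨-, h2', h3', h4'⟩ := b'.2.choose_spec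
    have h5 : V2rep q n b.2.choose h2 = V2rep q n b'.2.choose h2' := V2rep_congr h2 h2' h1
    rw [← h5] at h4'
    obtain ⟨q1, l1, r1⟩ := h4 _ le_rfl
    obtain ⟨q2, l2, r2⟩ := h4' _ l1
    exact Subtype.ext (hR.uniq q2 (l2.trans (l1.trans h3)) a _ _ (hR.mono _ _ _ _ l2 r1) r2)
  · intro q' hq' a b hab
    -- the lower part of `q'`
    have hr₁ : List.Forall₂ Sub q.r (q'.r.rtake q.len) := V2_ext_r hq'
    have hlen' : q.len = t₁.length + n := by
      rw [← hlen q ht]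
      exact (V2_len _ q.low).symm
    have hlow₁ : LowV X (t₁ ++ m :: t₀) (q'.r.rtake q.len) := by
      obtain ⟨t₂, ht₂⟩ := Cond.le_t hq'
      have h1 : LowV X (t₂ ++ (t₁ ++ m :: t₀)) q'.r := by
        rw [← ht, ht₂]
        exact q'.low
      have h2 := V2_len _ h1
      have h3 : (q'.r.rdrop q.len).length = t₂.length := by
        rw [V2_rd_len, h2, List.length_append, ← ht]
        exact Nat.add_sub_cancel _ _
      rw [← V2_rd q'.r q.len] at h1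
      exact V2_tail t₂ h3 h1
    have hlow₀ : LowV X (m :: t₀) (q'.r.rtake n) := by
      have h1 := V2_low_tail hlow₁
      rwa [V2_rt_rt (by omega : t₀.length + 1 ≤ q.len)] at h1
    have hsub₀ : List.Forall₂ Sub (q.r.rtake n) (q'.r.rtake n) := by
      have h1 := V2_fa_rt hr₁ n
      rwa [V2_rt_rt (by omega : n ≤ q.len)] at h1
    obtain ⟨r', hr', hlr', hlow', hdec⟩ := hqS (a, ⟨q'.r.rtake n, hlow₀⟩) ht hsub₀
    have hfull : LowV X (t₁ ++ m :: t₀) ((q'.r.rtake q.len).rdrop n ++ r') := V2_low hlow₁ hlr'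
    have hfull' : LowV X q.t ((q'.r.rtake q.len).rdrop n ++ r') := by rwa [ht]
    have hsub₁ : List.Forall₂ Sub (q'.r.rtake q.len) ((q'.r.rtake q.len).rdrop n ++ r') := by
      have h1 : List.Forall₂ Sub ((q'.r.rtake q.len).rdrop n ++ (q'.r.rtake q.len).rtake n)
          ((q'.r.rtake q.len).rdrop n ++ r') := by
        refine V2_fa_app (V2_fs_refl _) ?_
        rw [V2_rt_rt (by omega : n ≤ q.len)]
        exact hr'
      rwa [V2_rd] at h1
    obtain ⟨q'', hq'', hq''c⟩ := Cond.exists_common hfull' (V2_fs_trans hr₁ hsub₁) hq' hsub₁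
    have hle : q'' ≤ V2rep q n r' hlow' := by
      refine hq''c.trans (Cond.Dle.le ⟨rfl, rfl, ?_, Up.Le.refl _ _⟩)
      exact V2_fa_app (V2_fa_rd hr₁ n) (V2_fs_refl _)
    have hR₁ : R q'' a b := hR.mono _ _ _ _ hq'' hab
    rcases hdec with ⟨b', hb'⟩ | hno
    · obtain ⟨q3, l3, r3⟩ := hb' q'' hle
      have h2 : b = b' := hR.uniq q3 (l3.trans (hq''.trans (hq'.trans hqle))) a b b'
        (hR.mono _ _ _ _ l3 hR₁) r3
      subst h2
      refine ⟨r', hlr', hlow', ?_, hb'⟩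
      exact (V2rep_dle hlow' (V2_fs_trans hsub₀ hr')).le.trans hqle
    · exact absurd hR₁ (hno q'' hle b)

/-! ### Row V3: helper lemmas -/

lemma V3_length {t : List Ω} {r : List (PF Ω)} (h : LowV X t r) : r.length = t.length := by
  induction t generalizing r with
  | nil =>
    cases r with
    | nil => rfl
    | cons c r => exact absurd h (by simp [LowV])
  | cons m t ih =>
    cases r with
    | nil => exact absurd h (by simp [LowV])
    | cons c r => rw [List.length_cons, List.length_cons, ih h.2.2.2.2]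

/-- The lower part of a suffix of the stem. -/
lemma V3_low_drop {t₁ t₀ : List Ω} {r : List (PF Ω)} (h : LowV X (t₁ ++ t₀) r) :
    LowV X t₀ (r.drop t₁.length) := by
  induction t₁ generalizing r with
  | nil => simpa using h
  | cons m t ih =>
    cases r with
    | nil => exact absurd h (by simp [LowV])
    | cons c r =>
      have h1 : LowV X (t ++ t₀) r := h.2.2.2.2
      simpa using ih h1

lemma V3_rtake {p q : Cond Ω X} (h : q ≤ p) : LowV X p.t (q.r.rtake p.len) := by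
  obtain ⟨t₁, ht⟩ := Cond.le_t h
  have hq : LowV X q.t q.r := q.low
  have hl := V3_length hq
  rw [← ht] at hq
  have h2 := V3_low_drop hq
  have h3 : q.r.length - p.len = t₁.length := by
    rw [hl, ← ht, List.length_append]
    change t₁.length + (p.m :: p.s).length - (p.m :: p.s).length = t₁.length
    omega
  unfold List.rtake
  rw [h3]
  exact h2

lemma V3_forall₂_triv {n : ℕ} {r : List (PF Ω)} (h : r.length = n) :
    List.Forall₂ Sub (Cond.triv n) r := by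
  unfold Cond.triv
  induction r generalizing n with
  | nil =>
    subst h
    exact List.Forall₂.nil
  | cons c r ih =>
    subst h
    exact List.Forall₂.cons (fun a b hab => absurd hab (by simp)) (ih rfl)

/-- Deciding at all lower parts of the stem of `p`. -/
theorem V3_meet {A : Type} (p : Cond Ω X) (hA : #A ≤ sc 3 (crd p.m)) (Dec : A → Set (Cond Ω X))
    (hDec : ∀ a (q q' : Cond Ω X), q'.Dle q → q ∈ Dec a → q' ∈ Dec a)
    (hd : ∀ a (q : Cond Ω X), ∃ q' : Cond Ω X, q'.Dle q ∧ q' ∈ Dec a) :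
    ∃ (u : Up Ω X) (hu : u.V p.m), u.Le p.m p.u ∧ ∀ a (q : Cond Ω X),
      q ≤ (p.withU u hu).erase → ∃ (r : List (PF Ω)) (hr : LowV X p.t r),
        (⟨p.m, p.s, r, u, hr, hu⟩ : Cond Ω X) ∈ Dec a ∧
          ∃ q' ≤ q, q' ≤ (⟨p.m, p.s, r, u, hr, hu⟩ : Cond Ω X) := by
  have hm : p.m ∈ D.W := p.low.mem_W
  have hinf : ℵ₀ ≤ sc 3 (crd p.m) :=
    (aleph0_lt_crd hm).le.trans (sc_le (Nat.zero_le 3) (crd p.m))
  have hι : #(A × {r : List (PF Ω) // LowV X (p.m :: p.s) r}) ≤ sc 3 (crd p.m) := by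
    rw [mk_prod, lift_id, lift_id]
    exact mul_le_of_le hinf hA ((mk_low_le (X := X)).trans (sc_le (Nat.zero_le 3) (crd p.m)))
  obtain ⟨u, hu, hle, hS⟩ := Up.meet hm hι
    (fun i => {v : Up Ω X | ∀ hv : v.V p.m, ∃ (r' : List (PF Ω)) (hr' : LowV X p.t r'),
      List.Forall₂ Sub i.2.1 r' ∧ (⟨p.m, p.s, r', v, hr', hv⟩ : Cond Ω X) ∈ Dec i.1})
    (by
      intro i v v' hv hv' hle hvS hv''
      obtain ⟨r', hr', h1, h2⟩ := hvS hv
      have h3 : (⟨p.m, p.s, r', v', hr', hv''⟩ : Cond Ω X).Dle ⟨p.m, p.s, r', v, hr', hv⟩ :=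
        ⟨rfl, rfl, List.forall₂_same.2 fun c _ => Sub.refl c, hle⟩
      exact ⟨r', hr', h1, hDec _ _ _ h3 h2⟩)
    (by
      intro i v hv
      obtain ⟨q', h1, h2⟩ := hd i.1 (⟨p.m, p.s, i.2.1, v, i.2.2, hv⟩ : Cond Ω X)
      obtain ⟨m', s', r', v', hr', hv'⟩ := q'
      have e1 : m' = p.m := h1.m
      have e2 : s' = p.s := h1.s
      subst e1
      subst e2
      exact ⟨v', hv', h1.u, fun hv'' => ⟨r', hr', h1.r, h2⟩⟩)
    p.u p.up
  refine ⟨u, hu, hle, fun a q hq => ?_⟩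
  have h1 : LowV X p.t (q.r.rtake p.len) := V3_rtake (p := (p.withU u hu).erase) hq
  obtain ⟨r', hr', h2, h3⟩ := hS (a, ⟨q.r.rtake p.len, h1⟩) hu
  refine ⟨r', hr', h3, ?_⟩
  have h4 : List.Forall₂ Sub ((p.withU u hu).erase).r r' :=
    V3_forall₂_triv (V3_length hr')
  exact Cond.exists_common (p := (p.withU u hu).erase) hr' h4 hq h2

/-- The covering lemma at `κ_j`, upper part only. -/
theorem cover_upper {A B : Type} (hB : #B < D.κ) {p₀ : Cond Ω X}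
    {R : Cond Ω X → A → B → Prop} (hR : FN p₀ R) (p : Cond Ω X) (hA : #A ≤ sc 3 (crd p.m)) :
    ∃ (u : Up Ω X) (hu : u.V p.m), u.Le p.m p.u ∧ ∃ Y : A → Set B, (∀ a, #(Y a) ≤ crd p.m) ∧
      ∀ q ≤ (p.withU u hu).erase, q ≤ p₀ → ∀ a b, R q a b → b ∈ Y a := by
  have hR' : ∀ q : Cond Ω X, FN q (fun q a b => q ≤ p₀ ∧ R q a b) := fun q =>
    ⟨fun q q' a b h h1 => ⟨h.trans h1.1, hR.mono _ _ _ _ h h1.2⟩,
      fun q' _ a b b' h1 h2 => hR.uniq q' h1.1 a b b' h1.2 h2.2⟩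
  obtain ⟨u, hu, hle, hS⟩ := V3_meet p hA
    (fun a => {q | (∃ b, ∀ q' ≤ q, ∃ q'' ≤ q', q'' ≤ p₀ ∧ R q'' a b) ∨
      ∀ q' ≤ q, ∀ b, ¬ (q' ≤ p₀ ∧ R q' a b)})
    (by
      rintro a q q' h (⟨b, h1⟩ | h1)
      · exact Or.inl ⟨b, fun q'' hq'' => h1 q'' (hq''.trans h.le)⟩
      · exact Or.inr fun q'' hq'' b => h1 q'' (hq''.trans h.le) b)
    (fun a q => decide_small hB (hR' q) a q le_rfl)
  refine ⟨u, hu, hle, fun a => {b | ∃ (r : List (PF Ω)) (hr : LowV X p.t r),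
    ∀ q' ≤ (⟨p.m, p.s, r, u, hr, hu⟩ : Cond Ω X), ∃ q'' ≤ q', q'' ≤ p₀ ∧ R q'' a b},
      fun a => ?_, ?_⟩
  · refine le_trans ?_ (mk_low_le (X := X) (m := p.m) (s := p.s))
    refine mk_le_of_injective (f := fun b => (⟨b.2.choose, b.2.choose_spec.choose⟩ :
      {r : List (PF Ω) | LowV X (p.m :: p.s) r})) ?_
    intro b b' h
    have h0 : b.2.choose = b'.2.choose := congrArg Subtype.val h
    have h1 := b.2.choose_spec.choose_spec
    have h2 := b'.2.choose_spec.choose_spec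
    apply Subtype.ext
    have h3 : ∀ (r r' : List (PF Ω)) (hr : LowV X p.t r) (hr' : LowV X p.t r'), r = r' →
        (∀ q' ≤ (⟨p.m, p.s, r, u, hr, hu⟩ : Cond Ω X), ∃ q'' ≤ q', q'' ≤ p₀ ∧ R q'' a b.1) →
        (∀ q' ≤ (⟨p.m, p.s, r', u, hr', hu⟩ : Cond Ω X), ∃ q'' ≤ q', q'' ≤ p₀ ∧ R q'' a b'.1) →
        b.1 = b'.1 := by
      intro r r' hr hr' e h4 h5
      subst e
      obtain ⟨q1, l1, l1', r1⟩ := h4 _ le_rfl
      obtain ⟨q2, l2, l2', r2⟩ := h5 _ l1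
      exact hR.uniq q2 l2' a _ _ (hR.mono _ _ _ _ l2 r1) r2
    exact h3 _ _ _ _ h0 h1 h2
  · intro q hq hq0 a b hab
    obtain ⟨r, hr, h1, q', hq', hq''⟩ := hS a q hq
    refine ⟨r, hr, ?_⟩
    have h2 : q' ≤ p₀ ∧ R q' a b := ⟨hq'.trans hq0, hR.mono _ _ _ _ hq' hab⟩
    rcases h1 with ⟨b', h3⟩ | h1
    · obtain ⟨q3, l3, l3', r3⟩ := h3 q' hq''
      have h6 : b = b' := hR.uniq q3 l3' a b b' (hR.mono _ _ _ _ l3 h2.2) r3
      rw [h6]
      exact h3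
    · exact absurd h2 (h1 q' hq'' b)

theorem cover_upper_κ {A B : Type} {p₀ : Cond Ω X}
    {R : Cond Ω X → A → B → Prop} (hR : FN p₀ R) (p : Cond Ω X) (hA : #A ≤ sc 3 (crd p.m)) :
    ∃ (u : Up Ω X) (hu : u.V p.m), u.Le p.m p.u ∧ ∃ Y : Set B, #Y ≤ D.κ ∧
      ∀ q ≤ (p.withU u hu).erase, q ≤ p₀ → ∀ a b, R q a b → b ∈ Y := by
  classical
  have hR' : ∀ q : Cond Ω X, FN q (fun q a b => q ≤ p₀ ∧ R q a b) := fun q =>
    ⟨fun q q' a b h h1 => ⟨h.trans h1.1, hR.mono _ _ _ _ h h1.2⟩,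
      fun q' _ a b b' h1 h2 => hR.uniq q' h1.1 a b b' h1.2 h2.2⟩
  obtain ⟨u, hu, hle, hS⟩ := V3_meet p hA
    (fun a => {q | ∃ Y : Set B, #Y ≤ D.κ ∧ ∀ q' ≤ q, ∀ b, (q' ≤ p₀ ∧ R q' a b) → b ∈ Y})
    (by
      rintro a q q' h ⟨Y, h1, h2⟩
      exact ⟨Y, h1, fun q'' hq'' b => h2 q'' (hq''.trans h.le) b⟩)
    (fun a q => cover_κ (hR' q) a q le_rfl)
  let Z : A × {r : List (PF Ω) // LowV X p.t r} → Set B := fun i =>
    if h : ∃ Y : Set B, #Y ≤ D.κ ∧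
      ∀ q' ≤ (⟨p.m, p.s, i.2.1, u, i.2.2, hu⟩ : Cond Ω X), ∀ b, (q' ≤ p₀ ∧ R q' i.1 b) → b ∈ Y
    then h.choose else ∅
  have hκ : ℵ₀ ≤ D.κ := D.κ_inacc.aleph0_lt.le
  have hm : p.m ∈ D.W := p.low.mem_W
  refine ⟨u, hu, hle, ⋃ i, Z i, mk_iUnion_le hκ ?_ Z ?_, ?_⟩
  · rw [mk_prod, lift_id, lift_id]
    refine mul_le_of_le hκ (hA.trans (sc_crd_lt_κ (X := X) p.m 3).le) ?_
    exact (mk_low_le (X := X) (m := p.m) (s := p.s)).trans (D.crd_lt p.m).le
  · intro i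
    by_cases h : ∃ Y : Set B, #Y ≤ D.κ ∧
      ∀ q' ≤ (⟨p.m, p.s, i.2.1, u, i.2.2, hu⟩ : Cond Ω X), ∀ b, (q' ≤ p₀ ∧ R q' i.1 b) → b ∈ Y
    · simp only [Z, dif_pos h]
      exact h.choose_spec.1
    · simp only [Z, dif_neg h]
      simp
  · intro q hq hq0 a b hab
    obtain ⟨r, hr, h1, q', hq', hq''⟩ := hS a q hq
    refine Set.mem_iUnion.2 ⟨(a, ⟨r, hr⟩), ?_⟩
    have h2 : q' ≤ p₀ ∧ R q' a b := ⟨hq'.trans hq0, hR.mono _ _ _ _ hq' hab⟩
    have h : ∃ Y : Set B, #Y ≤ D.κ ∧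
      ∀ q' ≤ (⟨p.m, p.s, r, u, hr, hu⟩ : Cond Ω X), ∀ b, (q' ≤ p₀ ∧ R q' a b) → b ∈ Y := h1
    simp only [Z, dif_pos h]
    exact h.choose_spec.2 q' hq'' b h2

/-- VC1: the cardinals `κ_n^{+i}`, `1 ≤ i ≤ 4`, are preserved. -/
theorem preserve_small {A B : Type} {p : Cond Ω X} {n i : ℕ} (hn : n < p.len) (hi : 1 ≤ i)
    (hi' : i ≤ 4) (hA : #A < #B) (hB : #B = sc i (crd (p.pt n)))
    {R : Cond Ω X → A → B → Prop} (hR : FN p R) :
    ∃ q ≤ p, ∃ b, ∀ q' ≤ q, ∀ a, ¬ R q' a b := by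
  obtain ⟨t₁, t₀, ht⟩ : ∃ t₁ t₀ : List Ω, p.t = t₁ ++ p.pt n :: t₀ := by
    have h1 : p.pt n ∈ p.t := by
      unfold Cond.pt
      have h2 : n < p.t.reverse.length := by
        rw [List.length_reverse]
        exact hn
      rw [List.getElem?_eq_getElem h2, Option.getD_some, ← List.mem_reverse]
      exact List.getElem_mem h2
    obtain ⟨t₁, t₀, h⟩ := List.append_of_mem h1
    exact ⟨t₁, t₀, h⟩
  have hW : p.pt n ∈ D.W := Cond.pt_mem_W p hn
  obtain ⟨j, rfl⟩ : ∃ j, i = j + 1 := ⟨i - 1, by omega⟩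
  have hA1 : #A ≤ sc j (crd (p.pt n)) := by
    rw [hB] at hA
    exact Order.lt_succ_iff.1 hA
  have hA2 : #A ≤ sc 3 (crd (p.pt n)) := hA1.trans (sc_le (by omega) _)
  have hB1 : #B < D.κ := by
    rw [hB]
    exact sc_crd_lt_κ _ _
  obtain ⟨q, hq, Y, hY, hRY⟩ := cover_small hA2 hB1 ht hR
  have hinf : ℵ₀ ≤ sc j (crd (p.pt n)) :=
    (aleph0_lt_crd hW).le.trans (sc_le (Nat.zero_le j) _)
  have hU : #(⋃ a, Y a) ≤ sc j (crd (p.pt n)) :=
    mk_iUnion_le hinf hA1 Y fun a => (hY a).trans (sc_le (Nat.zero_le j) _)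
  have hne : ∃ b, b ∉ ⋃ a, Y a := by
    by_contra hcon
    push Not at hcon
    have h1 : (⋃ a, Y a) = Set.univ := Set.eq_univ_of_forall hcon
    rw [h1, Cardinal.mk_univ, hB] at hU
    exact absurd hU (not_le.2 (Order.lt_succ _))
  obtain ⟨b, hb⟩ := hne
  refine ⟨q, hq.le, b, fun q' hq' a hab => hb ?_⟩
  exact Set.mem_iUnion.2 ⟨a, hRY q' hq' a b hab⟩

/-- VC2: `κ⁺` is preserved. -/
theorem preserve_succ {A B : Type} {p : Cond Ω X} (hA : #A ≤ D.κ) (hB : #B = succ D.κ)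
    {R : Cond Ω X → A → B → Prop} (hR : FN p R) :
    ∃ q ≤ p, ∃ b, ∀ q' ≤ q, ∀ a, ¬ R q' a b := by
  have hAe : Nonempty (A ↪ Ω) := by
    rw [← Cardinal.le_def, D.mk_Ω]
    exact hA
  obtain ⟨e⟩ := hAe
  let Φ : Ω → List Ω → Set (Up Ω X) := fun m s =>
    {v | ∀ (h : LowV X (m :: s) (Cond.triv (m :: s).length)) (hv : v.V m),
      ∃ Y : Set B, #Y ≤ D.κ ∧ ∀ q ≤ (⟨m, s, Cond.triv (m :: s).length, v, h, hv⟩ : Cond Ω X),
        q ≤ p → ∀ a, e a < m → ∀ b, R q a b → b ∈ Y}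
  obtain ⟨u, hu, hle, hΦ⟩ := multi Φ (by
    intro m s v v' hm hv hv' hvv hin h hv''
    obtain ⟨Y, hY, hq⟩ := hin h hv
    refine ⟨Y, hY, fun q hqv => hq q (hqv.trans ?_)⟩
    exact Cond.Dle.le ⟨rfl, rfl, V2_fs_refl _, hvv⟩) (by
    intro m s v hlow hv
    have hc : #{a : A // e a < m} ≤ sc 3 (crd m) := by
      refine le_trans ?_ (sc_le (Nat.zero_le 3) (crd m))
      refine Cardinal.mk_le_of_injective (f := fun a : {a : A // e a < m} =>
        (⟨e a.1, a.2⟩ : Set.Iio m)) ?_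
      intro a a' haa
      exact Subtype.ext (e.injective (congrArg Subtype.val haa))
    have hR' : FN p (fun q (a : {a : A // e a < m}) b => R q a.1 b) :=
      ⟨fun q q' a b => hR.mono q q' a.1 b, fun q hq a b b' => hR.uniq q hq a.1 b b'⟩
    obtain ⟨u, hu, hle, Y, hY, hq⟩ := cover_upper_κ hR'
      (⟨m, s, Cond.triv (m :: s).length, v, hlow, hv⟩ : Cond Ω X) hc
    refine ⟨u, hu, hle, fun h hv' => ⟨Y, hY, fun q hqu hqp a ha b hab => ?_⟩⟩
    exact hq q hqu hqp ⟨a, ha⟩ b hab) p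
  set q : Cond Ω X := p.withU u hu with hqdef
  have hqp : q ≤ p := (Cond.withU_dle hu hle).le
  -- the sets of values
  have hex : ∀ q₀ : {q₀ : Cond Ω X | q.Reach q₀}, ∃ Y : Set B, #Y ≤ D.κ ∧
      ∀ q' ≤ q₀.1.erase, q' ≤ p → ∀ a, e a < q₀.1.m → ∀ b, R q' a b → b ∈ Y := by
    intro q₀
    exact hΦ q₀.1 q₀.2 (Cond.low_triv q₀.1.low) q₀.1.up
  choose Y hY hYR using hex
  have hU : #(⋃ q₀, Y q₀) ≤ D.κ :=
    mk_iUnion_le D.κ_inacc.aleph0_lt.le (Cond.mk_reach q) Y hY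
  have hne : ∃ b, b ∉ ⋃ q₀, Y q₀ := by
    by_contra hcon
    push Not at hcon
    have h1 : (⋃ q₀, Y q₀) = Set.univ := Set.eq_univ_of_forall hcon
    rw [h1, Cardinal.mk_univ, hB] at hU
    exact absurd hU (not_le.2 (Order.lt_succ _))
  obtain ⟨b, hb⟩ := hne
  refine ⟨q, hqp, b, fun q' hq' a hab => hb ?_⟩
  obtain ⟨q'', hq'', -, hm⟩ := Cond.exists_len q' 0 (e a)
  obtain ⟨q₀, hq₀, hd⟩ := Cond.exists_reach (hq''.trans hq')
  refine Set.mem_iUnion.2 ⟨⟨q₀, hq₀⟩, ?_⟩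
  refine hYR ⟨q₀, hq₀⟩ q'' (hd.le.trans (Cond.dle_erase q₀).le)
    (hq''.trans (hq'.trans hqp)) a ?_ b (hR.mono _ _ _ _ hq'' hab)
  change e a < q₀.m
  rw [← hd.m]
  exact hm

end Pool.PC
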