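import Mathlib

/-!
# Prikry data: the interface to the large cardinal

`crd a` is the cardinality of the set of predecessors of `a`.  An element `a` of the
well-ordered type `Ω` (of order type `κ`) is an ordinal below a cardinal `θ` iff `crd a < θ`.
-/

set_option autoImplicit false

open Cardinal Set Order

namespace Pool.PC

/-- The cardinality of the ordinal `a`. -/
noncomputable def crd {Ω : Type} [LinearOrder Ω] (a : Ω) : Cardinal.{0} := #(Iio a)

/-- The `i`-th successor cardinal. -/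
noncomputable def sc : ℕ → Cardinal.{0} → Cardinal.{0}
  | 0, c => c
  | i + 1, c => succ (sc i c)

/-- Everything we need about the ordinals below `κ` and about the measure. -/
class PD (Ω : Type) [LinearOrder Ω] [WellFoundedLT Ω] (X : Type) where
  /-- the large cardinal -/
  κ : Cardinal.{0}
  /-- the measure -/
  U : Ultrafilter X
  /-- the ordinal `x ∩ κ` -/
  kx : X → Ω
  /-- the set of the good inaccessible cardinals below `κ` -/
  W : Set Ω
  κ_inacc : κ.IsInaccessible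
  mk_Ω : #Ω = κ
  crd_lt : ∀ a : Ω, crd a < κ
  two_κ : (2 : Cardinal.{0}) ^ κ = succ κ
  two_κs : (2 : Cardinal.{0}) ^ (succ κ) = succ (succ κ)
  mk_X : #X ≤ succ κ
  W_init : ∀ m ∈ W, ∀ a < m, crd a < crd m
  W_inacc : ∀ m ∈ W, (crd m).IsInaccessible
  W_two : ∀ m ∈ W, (2 : Cardinal.{0}) ^ (crd m) = succ (crd m)
  kx_W : ∀ᶠ x in (U : Filter X), kx x ∈ W
  unb : ∀ a : Ω, ∀ᶠ x in (U : Filter X), a < kx x
  diag : ∀ {Z : Type} (rk : Z → Ω) (B : Z → Set X), (∀ a : Ω, #{z | rk z < a} < κ) →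
    (∀ z, B z ∈ U) → ∀ᶠ x in (U : Filter X), ∀ z, rk z < kx x → x ∈ B z
  bound1 : ∀ H : X → Ω, (∀ᶠ x in (U : Filter X), crd (H x) < sc 1 (crd (kx x))) →
    ∃ F : Ω → Ω, (∀ m ∈ W, crd (F m) < sc 1 (crd m)) ∧ ∀ᶠ x in (U : Filter X), H x ≤ F (kx x)
  bound2 : ∀ {S : Type} (_ : #S ≤ succ κ) (i : ℕ) (_ : 2 ≤ i) (h : S → X → Ω),
    (∀ s, ∀ᶠ x in (U : Filter X), crd (h s x) < sc i (crd (kx x))) →
    ∃ g : X → Ω, (∀ x, crd (g x) < sc i (crd (kx x))) ∧ ∀ s, ∀ᶠ x in (U : Filter X), h s x < g x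

end Pool.PC
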