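import Pool.Agent.Lib.MP_ad72f3_pc.Pat
import Pool.Agent.Lib.MP_3ade05_lc.Val
import Pool.Agent.Lib.MP_3ade05_lc.Model

/-!
# Properties of generic hulls (N-side)

`Ev Q`: there are countably many tasks such that every countable set `U` of names and every
filter `H` which meet them satisfy `Q`.
-/

set_option autoImplicit false
set_option linter.unusedSectionVars false

open Cardinal Set Order

namespace Pool.PC

open Pool.MP_3ade05_lc

variable {P : Type 1} [Preorder P]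

/-- The property `Q` holds for all generic hulls. -/
def Ev (Q : Set (Name P) → Set P → Prop) : Prop :=
  ∃ T : Set (Task (Name P) P), T.Countable ∧ ∀ U H, U.Countable → IsFilt H →
    (∀ R ∈ T, Meets U H R) → Q U H

namespace Ev

/-- Task E. -/
lemma mono {Q Q' : Set (Name P) → Set P → Prop} (h : Ev Q) (h' : ∀ U H, Q U H → Q' U H) :
    Ev Q' := by
  obtain ⟨T, hT, h⟩ := h
  exact ⟨T, hT, fun U H hU hH hm => h' U H (h U H hU hH hm)⟩

lemma and {Q Q' : Set (Name P) → Set P → Prop} (h : Ev Q) (h' : Ev Q') :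
    Ev (fun U H => Q U H ∧ Q' U H) := by
  obtain ⟨T, hT, h⟩ := h
  obtain ⟨T', hT', h'⟩ := h'
  exact ⟨T ∪ T', hT.union hT', fun U H hU hH hm =>
    ⟨h U H hU hH fun R hR => hm R (Or.inl hR), h' U H hU hH fun R hR => hm R (Or.inr hR)⟩⟩

lemma all {ι : Type} [Countable ι] {Q : ι → Set (Name P) → Set P → Prop} (h : ∀ i, Ev (Q i)) :
    Ev (fun U H => ∀ i, Q i U H) := by
  choose T hT h using h
  exact ⟨⋃ i, T i, countable_iUnion hT, fun U H hU hH hm i =>
    h i U H hU hH fun R hR => hm R (mem_iUnion.2 ⟨i, hR⟩)⟩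

lemma filt : Ev (P := P) (fun U H => U.Countable ∧ IsFilt H) :=
  ⟨∅, countable_empty, fun _ _ hU hH _ => ⟨hU, hH⟩⟩

lemma task (R : Task (Name P) P) : Ev (P := P) (fun U H => Meets U H R) :=
  ⟨{R}, countable_singleton R, fun _ _ _ _ h => h R rfl⟩

lemma of_true {Q : Set (Name P) → Set P → Prop} (h : ∀ U H, Q U H) : Ev Q :=
  ⟨∅, countable_empty, fun U H _ _ _ => h U H⟩

/-- Closure under operations. -/
lemma op {n : ℕ} (F : (Fin n → Name P) → Name P) :
    Ev (fun U _ => ∀ v : Fin n → Name P, (∀ i, v i ∈ U) → F v ∈ U) := by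
  refine (filt.and (task (TF n fun v _ ρ => ρ = F v))).mono fun U H h v hv => ?_
  rcases meets_TF h.2 v hv with ⟨q, _, ρ, hρ, rfl⟩ | ⟨p, _, hn⟩
  · exact hρ
  · exact absurd rfl (hn p le_rfl (F v))

/-- Genericity: a relation of `n` parameters, a condition and an answer is either realized by an
element of `H` with an answer in `U` or excluded by an element of `H`. -/
lemma gen {n : ℕ} (R : (Fin n → Name P) → P → Name P → Prop) :
    Ev (fun U H => ∀ v : Fin n → Name P, (∀ i, v i ∈ U) →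
      (∃ q ∈ H, ∃ ρ ∈ U, R v q ρ) ∨ (∃ p ∈ H, ∀ q ≤ p, ∀ ρ, ¬ R v q ρ)) :=
  (task (TF n R)).mono fun _ _ h v hv => meets_TF h v hv

/-- Genericity without answer. -/
lemma gen' {n : ℕ} (R : (Fin n → Name P) → P → Prop) :
    Ev (fun U H => ∀ v : Fin n → Name P, (∀ i, v i ∈ U) →
      (∃ q ∈ H, R v q) ∨ (∃ p ∈ H, ∀ q ≤ p, ¬ R v q)) := by
  refine (gen (n := n) (fun v q _ => R v q)).mono fun U H h v hv => ?_
  rcases h v hv with ⟨q, hq, _, _, hR⟩ | ⟨p, hp, hn⟩
  · exact Or.inl ⟨q, hq, hR⟩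
  · exact Or.inr ⟨p, hp, fun q hq => hn q hq (Name.mk Empty Empty.elim Empty.elim)⟩

lemma full : Ev (P := P) (fun U H => Name.Full U H univ) := by
  have h1 : Ev (P := P) (fun U H => ∀ n : ℕ, ∀ φ : Fml n, Meets U H (Name.decT univ φ)) :=
    all fun n => all fun φ => task _
  have h2 : Ev (P := P) (fun U H => ∀ n : ℕ, ∀ φ : Fml (n + 1), Meets U H (Name.allT univ φ)) :=
    all fun n => all fun φ => task _
  refine ((filt.and ((task Name.memT).and (task Name.neqT))).and (h1.and h2)).mono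
    fun U H h => ?_
  exact ⟨⟨h.1.1.2, h.1.2.1, h.1.2.2⟩, fun φ => h.2.1 _ φ, fun φ => h.2.2 _ φ⟩

/-- Existence of generic hulls. -/
lemma exists_hull {Q : Set (Name P) → Set P → Prop} (h : Ev Q) (p₀ : P) :
    ∃ U H, U.Countable ∧ IsFilt H ∧ p₀ ∈ H ∧ Q U H := by
  obtain ⟨T, hT, h⟩ := h
  obtain ⟨U, H, hU, hH, hp, hm⟩ := exists_generic T hT p₀
  exact ⟨U, H, hU, hH, hp, h U H hU hH hm⟩

end Ev

/-- The model given by a hull. -/
noncomputable abbrev MM (U : Set (Name P)) (H : Set P) : Set ZFSet.{0} := Name.Mod U H univ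

lemma MM_trans {U : Set (Name P)} {H : Set P} {x y : ZFSet.{0}} (hx : x ∈ MM U H) (hy : y ∈ x) :
    y ∈ MM U H := by
  obtain ⟨σ, _, _, rfl⟩ := hx
  obtain ⟨k, hk, _, rfl⟩ := Name.mem_val.1 hy
  exact ⟨σ.A k, mem_univ _, hk, rfl⟩

lemma MM_countable {U : Set (Name P)} {H : Set P} (hU : U.Countable) : (MM U H).Countable := by
  refine (hU.image (Name.val U H)).mono ?_
  rintro x ⟨σ, _, hσ, rfl⟩
  exact ⟨σ, hσ, rfl⟩

end Pool.PC
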