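import Pool.Agent.Lib.MP_ad72f3_pc.Nm
import Pool.Agent.Lib.MP_ad72f3_pc.Fam

/-!
# The generic model for the forcing `Cond Ω X`: points and alephs (N-side)
-/

set_option autoImplicit false
set_option linter.unusedSectionVars false

open Cardinal Set Order

namespace Pool.PC

open Pool.MP_3ade05_lc

variable (Ω : Type) [LinearOrder Ω] [WellFoundedLT Ω] (X : Type) [D : PD Ω X]

/-- The forcing notion, lifted. -/
abbrev PP : Type 1 := ULift.{1} (Cond Ω X)

variable {Ω X}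

/-- The ordinal (in the sense of Lean) given by an element of `Ω`. -/
noncomputable def oo (a : Ω) : Ordinal.{0} := Ordinal.typein (α := Ω) (· < ·) a

lemma card_oo (a : Ω) : (oo a).card = crd a := by
  exact (Ordinal.card_typein (r := ((· < ·) : Ω → Ω → Prop)) a).symm

lemma oo_lt_iff {a b : Ω} : oo a < oo b ↔ a < b := by
  unfold oo
  exact Ordinal.typein_lt_typein (r := ((· < ·) : Ω → Ω → Prop))

lemma oo_injective : Function.Injective (oo : Ω → Ordinal.{0}) := by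
  intro a b h
  exact Ordinal.typein_injective ((· < ·) : Ω → Ω → Prop) h

variable (Ω X) in
lemma type_eq : Ordinal.type ((· < ·) : Ω → Ω → Prop) = D.κ.ord := by
  have hcard : (Ordinal.type ((· < ·) : Ω → Ω → Prop)).card = D.κ := by
    rw [Ordinal.card_type, D.mk_Ω]
  apply le_antisymm
  · by_contra h
    rw [not_le] at h
    obtain ⟨a, ha⟩ := Ordinal.typein_surj ((· < ·) : Ω → Ω → Prop) h
    have h1 : crd a = D.κ := by
      have h2 := card_oo a
      unfold oo at h2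
      rw [← h2, ha, card_ord]
    exact (D.crd_lt a).ne h1
  · rw [ord_le, hcard]

variable (X) in
/-- The order type of `Ω` is `κ`. -/
lemma exists_oo {α : Ordinal.{0}} : α < D.κ.ord ↔ ∃ a : Ω, oo a = α := by
  rw [← type_eq Ω X]
  constructor
  · intro h
    exact Ordinal.typein_surj ((· < ·) : Ω → Ω → Prop) h
  · rintro ⟨a, rfl⟩
    exact Ordinal.typein_lt_type ((· < ·) : Ω → Ω → Prop) a

lemma oo_lt_ord {a : Ω} {c : Cardinal.{0}} : oo a < c.ord ↔ crd a < c := by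
  rw [lt_ord, card_oo]

/-- `K n` is the `n`-th generic point. -/
def Pts (H : Set (PP Ω X)) (K : ℕ → Ω) : Prop :=
  ∀ n, ∃ p ∈ H, n < p.down.len ∧ p.down.pt n = K n

/-- Task A1. -/
lemma Pts.eq {H : Set (PP Ω X)} (hH : IsFilt H) {K : ℕ → Ω} (hK : Pts H K) {p : PP Ω X}
    (hp : p ∈ H) {n : ℕ} (hn : n < p.down.len) : p.down.pt n = K n := by
  obtain ⟨q, hq, hnq, hqK⟩ := hK n
  obtain ⟨r, _, hrp, hrq⟩ := hH.dir p hp q hq
  have h1 : r.down.pt n = p.down.pt n := Cond.pt_of_le hrp hn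
  have h2 : r.down.pt n = q.down.pt n := Cond.pt_of_le hrq hnq
  rw [← h1, h2, hqK]

/-- The ordinal `ℵ_j` of the generic model, as an ordinal of the ground model:
`ℵ_(4n+i) = κ_n^{+i}` for `1 ≤ i ≤ 4`. -/
noncomputable def alO (K : ℕ → Ω) (j : ℕ) : Ordinal.{0} :=
  if j = 0 then Ordinal.omega0 else (sc ((j - 1) % 4 + 1) (crd (K ((j - 1) / 4)))).ord

lemma Pts.alO_eq {H : Set (PP Ω X)} (hH : IsFilt H) {K : ℕ → Ω} (hK : Pts H K) {q : PP Ω X}
    (hq : q ∈ H) {j : ℕ} (hj : known q.down j) : alO K j = (alc q.down j).ord := by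
  unfold alO alc
  by_cases h0 : j = 0
  · rw [if_pos h0, if_pos h0, ord_aleph0]
  · rw [if_neg h0, if_neg h0]
    have h1 : (j - 1) / 4 < q.down.len := by
      rcases hj with h | h
      · exact (h0 h).elim
      · exact h
    rw [Pts.eq hH hK hq h1]

/-- Basic properties of the hull. -/
structure GB (U : Set (Name (PP Ω X))) (H : Set (PP Ω X)) (K : ℕ → Ω) : Prop extends
    Base U H where
  pts : Pts H K
  unb : ∀ a : Ω, ordN _ (oo a) ∈ U → ∃ n, a < K n
  alO_mem : ∀ j, ordN _ (alO K j) ∈ U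
  κ_mem : ordN _ D.κ.ord ∈ U
  κs_mem : ordN _ (succ D.κ).ord ∈ U
  κss_mem : ordN _ (succ (succ D.κ)).ord ∈ U

/-- Task A1. -/
theorem Ev.gb : Ev (P := PP Ω X) (fun U H => ∃ K, GB U H K) := by
  have h1 := Ev.base (P := PP Ω X)
  have h2 : Ev (P := PP Ω X) (fun U H => ∀ n : ℕ, ∀ v : Fin 0 → Name (PP Ω X), (∀ i, v i ∈ U) →
      (∃ q ∈ H, n < q.down.len) ∨ (∃ p ∈ H, ∀ q ≤ p, ¬ n < q.down.len)) :=
    Ev.all fun n => Ev.gen' (fun (_ : Fin 0 → Name (PP Ω X)) (q : PP Ω X) => n < q.down.len)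
  have h3 : Ev (P := PP Ω X) (fun U H => ∀ v : Fin 1 → Name (PP Ω X), (∀ i, v i ∈ U) →
      (∃ q ∈ H, ∃ a : Ω, v 0 = ordN _ (oo a) ∧ a < q.down.m) ∨
      (∃ p ∈ H, ∀ q ≤ p, ¬ ∃ a : Ω, v 0 = ordN _ (oo a) ∧ a < q.down.m)) :=
    Ev.gen' (fun (v : Fin 1 → Name (PP Ω X)) (q : PP Ω X) =>
      ∃ a : Ω, v 0 = ordN _ (oo a) ∧ a < q.down.m)
  have h4 : Ev (P := PP Ω X) (fun U H => ∀ j : ℕ, (∃ q ∈ H, ∃ ξ, ordN (PP Ω X) ξ ∈ U ∧
      (known q.down j ∧ ξ = (alc q.down j).ord)) ∨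
      (∃ p ∈ H, ∀ q ≤ p, ∀ ξ, ¬ (known q.down j ∧ ξ = (alc q.down j).ord))) :=
    Ev.all fun j => Ev.ogen0 (fun (q : PP Ω X) (ξ : Ordinal.{0}) =>
      known q.down j ∧ ξ = (alc q.down j).ord)
  have h5 : ∀ ξ : Ordinal.{0}, Ev (P := PP Ω X) (fun U _ => ∀ v : Fin 0 → Name (PP Ω X),
      (∀ i, v i ∈ U) → ordN (PP Ω X) ξ ∈ U) := fun ξ => Ev.op (fun _ => ordN (PP Ω X) ξ)
  refine (h1.and (h2.and (h3.and (h4.and ((h5 D.κ.ord).and
    ((h5 (succ D.κ).ord).and (h5 (succ (succ D.κ)).ord))))))).mono ?_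
  rintro U H ⟨hB, hlen, hunb, halc, hκ, hκs, hκss⟩
  have hF := hB.filt
  have hlen' : ∀ n : ℕ, ∃ p ∈ H, n < p.down.len := by
    intro n
    rcases hlen n Fin.elim0 (fun i => i.elim0) with h | ⟨p, hp, h⟩
    · exact h
    · exfalso
      obtain ⟨q, hq, hqn, -⟩ := Cond.exists_len p.down (n + 1) p.down.m
      exact h (ULift.up q) hq hqn
  choose P hPH hPlen using hlen'
  have hpts : Pts H (fun n => (P n).down.pt n) := fun n => ⟨P n, hPH n, hPlen n, rfl⟩
  refine ⟨fun n => (P n).down.pt n, hB, hpts, ?_, ?_, hκ Fin.elim0 (fun i => i.elim0),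
    hκs Fin.elim0 (fun i => i.elim0), hκss Fin.elim0 (fun i => i.elim0)⟩
  · intro a ha
    rcases hunb (fun _ => ordN _ (oo a)) (fun _ => ha) with ⟨q, hq, b, hb, hbq⟩ | ⟨p, hp, h⟩
    · have hab : a = b := oo_injective (ordN_injective hb)
      refine ⟨q.down.len - 1, ?_⟩
      have hl : q.down.len - 1 < q.down.len := by
        have : 0 < q.down.len := Nat.succ_pos _
        omega
      rw [← Pts.eq hF hpts hq hl, Cond.pt_last, hab]
      exact hbq
    · exfalso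
      obtain ⟨q, hq, -, hqa⟩ := Cond.exists_len p.down 0 a
      exact h (ULift.up q) hq ⟨a, rfl, hqa⟩
  · intro j
    rcases halc j with ⟨q, hq, ξ, hξ, hk, rfl⟩ | ⟨p, hp, h⟩
    · rw [Pts.alO_eq hF hpts hq hk]
      exact hξ
    · exfalso
      obtain ⟨q, hq, hk⟩ := dense_known p.down j
      exact h (ULift.up q) hq _ ⟨hk, rfl⟩

instance : Small.{0} (PP Ω X) := inferInstanceAs (Small.{0} (ULift.{1} (Cond Ω X)))

/-- Task A5: for `q ∈ H` which decides `ℵ_j`. -/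
lemma GB.card_alO {U : Set (Name (PP Ω X))} {H : Set (PP Ω X)} {K : ℕ → Ω} (hB : GB U H K)
    {q : PP Ω X} (hq : q ∈ H) {j : ℕ} (hj : known q.down j) :
    alO K j = (alc q.down j).ord := Pts.alO_eq hB.filt hB.pts hq hj

namespace A2

lemma infCard_of {U : Set (Name (PP Ω X))} {H : Set (PP Ω X)} (hB : Base U H)
    {α : Ordinal.{0}} (hα : ordN _ α ∈ U) (hω : Ordinal.omega0 ≤ α)
    (h : ∀ δ < α, ordN _ δ ∈ U → ∀ f ∈ MM U H, FunOn f (Name.val U H (ordN _ δ)) →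
      ∃ y ∈ Name.val U H (ordN _ α), ∀ x ∈ Name.val U H (ordN _ δ), ZFSet.pair x y ∉ f) :
    InfCard (MM U H) (Name.val U H (ordN _ α)) where
  mem := ⟨ordN _ α, mem_univ _, hα, rfl⟩
  ord := isOrdinal_val_ordN hB α
  inf := by
    rw [← val_ordN_omega hB]
    exact (val_ordN_subset_iff hB hB.omega hα).2 hω
  card := by
    intro a ha f hf hfa
    obtain ⟨δ, hδ, hδU, rfl⟩ := (mem_val_ordN hB).1 ha
    exact h δ hδ hδU f hf hfa

/-- a name for a function on a finite set, one extension decides everything -/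
lemma finite_decide {P : Type 1} [Preorder P] {A B : Type} [Finite A] (p : P)
    (R : P → A → B → Prop) (hmono : ∀ q q' a b, q' ≤ q → R q a b → R q' a b) :
    ∃ q ≤ p, ∀ a, (∃ b, R q a b) ∨ ∀ q' ≤ q, ∀ b, ¬ R q' a b := by
  classical
  have := Fintype.ofFinite A
  have key : ∀ s : Finset A, ∃ q ≤ p, ∀ a ∈ s, (∃ b, R q a b) ∨ ∀ q' ≤ q, ∀ b, ¬ R q' a b := by
    intro s
    induction s using Finset.induction_on with
    | empty => exact ⟨p, le_refl p, by simp⟩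
    | insert a s _ ih =>
      obtain ⟨q, hq, h⟩ := ih
      by_cases h1 : ∃ q' ≤ q, ∃ b, R q' a b
      · obtain ⟨q', hq', b, hb⟩ := h1
        refine ⟨q', hq'.trans hq, fun a' ha' => ?_⟩
        rcases Finset.mem_insert.1 ha' with rfl | ha'
        · exact Or.inl ⟨b, hb⟩
        · rcases h a' ha' with ⟨b', hb'⟩ | h2
          · exact Or.inl ⟨b', hmono _ _ _ _ hq' hb'⟩
          · exact Or.inr fun q'' hq'' => h2 q'' (hq''.trans hq')
      · push Not at h1
        refine ⟨q, hq, fun a' ha' => ?_⟩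
        rcases Finset.mem_insert.1 ha' with rfl | ha'
        · exact Or.inr h1
        · exact h a' ha'
  obtain ⟨q, hq, h⟩ := key Finset.univ
  exact ⟨q, hq, fun a => h a (Finset.mem_univ a)⟩

lemma finite_ns {P : Type 1} [Preorder P] {A B : Type} [Finite A] [Infinite B] (p : P)
    (R : P → A → B → Prop) (hmono : ∀ q q' a b, q' ≤ q → R q a b → R q' a b)
    (huniq : ∀ q ≤ p, ∀ a b b', R q a b → R q a b' → b = b') :
    ∃ q ≤ p, ∃ b, ∀ q' ≤ q, ∀ a, ¬ R q' a b := by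
  classical
  obtain ⟨q, hq, h⟩ := finite_decide p R hmono
  have hfin : {b | ∃ a, R q a b}.Finite := by
    have h1 : {b | ∃ a, R q a b} ⊆ ⋃ a : A, {b | R q a b} := by
      rintro b ⟨a, ha⟩
      exact mem_iUnion.2 ⟨a, ha⟩
    refine (Set.finite_iUnion fun a => ?_).subset h1
    refine Set.Subsingleton.finite ?_
    intro b hb b' hb'
    exact huniq q hq a b b' hb hb'
  obtain ⟨b, hb⟩ := hfin.exists_notMem
  refine ⟨q, hq, b, fun q' hq' a hR => ?_⟩
  rcases h a with ⟨b', hb'⟩ | h2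
  · have h3 := huniq q' (hq'.trans hq) a b b' hR (hmono _ _ _ _ hq' hb')
    subst h3
    exact hb ⟨a, hb'⟩
  · exact h2 q' hq' b hR

/-- the relation on `Cond` -/
lemma fn_down {A B : Type} {p : PP Ω X} {R : PP Ω X → A → B → Prop}
    (hmono : ∀ q q' a b, q' ≤ q → R q a b → R q' a b)
    (huniq : ∀ q ≤ p, ∀ a b b', R q a b → R q a b' → b = b') :
    FN p.down (fun (q : Cond Ω X) a b => R (ULift.up q) a b) where
  mono := fun q q' a b h => hmono (ULift.up q) (ULift.up q') a b h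
  uniq := fun q hq a b b' => huniq (ULift.up q) hq a b b'

lemma lift_ns {A B : Type} {p : PP Ω X} {R : PP Ω X → A → B → Prop}
    (h : ∃ q ≤ p.down, ∃ b, ∀ q' ≤ q, ∀ a, ¬ R (ULift.up q') a b) :
    ∃ q ≤ p, ∃ b, ∀ q' ≤ q, ∀ a, ¬ R q' a b := by
  obtain ⟨q, hq, b, hb⟩ := h
  exact ⟨ULift.up q, hq, b, fun q' hq' a => hb q'.down hq' a⟩

lemma omega_le_ord {c : Cardinal.{0}} (hc : ℵ₀ ≤ c) : Ordinal.omega0 ≤ c.ord := by
  rw [← Cardinal.ord_aleph0]
  exact Cardinal.ord_le_ord.2 hc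

lemma le_sc (i : ℕ) (c : Cardinal.{0}) : c ≤ sc i c := sc_le (Nat.zero_le i) c

end A2

/-- Task A2. -/
theorem Ev.infCard_alO : Ev (P := PP Ω X) (fun U H => ∀ K, GB U H K → ∀ j,
    InfCard (MM U H) (Name.val U H (ordN _ (alO K j)))) := by
  refine Ev.no_surj.mono fun U H hns K hB j => ?_
  refine A2.infCard_of hB.toBase (hB.alO_mem j) ?_ fun δ hδ hδU f hf hfa => ?_
  · unfold alO
    split_ifs with hj
    · exact le_rfl
    · refine A2.omega_le_ord ?_
      obtain ⟨p, hp, hn, hpt⟩ := hB.pts ((j - 1) / 4)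
      rw [← hpt]
      exact (aleph0_lt_crd (p.down.pt_mem_W hn)).le.trans (A2.le_sc _ _)
  · refine hns δ _ hδU (hB.alO_mem j) ?_ f hf hfa
    by_cases hj : j = 0
    · subst hj
      have h0 : alO K 0 = Ordinal.omega0 := by simp [alO]
      rw [h0] at hδ ⊢
      obtain ⟨n, rfl⟩ := Ordinal.lt_omega0.1 hδ
      obtain ⟨p₀, hp₀⟩ := hB.filt.ne
      refine ⟨p₀, hp₀, fun p _ R hmono huniq => ?_⟩
      have hfinA : Finite ((n : Ordinal.{0}).ToType) := by
        rw [← Cardinal.lt_aleph0_iff_finite, Cardinal.mk_toType, Ordinal.card_nat]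
        exact Cardinal.natCast_lt_aleph0
      have hinfB : Infinite (Ordinal.omega0.{0}.ToType) := by
        rw [Cardinal.infinite_iff, Cardinal.mk_toType, Ordinal.card_omega0]
      exact A2.finite_ns p R hmono huniq
    · obtain ⟨p₀, hp₀, hn, hpt⟩ := hB.pts ((j - 1) / 4)
      refine ⟨p₀, hp₀, fun p hp R hmono huniq => A2.lift_ns ?_⟩
      have hp' : p.down ≤ p₀.down := hp
      have hal : alO K j = (sc ((j - 1) % 4 + 1) (crd (p.down.pt ((j - 1) / 4)))).ord := by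
        rw [Cond.pt_of_le hp' hn, hpt, alO, if_neg hj]
      rw [hal] at hδ
      refine preserve_small (hn.trans_le (Cond.len_le hp')) (Nat.le_add_left 1 _)
        (by omega : (j - 1) % 4 + 1 ≤ 4) ?_ ?_ (A2.fn_down hmono huniq)
      · rw [Cardinal.mk_toType, Cardinal.mk_toType, hal, Cardinal.card_ord]
        exact Cardinal.lt_ord.1 hδ
      · rw [Cardinal.mk_toType, hal, Cardinal.card_ord]

/-- Task A2. -/
theorem Ev.infCard_κ : Ev (P := PP Ω X) (fun U H => ∀ K, GB U H K →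
    InfCard (MM U H) (Name.val U H (ordN _ D.κ.ord)) ∧
    InfCard (MM U H) (Name.val U H (ordN _ (succ D.κ).ord)) ∧
    InfCard (MM U H) (Name.val U H (ordN _ (succ (succ D.κ)).ord))) := by
  refine (Ev.no_surj.and Ev.infCard_alO).mono fun U H ⟨hns, hal⟩ K hB => ⟨?_, ?_, ?_⟩
  · refine A2.infCard_of hB.toBase hB.κ_mem (A2.omega_le_ord D.κ_inacc.aleph0_lt.le)
      fun δ hδ hδU f hf hfa => ?_
    obtain ⟨a, rfl⟩ := (exists_oo X).1 hδ
    obtain ⟨n, hn⟩ := hB.unb a hδU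
    obtain ⟨p₀, hp₀, hn', hpt⟩ := hB.pts n
    have hW : K n ∈ D.W := hpt ▸ p₀.down.pt_mem_W hn'
    have halO : alO K (4 * n + 1) = (sc 1 (crd (K n))).ord := by
      rw [alO, if_neg (by omega), show (4 * n + 1 - 1) % 4 + 1 = 1 by omega,
        show (4 * n + 1 - 1) / 4 = n by omega]
    have h1 : oo a < alO K (4 * n + 1) := by
      rw [halO, oo_lt_ord]
      exact (D.W_init _ hW a hn).trans_le (A2.le_sc 1 _)
    obtain ⟨y, hy, hy'⟩ := (hal K hB (4 * n + 1)).card _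
      ((mem_val_ordN hB.toBase).2 ⟨oo a, h1, hδU, rfl⟩) f hf hfa
    refine ⟨y, ?_, hy'⟩
    refine (val_ordN_subset_iff hB.toBase (hB.alO_mem _) hB.κ_mem).2 ?_ hy
    rw [halO]
    exact Cardinal.ord_le_ord.2 (sc_crd_lt_κ (K n) 1).le
  · refine A2.infCard_of hB.toBase hB.κs_mem
      (A2.omega_le_ord (D.κ_inacc.aleph0_lt.le.trans (le_succ _))) fun δ hδ hδU f hf hfa => ?_
    obtain ⟨p₀, hp₀⟩ := hB.filt.ne
    refine hns δ _ hδU hB.κs_mem ⟨p₀, hp₀, fun p _ R hmono huniq => A2.lift_ns ?_⟩ f hf hfa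
    refine preserve_succ ?_ ?_ (A2.fn_down hmono huniq)
    · rw [Cardinal.mk_toType]
      exact Order.lt_succ_iff.1 (Cardinal.lt_ord.1 hδ)
    · rw [Cardinal.mk_toType, Cardinal.card_ord]
  · refine A2.infCard_of hB.toBase hB.κss_mem
      (A2.omega_le_ord (D.κ_inacc.aleph0_lt.le.trans ((le_succ _).trans (le_succ _))))
      fun δ hδ hδU f hf hfa => ?_
    obtain ⟨p₀, hp₀⟩ := hB.filt.ne
    refine hns δ _ hδU hB.κss_mem ⟨p₀, hp₀, fun p _ R hmono huniq => A2.lift_ns ?_⟩ f hf hfa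
    obtain ⟨b, hb⟩ := preserve_succ₂ (A := δ.ToType)
      (B := (succ (succ D.κ)).ord.ToType) (by
        rw [Cardinal.mk_toType]
        exact Order.lt_succ_iff.1 (Cardinal.lt_ord.1 hδ)) (by
        rw [Cardinal.mk_toType, Cardinal.card_ord]) (A2.fn_down hmono huniq)
    exact ⟨p.down, le_refl _, b, fun q' hq' a => hb q' hq' a⟩

namespace A3

variable (X) in
lemma exists_g (m : Ω) (β : Ordinal.{0}) (h0 : β ≠ 0) (hc : β.card ≤ crd m) :
    ∃ g : Ω → Ordinal.{0}, (∀ w, g w < β) ∧ ∀ b < β, ∃ w < m, g w = b := by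
  classical
  have hpos : 0 < β := pos_iff_ne_zero.2 h0
  have h1 : #β.ToType ≤ #(Iio m) := by rw [mk_toType]; exact hc
  obtain ⟨f⟩ := (Cardinal.le_def _ _).1 h1
  have : Nonempty β.ToType := by rwa [Ordinal.nonempty_toType_iff]
  have hs : Function.Surjective (Function.invFun f) := Function.invFun_surjective f.injective
  refine ⟨fun w => if hw : w < m then (Ordinal.ToType.toOrd (Function.invFun f ⟨w, hw⟩)).1 else 0,
    ?_, ?_⟩
  · intro w
    dsimp only
    split_ifs with hw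
    · exact (Ordinal.ToType.toOrd _).2
    · exact hpos
  · intro b hb
    obtain ⟨w, hw⟩ := hs (Ordinal.ToType.mk ⟨b, hb⟩)
    refine ⟨w.1, w.2, ?_⟩
    have h2 : w.1 < m := w.2
    simp only [h2, dif_pos]
    rw [show (⟨w.1, h2⟩ : Iio m) = w from rfl, hw]
    simp

open Classical in
/-- A surjection from `m` onto `β`. -/
noncomputable def gg (m : Ω) (β : Ordinal.{0}) : Ω → Ordinal.{0} :=
  if h : β ≠ 0 ∧ β.card ≤ crd m then Classical.choose (exists_g m β h.1 h.2) else fun _ => 0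

lemma gg_lt {m : Ω} {β : Ordinal.{0}} (h0 : β ≠ 0) (hc : β.card ≤ crd m) (w : Ω) :
    gg m β w < β := by
  unfold gg
  rw [dif_pos ⟨h0, hc⟩]
  exact (Classical.choose_spec (exists_g m β h0 hc)).1 w

lemma gg_surj {m : Ω} {β : Ordinal.{0}} (h0 : β ≠ 0) (hc : β.card ≤ crd m) {b : Ordinal.{0}}
    (hb : b < β) : ∃ w < m, gg m β w = b := by
  unfold gg
  rw [dif_pos ⟨h0, hc⟩]
  exact (Classical.choose_spec (exists_g m β h0 hc)).2 b hb

lemma oo_inj {a b : Ω} (h : oo a = oo b) : a = b := by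
  rcases lt_trichotomy a b with h1 | h1 | h1
  · exact absurd h (ne_of_lt (oo_lt_iff.2 h1))
  · exact h1
  · exact absurd h (ne_of_gt (oo_lt_iff.2 h1))

/-- The generic relation. -/
def RR (n : ℕ) (α β : Ordinal.{0}) (q : PP Ω X) (a b : Ordinal.{0}) : Prop :=
  n < q.down.len ∧ α = (q.down.thk n).ord ∧ β ≠ 0 ∧ β.card ≤ crd (q.down.pt n) ∧
    ∃ a' w, oo a' = a ∧ q.down.cc n a' = some w ∧ gg (q.down.pt n) β w = b

lemma alO_four (K : ℕ → Ω) (n : ℕ) {p : Cond Ω X} (hn : n < p.len) (hp : ∀ k ≤ n, p.pt k = K k) :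
    alO K (4 * n) = (p.thk n).ord := by
  cases n with
  | zero => simp [alO, Cond.thk]
  | succ k =>
    have h1 : (4 * (k + 1) - 1) % 4 + 1 = 4 := by omega
    have h2 : (4 * (k + 1) - 1) / 4 = k := by omega
    unfold alO
    rw [if_neg (by omega), h1, h2]
    change _ = (sc 4 (crd (p.pt k))).ord
    rw [hp k (Nat.le_succ k)]

variable (X) in
lemma thk_le_κ (p : Cond Ω X) (n : ℕ) : p.thk n ≤ D.κ := by
  cases n with
  | zero => exact D.κ_inacc.aleph0_lt.le
  | succ k => exact (sc_crd_lt_κ (X := X) (p.pt k) 4).le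

end A3

/-- Task A3: the collapses. -/
theorem Ev.collapse : Ev (P := PP Ω X) (fun U H => ∀ K, GB U H K →
    ∀ (n : ℕ) (δ : Ordinal.{0}), ordN _ δ ∈ U → δ ≠ 0 → δ.card ≤ crd (K n) →
      ∃ f ∈ MM U H, FunOn f (Name.val U H (ordN _ (alO K (4 * n)))) ∧
        ∀ y ∈ Name.val U H (ordN _ δ), ∃ x ∈ Name.val U H (ordN _ (alO K (4 * n))),
          ZFSet.pair x y ∈ f) := by
  have key : ∀ n : ℕ, Ev (P := PP Ω X) _ := fun n =>
    Ev.gen_surj (P := PP Ω X) (A3.RR n) (fun α β q q' a b hq h => by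
      obtain ⟨h1, h2, h3, h4, a', w, h5, h6, h7⟩ := h
      have hq' : q'.down ≤ q.down := hq
      refine ⟨h1.trans_le (Cond.len_le hq'), ?_, h3, ?_, a', w, h5, Cond.cc_sub hq' h1 a' w h6, ?_⟩
      · rw [Cond.thk_of_le hq' h1]; exact h2
      · rw [Cond.pt_of_le hq' h1]; exact h4
      · rw [Cond.pt_of_le hq' h1]; exact h7)
      (fun α β q a b b' h h' => by
        obtain ⟨h1, h2, h3, h4, a', w, h5, h6, h7⟩ := h
        obtain ⟨h1', h2', h3', h4', a'', w', h5', h6', h7'⟩ := h'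
        have e1 : a' = a'' := A3.oo_inj (h5.trans h5'.symm)
        subst e1
        rw [h6] at h6'
        have e2 : w = w' := Option.some.inj h6'
        subst e2
        rw [← h7, ← h7'])
      (fun α β q a b h => by
        obtain ⟨h1, h2, h3, h4, a', w, h5, h6, h7⟩ := h
        refine ⟨?_, ?_⟩
        · rw [← h5, h2]
          exact oo_lt_ord.2 (Cond.cc_dom q.down h1 h6).1
        · rw [← h7]
          exact A3.gg_lt h3 h4 w)
  refine (Ev.all key).mono ?_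
  intro U H hev K hK n δ hδ h0 hc
  refine hev n (alO K (4 * n)) δ (hK.alO_mem _) hδ ?_
  obtain ⟨p, hp, hn, hpn⟩ := hK.pts n
  have hpts : ∀ k ≤ n, p.down.pt k = K k := fun k hk =>
    hK.pts.eq hK.filt hp (lt_of_le_of_lt hk hn)
  have hα : alO K (4 * n) = (p.down.thk n).ord := A3.alO_four K n hn hpts
  refine ⟨p, hp, ?_, ?_⟩
  · intro a ha q hq
    have hq' : q.down ≤ p.down := hq
    have hnq : n < q.down.len := hn.trans_le (Cond.len_le hq')
    have e1 : q.down.thk n = p.down.thk n := Cond.thk_of_le hq' hn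
    have e2 : q.down.pt n = K n := by rw [Cond.pt_of_le hq' hn, hpn]
    have ha' : a < (q.down.thk n).ord := by rw [e1, ← hα]; exact ha
    obtain ⟨a', rfl⟩ := (exists_oo X).1 (ha'.trans_le (ord_le_ord.2 (A3.thk_le_κ X q.down n)))
    obtain ⟨r, hr, w, hw⟩ := Cond.dense_dom q.down hnq (oo_lt_ord.1 ha')
    have hr' : r ≤ q.down := hr
    refine ⟨ULift.up r, hr, A3.gg (r.pt n) δ w, hnq.trans_le (Cond.len_le hr'), ?_, h0, ?_, a', w,
      rfl, hw, rfl⟩
    · change _ = (r.thk n).ord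
      rw [Cond.thk_of_le hr' hnq, e1, hα]
    · change _ ≤ crd (r.pt n)
      rw [Cond.pt_of_le hr' hnq, e2]
      exact hc
  · intro b hb q hq
    have hq' : q.down ≤ p.down := hq
    have hnq : n < q.down.len := hn.trans_le (Cond.len_le hq')
    have e1 : q.down.thk n = p.down.thk n := Cond.thk_of_le hq' hn
    have e2 : q.down.pt n = K n := by rw [Cond.pt_of_le hq' hn, hpn]
    obtain ⟨w, hw, hwb⟩ := A3.gg_surj h0 hc hb
    obtain ⟨r, hr, a', ha'⟩ := Cond.dense_ran q.down hnq (b := w) (by rw [e2]; exact hw)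
    have hr' : r ≤ q.down := hr
    refine ⟨ULift.up r, hr, oo a', hnq.trans_le (Cond.len_le hr'), ?_, h0, ?_, a', w,
      rfl, ha', ?_⟩
    · change _ = (r.thk n).ord
      rw [Cond.thk_of_le hr' hnq, e1, hα]
    · change _ ≤ crd (r.pt n)
      rw [Cond.pt_of_le hr' hnq, e2]
      exact hc
    · change A3.gg (r.pt n) δ w = b
      rw [Cond.pt_of_le hr' hnq, e2]
      exact hwb

namespace A4

lemma not_infCard {P : Type 1} [Preorder P] {U : Set (Name P)} {H : Set P} (hB : Base U H)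
    {α δ : Ordinal.{0}} (hα : ordN P α ∈ U) (hδ : ordN P δ ∈ U) (h : α < δ)
    (hf : ∃ f ∈ MM U H, FunOn f (Name.val U H (ordN P α)) ∧
        ∀ y ∈ Name.val U H (ordN P δ), ∃ x ∈ Name.val U H (ordN P α), ZFSet.pair x y ∈ f) :
    ¬ InfCard (MM U H) (Name.val U H (ordN P δ)) := by
  intro hI
  obtain ⟨f, hf1, hf2, hf3⟩ := hf
  obtain ⟨y, hy, hy'⟩ := hI.card _ ((val_ordN_mem_iff hB hα hδ).2 h) f hf1 hf2
  obtain ⟨x, hx, hxy⟩ := hf3 y hy
  exact hy' x hx hxy

lemma next {P : Type 1} [Preorder P] {U : Set (Name P)} {H : Set P} (hB : Base U H)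
    {α γ : Ordinal.{0}} (hα : ordN P α ∈ U) (hγ : ordN P γ ∈ U) (h : α < γ)
    (hI : InfCard (MM U H) (Name.val U H (ordN P γ)))
    (hs : ∀ δ, ordN P δ ∈ U → α < δ → δ < γ →
      ∃ f ∈ MM U H, FunOn f (Name.val U H (ordN P α)) ∧
        ∀ y ∈ Name.val U H (ordN P δ), ∃ x ∈ Name.val U H (ordN P α), ZFSet.pair x y ∈ f) :
    NextCard (MM U H) (Name.val U H (ordN P α)) (Name.val U H (ordN P γ)) := by
  refine ⟨hI, (val_ordN_mem_iff hB hα hγ).2 h, ?_⟩
  intro d hd hId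
  obtain ⟨δ, hδ, hδU, rfl⟩ := (mem_val_ordN hB).1 hd
  rcases lt_trichotomy δ α with h1 | h1 | h1
  · exact Or.inl ((val_ordN_mem_iff hB hδU hα).2 h1)
  · exact Or.inr (by rw [h1])
  · exact absurd hId (not_infCard hB hα hδU h1 (hs δ hδU h1 hδ))

end A4

/-- Task A4. -/
theorem Ev.alephs : Ev (P := PP Ω X) (fun U H => ∀ K, GB U H K →
    Alephs (MM U H) (fun j => Name.val U H (ordN _ (alO K j))) (Name.val U H (ordN _ D.κ.ord))
      (Name.val U H (ordN _ (succ D.κ).ord)) (Name.val U H (ordN _ (succ (succ D.κ)).ord))) := by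
  refine ((((Ev.infCard_alO (Ω := Ω) (X := X)).and (Ev.infCard_κ (Ω := Ω) (X := X))).and
    (Ev.ground_surj (P := PP Ω X))).and (Ev.collapse (Ω := Ω) (X := X))).mono ?_
  rintro U H ⟨⟨⟨e1, e2⟩, e3⟩, e4⟩ K hK
  have hB : Base U H := hK.toBase
  have h1 := e1 K hK
  obtain ⟨hκ, hκ1, hκ2⟩ := e2 K hK
  have hKW : ∀ n, K n ∈ D.W := by
    intro n
    obtain ⟨p, hp, hn, hpn⟩ := hK.pts n
    rw [← hpn]
    exact p.down.pt_mem_W hn
  have hKlt : ∀ k l, k < l → K k < K l := by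
    intro k l hkl
    obtain ⟨p, hp, hn, hpn⟩ := hK.pts l
    have e5 := hK.pts.eq hK.filt hp (n := k) (hkl.trans hn)
    rw [← hpn, ← e5]
    exact p.down.pt_lt_pt hkl hn
  have hlt : ∀ n, alO K n < alO K (n + 1) := by
    intro n
    unfold alO
    rw [if_neg (Nat.succ_ne_zero n)]
    have e5 : n + 1 - 1 = n := rfl
    rw [e5]
    split_ifs with h0
    · subst h0
      rw [← ord_aleph0, ord_lt_ord]
      exact (aleph0_lt_crd (X := X) (hKW 0)).trans (sc_lt (Nat.succ_pos _) _)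
    · rw [ord_lt_ord]
      rcases Nat.eq_zero_or_pos (n % 4) with h4 | h4
      · have e6 : (n - 1) / 4 < n / 4 := by omega
        refine (sc_crd_lt (X := X) (hKW (n / 4)) (hKlt _ _ e6) _).trans ?_
        exact sc_lt (i := 0) (Nat.succ_pos _) _
      · have e6 : (n - 1) / 4 = n / 4 := by omega
        rw [e6]
        exact sc_lt (by omega) _
  have hκlt : ∀ n, alO K n < D.κ.ord := by
    intro n
    unfold alO
    split_ifs with h0
    · rw [← ord_aleph0, ord_lt_ord]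
      exact D.κ_inacc.aleph0_lt
    · rw [ord_lt_ord]
      exact sc_crd_lt_κ (X := X) _ _
  refine ⟨?_, ?_, ⟨hκ, ?_, ?_⟩, ?_, ?_⟩
  · have e5 : alO K 0 = Ordinal.omega0 := by simp [alO]
    change Name.val U H (ordN _ (alO K 0)) = _
    rw [e5]
    exact val_ordN_omega hB
  · intro n
    refine A4.next hB (hK.alO_mem n) (hK.alO_mem (n + 1)) (hlt n) (h1 (n + 1)) ?_
    intro δ hδU hδ hδ'
    have hδ0 : δ ≠ 0 := (pos_of_gt hδ).ne'
    have e5 : alO K (n + 1) = (succ (sc (n % 4) (crd (K (n / 4))))).ord := by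
      unfold alO
      rw [if_neg (Nat.succ_ne_zero n)]
      rfl
    rw [e5] at hδ'
    have hcard : δ.card ≤ sc (n % 4) (crd (K (n / 4))) := lt_succ_iff.1 (lt_ord.1 hδ')
    rcases Nat.eq_zero_or_pos (n % 4) with h4 | h4
    · rw [h4] at hcard
      have e6 : n = 4 * (n / 4) := by omega
      have e7 := e4 K hK (n / 4) δ hδU hδ0 hcard
      rw [← e6] at e7
      exact e7
    · refine e3 (alO K n) δ (hK.alO_mem n) hδU hδ0 ?_
      unfold alO
      have e6 : (n - 1) / 4 = n / 4 := by omega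
      have e7 : (n - 1) % 4 + 1 = n % 4 := by omega
      rw [if_neg (by omega), card_ord, e6, e7]
      exact hcard
  · exact fun n => (val_ordN_mem_iff hB (hK.alO_mem n) hK.κ_mem).2 (hκlt n)
  · intro c hc
    obtain ⟨γ, hγ, hγU, rfl⟩ := (mem_val_ordN hB).1 hc
    obtain ⟨a, rfl⟩ := (exists_oo X).1 hγ
    obtain ⟨n, hn⟩ := hK.unb a hγU
    refine ⟨4 * n + 1, (val_ordN_mem_iff hB hγU (hK.alO_mem _)).2 ?_⟩
    unfold alO
    rw [if_neg (Nat.succ_ne_zero _), oo_lt_ord]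
    have e5 : (4 * n + 1 - 1) / 4 = n := by omega
    rw [e5]
    exact (crd_lt_crd (X := X) (hKW n) hn).trans (sc_lt (i := 0) (Nat.succ_pos _) _)
  · refine A4.next hB hK.κ_mem hK.κs_mem (ord_lt_ord.2 (lt_succ _)) hκ1 ?_
    intro δ hδU hδ hδ'
    refine e3 _ δ hK.κ_mem hδU (pos_of_gt hδ).ne' ?_
    rw [card_ord]
    exact lt_succ_iff.1 (lt_ord.1 hδ')
  · refine A4.next hB hK.κs_mem hK.κss_mem (ord_lt_ord.2 (lt_succ _)) hκ2 ?_
    intro δ hδU hδ hδ'
    refine e3 _ δ hK.κs_mem hδU (pos_of_gt hδ).ne' ?_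
    rw [card_ord]
    exact lt_succ_iff.1 (lt_ord.1 hδ')

end Pool.PC
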