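import Pool.Agent.Lib.MP_ad72f3_pc.Data

/-!
# The large cardinal hypothesis and the Prikry data
-/

set_option autoImplicit false
set_option linter.unusedSectionVars false

open Cardinal Set Order

namespace Pool.PC

/-- `U` is a `κ`-complete normal fine ultrafilter on `P_κ(S)` (the set of all subsets of `S` of
cardinality less than `κ`). -/
structure IsNormalFine (κ : Cardinal.{0}) {S : Type} (U : Ultrafilter (Set S)) : Prop where
  small : ∀ᶠ x : Set S in (U : Filter (Set S)), #x < κ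
  fine : ∀ a : S, ∀ᶠ x in (U : Filter (Set S)), a ∈ x
  complete : ∀ 𝒜 : Set (Set (Set S)), #𝒜 < κ → (∀ A ∈ 𝒜, A ∈ U) → ⋂₀ 𝒜 ∈ U
  normal : ∀ f : Set S → S, (∀ᶠ x in (U : Filter (Set S)), f x ∈ x) →
    ∃ a, ∀ᶠ x in (U : Filter (Set S)), f x = a

/-- `κ` is `lam`-supercompact. -/
def IsSupercompact (κ lam : Cardinal.{0}) : Prop :=
  ℵ₀ < κ ∧ ∃ (S : Type) (U : Ultrafilter (Set S)), #S = lam ∧ IsNormalFine κ U

namespace Hyp

/-- The ordinals below `κ⁺`. -/
abbrev S (κ : Cardinal.{0}) : Type := (succ κ).ord.ToType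

/-- The ordinals below `κ`. -/
abbrev O (κ : Cardinal.{0}) : Type := κ.ord.ToType

/-- `P_κ(κ⁺)`. -/
abbrev X (κ : Cardinal.{0}) : Type := {x : Set (S κ) // #x < κ}

/-- The inclusion of `κ` in `κ⁺`. -/
noncomputable def j (κ : Cardinal.{0}) : O κ ≤i S κ :=
  (Ordinal.type_le_iff.1 (by
    rw [Ordinal.type_toType, Ordinal.type_toType]
    exact ord_le_ord.2 (le_succ κ))).some

lemma mk_O (κ : Cardinal.{0}) : #(O κ) = κ := mk_ord_toType κ

lemma exists_notMem {κ : Cardinal.{0}} (x : X κ) : ∃ a : O κ, j κ a ∉ x.1 := by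
  by_contra hcon
  push Not at hcon
  have h1 : #(O κ) ≤ #x.1 := mk_le_of_injective (f := fun a : O κ => (⟨j κ a, hcon a⟩ : x.1))
    (fun a b hab => (j κ).injective (congrArg Subtype.val hab))
  rw [mk_O] at h1
  exact absurd x.2 (not_lt.2 h1)

/-- A normal fine ultrafilter on the subtype. -/
structure NF (κ : Cardinal.{0}) (U : Ultrafilter (X κ)) : Prop where
  unc : ℵ₀ < κ
  fine : ∀ a : S κ, ∀ᶠ x in (U : Filter (X κ)), a ∈ x.1
  complete : ∀ {Z : Type} (B : Z → Set (X κ)), #Z < κ → (∀ z, B z ∈ U) →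
    ∀ᶠ x in (U : Filter (X κ)), ∀ z, x ∈ B z
  normal : ∀ f : X κ → S κ, (∀ᶠ x in (U : Filter (X κ)), f x ∈ x.1) →
    ∃ a, ∀ᶠ x in (U : Filter (X κ)), f x = a
/-- Task H1. -/
theorem exists_NF {κ : Cardinal.{0}} (h : IsSupercompact κ (succ κ)) :
    ∃ U : Ultrafilter (X κ), NF κ U := by
  classical
  obtain ⟨hκ, S', U, hS', hU⟩ := h
  have hcard : #S' = #(S κ) := by
    rw [hS']
    exact (mk_ord_toType _).symm
  obtain ⟨e⟩ := Cardinal.eq.1 hcard
  obtain ⟨ret, hret⟩ : ∃ ret : Set S' → X κ, ∀ y : Set S', #y < κ → (ret y).1 = e '' y := by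
    refine ⟨fun y => if h : #y < κ then ⟨e '' y, mk_image_le.trans_lt h⟩ else ⟨∅, ?_⟩, ?_⟩
    · rw [mk_eq_zero]
      exact aleph0_pos.trans hκ
    · intro y hy
      simp only [hy, dif_pos]
  refine ⟨U.map ret, hκ, ?_, ?_, ?_⟩
  · intro a
    rw [Ultrafilter.coe_map, Filter.eventually_map]
    filter_upwards [hU.small, hU.fine (e.symm a)] with y h1 h2
    rw [hret y h1]
    exact ⟨e.symm a, h2, e.apply_symm_apply a⟩
  · intro Z B hZ hB
    rw [Ultrafilter.coe_map, Filter.eventually_map]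
    have h1 : ⋂₀ (range fun z => ret ⁻¹' (B z)) ∈ U := by
      refine hU.complete _ (mk_range_le.trans_lt hZ) ?_
      rintro _ ⟨z, rfl⟩
      exact Ultrafilter.mem_map.1 (hB z)
    have h2 : ∀ᶠ y in (U : Filter (Set S')), y ∈ ⋂₀ (range fun z => ret ⁻¹' (B z)) := h1
    filter_upwards [h2] with y hy z
    exact hy _ ⟨z, rfl⟩
  · intro f hf
    rw [Ultrafilter.coe_map, Filter.eventually_map] at hf
    obtain ⟨a, ha⟩ := hU.normal (fun y => e.symm (f (ret y))) (by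
      filter_upwards [hU.small, hf] with y h1 h2
      rw [hret y h1] at h2
      obtain ⟨b, hb, hb'⟩ := h2
      rw [← hb', e.symm_apply_apply]
      exact hb)
    refine ⟨e a, ?_⟩
    rw [Ultrafilter.coe_map, Filter.eventually_map]
    filter_upwards [ha] with y hy
    rw [← hy, e.apply_symm_apply]


/-- The least ordinal not in `x`. -/
noncomputable def kx {κ : Cardinal.{0}} (x : X κ) : O κ :=
  wellFounded_lt.min {a : O κ | j κ a ∉ x.1} (exists_notMem x)

variable {κ : Cardinal.{0}}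


/-- Task H1. -/
lemma mem_of_lt_kx {x : X κ} {a : O κ} (h : a < kx x) : j κ a ∈ x.1 := by
  by_contra hcon
  exact WellFounded.not_lt_min wellFounded_lt (s := {a : O κ | j κ a ∉ x.1}) hcon h

/-- Task H1. -/
lemma kx_notMem (x : X κ) : j κ (kx x) ∉ x.1 :=
  WellFounded.min_mem wellFounded_lt {a : O κ | j κ a ∉ x.1} (exists_notMem x)


variable {U : Ultrafilter (X κ)}

--BEGIN
namespace H2

lemma crd_mono {a b : O κ} (h : a ≤ b) : crd a ≤ crd b :=
  mk_le_mk_of_subset (Iio_subset_Iio h)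

lemma lt_of_crd {a b : O κ} (h : crd a < crd b) : a < b := by
  by_contra hcon
  exact absurd (crd_mono (not_lt.1 hcon)) (not_le.2 h)

lemma crd_lt (a : O κ) : crd a < κ := by
  have h := mk_Iio_lt a (by rw [mk_O, Ordinal.type_toType])
  rwa [mk_O] at h

lemma exists_crd {c : Cardinal.{0}} (h : c < κ) : ∃ b : O κ, crd b = c := by
  have h1 : c.ord < Ordinal.type (α := O κ) (· < ·) := by
    rw [Ordinal.type_toType]
    exact ord_lt_ord.2 h
  refine ⟨Ordinal.enum (α := O κ) (· < ·) ⟨c.ord, h1⟩, ?_⟩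
  have h2 : (Ordinal.typein (α := O κ) (· < ·)
      (Ordinal.enum (α := O κ) (· < ·) ⟨c.ord, h1⟩)).card = c := by
    rw [Ordinal.typein_enum, card_ord]
  exact h2

lemma mk_Iic_lt (h : ℵ₀ < κ) (a : O κ) : #(Iic a) < κ := by
  have h1 : (Iic a : Set (O κ)) = insert a (Iio a) := by
    ext b
    simp only [mem_Iic, mem_insert_iff, mem_Iio]
    exact le_iff_eq_or_lt
  rw [h1]
  exact lt_of_le_of_lt (mk_insert_le) (add_lt_of_lt h.le (crd_lt a) (lt_of_lt_of_le one_lt_aleph0 h.le))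

lemma mk_option_lt (h : ℵ₀ < κ) {Z : Type} (hZ : #Z < κ) : #(Option Z) < κ := by
  rw [mk_option]
  exact add_lt_of_lt h.le hZ (lt_of_lt_of_le one_lt_aleph0 h.le)

lemma exists_of_ev {P : X κ → Prop} (h : ∀ᶠ x in (U : Filter (X κ)), P x) : ∃ x, P x := h.exists

lemma not_ev {P : X κ → Prop} (h : ¬ ∀ᶠ x in (U : Filter (X κ)), P x) :
    ∀ᶠ x in (U : Filter (X κ)), ¬ P x := Ultrafilter.eventually_not.2 h

end H2

open H2

/-- Task H2. -/
lemma NF.unb (h : NF κ U) (a : O κ) : ∀ᶠ x in (U : Filter (X κ)), a < kx x := by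
  have h1 : ∀ᶠ x in (U : Filter (X κ)), ∀ b : Iic a, x ∈ {x : X κ | j κ b ∈ x.1} :=
    h.complete (fun b : Iic a => {x : X κ | j κ b ∈ x.1}) (mk_Iic_lt h.unc a) (fun b => h.fine _)
  filter_upwards [h1] with x hx
  by_contra hcon
  exact kx_notMem x (hx ⟨kx x, not_lt.1 hcon⟩)

/-- Task H2: regressive functions with values in `κ`. -/
lemma NF.regr (h : NF κ U) (φ : X κ → O κ) (hφ : ∀ᶠ x in (U : Filter (X κ)), φ x < kx x) :
    ∃ a, ∀ᶠ x in (U : Filter (X κ)), φ x = a := by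
  have h1 : ∀ᶠ x in (U : Filter (X κ)), j κ (φ x) ∈ x.1 := by
    filter_upwards [hφ] with x hx
    exact mem_of_lt_kx hx
  obtain ⟨b, hb⟩ := h.normal (fun x => j κ (φ x)) h1
  obtain ⟨x₀, hx₀⟩ := hb.exists
  refine ⟨φ x₀, ?_⟩
  filter_upwards [hb] with x hx
  exact (j κ).injective (hx.trans hx₀.symm)

/-- Task H2: a function with fewer than `κ` values is constant on a large set. -/
lemma NF.const (h : NF κ U) {Z : Type} (hZ : #Z < κ) (φ : X κ → Z) :
    ∃ z, ∀ᶠ x in (U : Filter (X κ)), φ x = z := by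
  by_contra hcon
  push Not at hcon
  have h1 : ∀ᶠ x in (U : Filter (X κ)), ∀ z, x ∈ {x : X κ | φ x ≠ z} :=
    h.complete (fun z => {x : X κ | φ x ≠ z}) hZ fun z => hcon z
  obtain ⟨x, hx⟩ := h1.exists
  exact hx (φ x) rfl

/-- Task H2. -/
lemma NF.regular (h : NF κ U) : κ.IsRegular := by
  refine ⟨h.unc.le, ?_⟩
  by_contra hcon
  rw [not_le, ← Ordinal.cof_toType] at hcon
  obtain ⟨s, hs, hcard⟩ := Order.exists_cof_eq (α := O κ)
  rw [← hcard] at hcon
  choose f hf1 hf2 using fun x : X κ => hs (kx x)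
  obtain ⟨z, hz⟩ := h.const hcon (fun x => (⟨f x, hf1 x⟩ : s))
  have h1 := h.unb (z : O κ)
  obtain ⟨x, hx, hx'⟩ := (hz.and h1).exists
  have h2 : f x = z := congrArg Subtype.val hx
  have h3 := hf2 x
  rw [h2] at h3
  exact absurd hx' (not_lt.2 h3)

/-- Task H2. -/
lemma NF.inacc (h : NF κ U) : κ.IsInaccessible := by
  refine ⟨h.unc, (h.regular).2, ?_⟩
  intro c hc
  by_contra hcon
  rw [not_lt] at hcon
  have hL : #(O κ) ≤ #(Set c.ord.ToType) := by
    rw [mk_set, mk_ord_toType, mk_O]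
    exact hcon
  obtain ⟨g⟩ := hL
  have h2 : #Prop < κ := lt_trans (by simp) h.unc
  have h1 : ∀ l : c.ord.ToType, ∃ e : Prop,
      ∀ᶠ x in (U : Filter (X κ)), (l ∈ g (kx x)) = e := fun l => h.const h2 _
  choose e he using h1
  have h3 : ∀ᶠ x in (U : Filter (X κ)), ∀ l, x ∈ {x : X κ | (l ∈ g (kx x)) = e l} :=
    h.complete _ (by rw [mk_ord_toType]; exact hc) he
  obtain ⟨x₁, hx₁⟩ := h3.exists
  obtain ⟨x, hx, hx'⟩ := (h3.and (h.unb (kx x₁))).exists
  have h4 : g (kx x) = g (kx x₁) := by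
    ext l
    have e1 : (l ∈ g (kx x)) = e l := hx l
    have e2 : (l ∈ g (kx x₁)) = e l := hx₁ l
    rw [e1, e2]
  exact absurd hx' (by rw [g.injective h4]; exact lt_irrefl _)

/-- Task H3: diagonal intersections. -/
lemma NF.diag (h : NF κ U) {Z : Type} (rk : Z → O κ) (B : Z → Set (X κ))
    (hrk : ∀ a : O κ, #{z | rk z < a} < κ) (hB : ∀ z, B z ∈ U) :
    ∀ᶠ x in (U : Filter (X κ)), ∀ z, rk z < kx x → x ∈ B z := by
  classical
  by_contra hcon
  have h1 : ∀ᶠ x in (U : Filter (X κ)), ∃ z, rk z < kx x ∧ x ∉ B z := by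
    filter_upwards [not_ev hcon] with x hx
    push Not at hx
    exact hx
  obtain ⟨x₀, z₀, -⟩ := h1.exists
  have h2 : ∀ x : X κ, ∃ z, (∃ z, rk z < kx x ∧ x ∉ B z) → rk z < kx x ∧ x ∉ B z := by
    intro x
    by_cases hx : ∃ z, rk z < kx x ∧ x ∉ B z
    · obtain ⟨z, hz⟩ := hx
      exact ⟨z, fun _ => hz⟩
    · exact ⟨z₀, fun hx' => absurd hx' hx⟩
  choose z hz using h2
  have h3 : ∀ᶠ x in (U : Filter (X κ)), rk (z x) < kx x ∧ x ∉ B (z x) := by
    filter_upwards [h1] with x hx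
    exact hz x hx
  obtain ⟨a, ha⟩ := h.regr (fun x => rk (z x)) (h3.mono fun x hx => hx.1)
  obtain ⟨x₁, hx₁⟩ := (h.unb a).exists
  set b := kx x₁ with hb
  obtain ⟨w, hw⟩ := h.const (mk_option_lt h.unc (hrk b))
    (fun x => if hx : rk (z x) < b then some (⟨z x, hx⟩ : {z | rk z < b}) else none)
  obtain ⟨x₂, hx₂, hx₂'⟩ := (hw.and ha).exists
  have hlt : rk (z x₂) < b := by
    rw [hx₂']
    exact hx₁
  rw [dif_pos hlt] at hx₂
  have h4 : ∀ᶠ x in (U : Filter (X κ)), z x = z x₂ := by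
    filter_upwards [hw, ha] with x hx hx'
    have hlt' : rk (z x) < b := by
      rw [hx']
      exact hx₁
    rw [dif_pos hlt', ← hx₂] at hx
    exact congrArg Subtype.val (Option.some.inj hx)
  have h5 : ∀ᶠ x in (U : Filter (X κ)), x ∈ B (z x₂) := hB _
  obtain ⟨x, hx, hx', hx''⟩ := (h3.and (h4.and h5)).exists
  apply hx.2
  rw [hx']
  exact hx''

/-- Task H3: diagonal intersections along `κ⁺`. -/
lemma NF.diagS (h : NF κ U) (B : S κ → Set (X κ)) (hB : ∀ z, B z ∈ U) :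
    ∀ᶠ x in (U : Filter (X κ)), ∀ z ∈ x.1, x ∈ B z := by
  classical
  by_contra hcon
  have h1 : ∀ᶠ x in (U : Filter (X κ)), ∃ z, z ∈ x.1 ∧ x ∉ B z := by
    filter_upwards [not_ev hcon] with x hx
    push Not at hx
    exact hx
  obtain ⟨x₀, z₀, -⟩ := h1.exists
  have h2 : ∀ x : X κ, ∃ z, (∃ z, z ∈ x.1 ∧ x ∉ B z) → z ∈ x.1 ∧ x ∉ B z := by
    intro x
    by_cases hx : ∃ z, z ∈ x.1 ∧ x ∉ B z
    · obtain ⟨z, hz⟩ := hx
      exact ⟨z, fun _ => hz⟩
    · exact ⟨z₀, fun hx' => absurd hx' hx⟩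
  choose z hz using h2
  have h3 : ∀ᶠ x in (U : Filter (X κ)), z x ∈ x.1 ∧ x ∉ B (z x) := by
    filter_upwards [h1] with x hx
    exact hz x hx
  obtain ⟨a, ha⟩ := h.normal z (h3.mono fun x hx => hx.1)
  have h5 : ∀ᶠ x in (U : Filter (X κ)), x ∈ B a := hB _
  obtain ⟨x, hx, hx', hx''⟩ := (h3.and (ha.and h5)).exists
  apply hx.2
  rw [hx']
  exact hx''

/-- Task H4: `κ_x` is an inaccessible cardinal. -/
lemma NF.kx_init (h : NF κ U) : ∀ᶠ x in (U : Filter (X κ)), ∀ a < kx x, crd a < crd (kx x) := by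
  by_contra hcon
  have h1 : ∀ᶠ x in (U : Filter (X κ)), ∃ a, a < kx x ∧ crd (kx x) ≤ crd a := by
    filter_upwards [not_ev hcon] with x hx
    push Not at hx
    exact hx
  obtain ⟨x₀, a₀, -⟩ := h1.exists
  have h2 : ∀ x : X κ, ∃ a, (∃ a, a < kx x ∧ crd (kx x) ≤ crd a) →
      a < kx x ∧ crd (kx x) ≤ crd a := by
    intro x
    by_cases hx : ∃ a, a < kx x ∧ crd (kx x) ≤ crd a
    · obtain ⟨z, hz⟩ := hx
      exact ⟨z, fun _ => hz⟩
    · exact ⟨a₀, fun hx' => absurd hx' hx⟩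
  choose a ha using h2
  have h3 : ∀ᶠ x in (U : Filter (X κ)), a x < kx x ∧ crd (kx x) ≤ crd (a x) := by
    filter_upwards [h1] with x hx
    exact ha x hx
  obtain ⟨b, hb⟩ := h.regr a (h3.mono fun x hx => hx.1)
  obtain ⟨c, hc⟩ := exists_crd (κ := κ) (c := succ (crd b))
    ((h.inacc).isSuccLimit.succ_lt (crd_lt b))
  obtain ⟨x, hx, hx', hx''⟩ := (h3.and (hb.and (h.unb c))).exists
  have h4 := hx.2
  rw [hx'] at h4
  have h5 : crd c ≤ crd b := (crd_mono hx''.le).trans h4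
  rw [hc] at h5
  exact absurd (lt_succ (crd b)) (not_lt.2 h5)

/-- Task H4. -/
lemma NF.kx_strong (h : NF κ U) : ∀ᶠ x in (U : Filter (X κ)),
    ∀ a < kx x, (2 : Cardinal.{0}) ^ crd a < crd (kx x) := by
  by_contra hcon
  have h1 : ∀ᶠ x in (U : Filter (X κ)), ∃ a, a < kx x ∧ crd (kx x) ≤ (2 : Cardinal.{0}) ^ crd a := by
    filter_upwards [not_ev hcon] with x hx
    push Not at hx
    exact hx
  obtain ⟨x₀, a₀, -⟩ := h1.exists
  have h2 : ∀ x : X κ, ∃ a, (∃ a, a < kx x ∧ crd (kx x) ≤ (2 : Cardinal.{0}) ^ crd a) →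
      a < kx x ∧ crd (kx x) ≤ (2 : Cardinal.{0}) ^ crd a := by
    intro x
    by_cases hx : ∃ a, a < kx x ∧ crd (kx x) ≤ (2 : Cardinal.{0}) ^ crd a
    · obtain ⟨z, hz⟩ := hx
      exact ⟨z, fun _ => hz⟩
    · exact ⟨a₀, fun hx' => absurd hx' hx⟩
  choose a ha using h2
  have h3 : ∀ᶠ x in (U : Filter (X κ)), a x < kx x ∧ crd (kx x) ≤ (2 : Cardinal.{0}) ^ crd (a x) := by
    filter_upwards [h1] with x hx
    exact ha x hx
  obtain ⟨b, hb⟩ := h.regr a (h3.mono fun x hx => hx.1)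
  obtain ⟨c, hc⟩ := exists_crd (κ := κ) (c := succ ((2 : Cardinal.{0}) ^ crd b))
    ((h.inacc).isSuccLimit.succ_lt ((h.inacc).isStrongPrelimit (crd_lt b)))
  obtain ⟨x, hx, hx', hx''⟩ := (h3.and (hb.and (h.unb c))).exists
  have h4 := hx.2
  rw [hx'] at h4
  have h5 : crd c ≤ (2 : Cardinal.{0}) ^ crd b := (crd_mono hx''.le).trans h4
  rw [hc] at h5
  exact absurd (lt_succ _) (not_lt.2 h5)

namespace H4

lemma type_Iio_eq {m : O κ} (hm : ∀ a < m, crd a < crd m) :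
    Ordinal.type (α := Iio m) (· < ·) = (crd m).ord := by
  refine le_antisymm ?_ (ord_le_type _)
  by_contra hcon
  rw [not_le] at hcon
  set a := Ordinal.enum (α := Iio m) (· < ·) ⟨(crd m).ord, hcon⟩ with ha
  have h1 : (Ordinal.typein (α := Iio m) (· < ·) a).card = crd m := by
    rw [ha, Ordinal.typein_enum, card_ord]
  rw [Ordinal.card_typein] at h1
  have h2 : #{y : Iio m // y < a} ≤ crd (a : O κ) :=
    mk_le_of_injective (f := fun y : {y : Iio m // y < a} => (⟨(y.1 : O κ), y.2⟩ : Iio (a : O κ)))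
      (fun y z hyz => by
        have h3 : ((y.1 : Iio m) : O κ) = z.1 := congrArg (fun w : Iio (a : O κ) => (w : O κ)) hyz
        exact Subtype.ext (Subtype.ext h3))
  rw [h1] at h2
  exact absurd (hm a a.2) (not_lt.2 h2)

lemma exists_cofinal {m : O κ} (hm : ∀ a < m, crd a < crd m) (hinf : ℵ₀ ≤ crd m)
    (hreg : ¬ (crd m).IsRegular) :
    ∃ a < m, ∃ g : O κ → O κ, (∀ c < a, g c < m) ∧ ∀ d < m, ∃ c < a, d ≤ g c := by
  classical
  have h1 : (crd m).ord.cof < crd m := by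
    by_contra hcon
    exact hreg ⟨hinf, not_lt.1 hcon⟩
  rw [← type_Iio_eq hm, Ordinal.cof_type] at h1
  obtain ⟨s, hs, hcard⟩ := Order.exists_cof_eq (α := Iio m)
  rw [← hcard] at h1
  obtain ⟨b, hb⟩ := exists_crd (κ := κ) (h1.trans (crd_lt m))
  have hbm : b < m := lt_of_crd (by rw [hb]; exact h1)
  have h2 : #(Iio b) = #s := hb
  obtain ⟨e⟩ := Cardinal.eq.1 h2
  let g : O κ → O κ := fun c => if hc : c ∈ Iio b then ((e ⟨c, hc⟩ : Iio m) : O κ) else m
  have hg : ∀ c : Iio b, g c = ((e c : Iio m) : O κ) := fun c => dif_pos c.2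
  refine ⟨b, hbm, g, ?_, ?_⟩
  · intro c hc
    have h3 := hg ⟨c, hc⟩
    change g c = _ at h3
    rw [h3]
    exact (e ⟨c, hc⟩ : Iio m).2
  · intro d hd
    obtain ⟨y, hy, hdy⟩ := hs ⟨d, hd⟩
    refine ⟨(e.symm ⟨y, hy⟩ : Iio b), (e.symm ⟨y, hy⟩).2, ?_⟩
    rw [hg, e.apply_symm_apply]
    exact hdy

end H4

open H4

/-- Task H4. -/
lemma NF.kx_regular (h : NF κ U) : ∀ᶠ x in (U : Filter (X κ)), (crd (kx x)).IsRegular := by
  classical
  by_contra hcon
  obtain ⟨b₀, hb₀⟩ := exists_crd (κ := κ) h.unc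
  have hinf : ∀ᶠ x in (U : Filter (X κ)), ℵ₀ ≤ crd (kx x) := by
    filter_upwards [h.unb b₀] with x hx
    rw [← hb₀]
    exact crd_mono hx.le
  let P : X κ → O κ × (O κ → O κ) → Prop := fun x q =>
    q.1 < kx x ∧ (∀ c < q.1, q.2 c < kx x) ∧ ∀ d < kx x, ∃ c < q.1, d ≤ q.2 c
  have h1 : ∀ᶠ x in (U : Filter (X κ)), ∃ q, P x q := by
    filter_upwards [not_ev hcon, hinf, h.kx_init] with x hx hx' hx''
    obtain ⟨a, ha, g, hg1, hg2⟩ := exists_cofinal hx'' hx' hx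
    exact ⟨(a, g), ha, hg1, hg2⟩
  have h2 : ∀ x : X κ, ∃ q, (∃ q, P x q) → P x q := by
    intro x
    by_cases hx : ∃ q, P x q
    · obtain ⟨z, hz⟩ := hx
      exact ⟨z, fun _ => hz⟩
    · exact ⟨(b₀, fun _ => b₀), fun hx' => absurd hx' hx⟩
  choose q hq using h2
  have h3 : ∀ᶠ x in (U : Filter (X κ)), P x (q x) := by
    filter_upwards [h1] with x hx
    exact hq x hx
  obtain ⟨a, ha⟩ := h.regr (fun x => (q x).1) (h3.mono fun x hx => hx.1)
  have h4 : ∀ c : Iio a, ∃ e : O κ, ∀ᶠ x in (U : Filter (X κ)), (q x).2 c = e := by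
    intro c
    refine h.regr (fun x => (q x).2 c) ?_
    filter_upwards [h3, ha] with x hx hx'
    exact hx.2.1 c (by rw [hx']; exact c.2)
  choose e he using h4
  have h5 : ∀ᶠ x in (U : Filter (X κ)), ∀ c : Iio a, x ∈ {x : X κ | (q x).2 c = e c} :=
    h.complete _ (crd_lt a) he
  obtain ⟨x₁, hx₁, hx₁', hx₁''⟩ := (h3.and (ha.and h5)).exists
  obtain ⟨x, ⟨hx, hx'⟩, hx'', hlt⟩ := ((h3.and ha).and (h5.and (h.unb (kx x₁)))).exists
  obtain ⟨c, hc, hle⟩ := hx.2.2 _ hlt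
  have hca : c < a := by
    rw [← hx']
    exact hc
  have e1 : (q x).2 c = e ⟨c, hca⟩ := hx'' ⟨c, hca⟩
  have e2 : (q x₁).2 c = e ⟨c, hca⟩ := hx₁'' ⟨c, hca⟩
  have h6 : (q x₁).2 c < kx x₁ := hx₁.2.1 c (by rw [hx₁']; exact hca)
  rw [e1, ← e2] at hle
  exact absurd h6 (not_lt.2 hle)

/-- Task H4. -/
lemma NF.kx_inacc (h : NF κ U) : ∀ᶠ x in (U : Filter (X κ)), (crd (kx x)).IsInaccessible := by
  obtain ⟨b₀, hb₀⟩ := exists_crd (κ := κ) (c := succ ℵ₀)
    ((h.inacc).isSuccLimit.succ_lt h.unc)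
  filter_upwards [h.kx_regular, h.kx_strong, h.unb b₀] with x h1 h2 h3
  refine ⟨?_, h1.2, ?_⟩
  · refine lt_of_lt_of_le (lt_succ ℵ₀) ?_
    rw [← hb₀]
    exact crd_mono h3.le
  · intro c hc
    obtain ⟨a, ha⟩ := exists_crd (κ := κ) (hc.trans (crd_lt (kx x)))
    rw [← ha]
    exact h2 a (lt_of_crd (by rw [ha]; exact hc))
--END

private lemma Y5_mk_Iio_O (a : O κ) : #(Iio a) < κ := by simpa using mk_Iio_lt a

private lemma Y5_mk_Iio_S (s : S κ) : #(Iio s) ≤ #(O κ) := by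
  rw [mk_O]
  exact lt_succ_iff.1 (by simpa using mk_Iio_lt s)

private lemma Y5_mk_le_of_Iio {α : Type} [LinearOrder α] [WellFoundedLT α] {c : Cardinal.{0}}
    (h : ∀ a : α, #(Iio a) ≤ c) : #α ≤ succ c := by
  by_contra hcon
  rw [not_le] at hcon
  have h1 : (succ c).ord < Ordinal.type (fun a b : α => a < b) := by
    rw [← not_le]
    intro h2
    have h3 := Ordinal.card_le_card h2
    rw [Ordinal.card_type, card_ord] at h3
    exact absurd hcon (not_lt.2 h3)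
  obtain ⟨a, ha⟩ := Ordinal.typein_surj _ h1
  have h2 : #(Iio a) = succ c := by
    have h3 := congrArg Ordinal.card ha
    rw [card_ord] at h3
    exact h3
  have h4 := h a
  rw [h2] at h4
  exact absurd h4 (not_le.2 (lt_succ c))

/-- Task H5: `x` has size at most `κ_x⁺`. -/
lemma NF.mk_le (h : NF κ U) : ∀ᶠ x in (U : Filter (X κ)), #x.1 ≤ succ (crd (kx x)) := by
  have he : ∀ s : S κ, ∃ e : Iio s → O κ, Function.Injective e := fun s => by
    obtain ⟨e⟩ := Y5_mk_Iio_S s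
    exact ⟨e, e.injective⟩
  choose e he using he
  have h1 : ∀ s : S κ, ∀ᶠ x in (U : Filter (X κ)), ∀ t ∈ x.1, ∀ ht : t < s,
      e s ⟨t, ht⟩ < kx x := by
    intro s
    have h2 := h.diagS (fun t => {x | ∀ ht : t < s, e s ⟨t, ht⟩ < kx x}) (fun t => by
      by_cases ht : t < s
      · filter_upwards [h.unb (e s ⟨t, ht⟩)] with x hx _ using hx
      · filter_upwards with x ht' using absurd ht' ht)
    exact h2
  have h2 := h.diagS (fun s => {x | ∀ t ∈ x.1, ∀ ht : t < s, e s ⟨t, ht⟩ < kx x}) h1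
  filter_upwards [h2] with x hx
  apply Y5_mk_le_of_Iio
  rintro ⟨s, hs⟩
  have h3 : ∀ t : Iio (⟨s, hs⟩ : x.1), t.1.1 < s := fun t => t.2
  refine mk_le_of_injective (f := fun t : Iio (⟨s, hs⟩ : x.1) =>
    (⟨e s ⟨t.1.1, h3 t⟩, hx s hs t.1.1 t.1.2 (h3 t)⟩ : Iio (kx x))) ?_
  intro t t' htt
  have h4 := he s (congrArg Subtype.val htt)
  have h5 : t.1.1 = t'.1.1 := Subtype.mk.inj h4
  exact Subtype.ext (Subtype.ext h5)

/-- Task H5: coding: a subset of `κ_x` chosen for each `x` comes from one subset of `κ`. -/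
lemma NF.code (h : NF κ U) (W : X κ → Set (O κ)) :
    ∃ V : Set (O κ), ∀ᶠ x in (U : Filter (X κ)), ∀ a < kx x, a ∈ W x ↔ a ∈ V := by
  refine ⟨{a | ∀ᶠ x in (U : Filter (X κ)), a ∈ W x}, ?_⟩
  refine h.diag (Z := O κ) id
    (fun a => {x | a ∈ W x ↔ a ∈ {a | ∀ᶠ x in (U : Filter (X κ)), a ∈ W x}})
    (fun a => Y5_mk_Iio_O a) ?_
  intro a
  by_cases ha : ∀ᶠ x in (U : Filter (X κ)), a ∈ W x
  · have h1 : {x | a ∈ W x} ∈ U := ha
    filter_upwards [h1] with x hx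
    exact ⟨fun _ => ha, fun _ => hx⟩
  · have h1 : ∀ᶠ x in (U : Filter (X κ)), a ∉ W x := Ultrafilter.eventually_not.2 ha
    have h2 : {x | a ∉ W x} ∈ U := h1
    filter_upwards [h2] with x hx
    exact ⟨fun h3 => absurd h3 hx, fun h3 => absurd h3 ha⟩

/-- Task H5. -/
lemma NF.two_kx (h : NF κ U) (h2 : (2 : Cardinal.{0}) ^ κ = succ κ) :
    ∀ᶠ x in (U : Filter (X κ)), (2 : Cardinal.{0}) ^ crd (kx x) = succ (crd (kx x)) := by
  have hA : ∃ A : S κ → Set (O κ), Function.Surjective A := by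
    have h3 : #(Set (O κ)) ≤ #(S κ) := by
      rw [mk_set, mk_O, h2, mk_ord_toType]
    obtain ⟨g⟩ := h3
    have : Nonempty (Set (O κ)) := ⟨∅⟩
    exact ⟨Function.invFun g, Function.invFun_surjective g.injective⟩
  obtain ⟨A, hA⟩ := hA
  have h4 : ∀ᶠ x in (U : Filter (X κ)), ∀ Y : Set (O κ), Y ⊆ Iio (kx x) →
      ∃ s ∈ x.1, ∀ a < kx x, a ∈ A s ↔ a ∈ Y := by
    by_contra hcon
    have h5 : ∀ᶠ x in (U : Filter (X κ)), ∃ Y : Set (O κ),
        ∀ s ∈ x.1, ¬ ∀ a < kx x, a ∈ A s ↔ a ∈ Y := by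
      filter_upwards [Ultrafilter.eventually_not.2 hcon] with x hx
      push Not at hx
      obtain ⟨Y, -, hY⟩ := hx
      refine ⟨Y, fun s hs hall => ?_⟩
      obtain ⟨a, ha, ha'⟩ := hY s hs
      have := hall a ha
      tauto
    classical
    let W : X κ → Set (O κ) := fun x =>
      if hx : ∃ Y : Set (O κ), ∀ s ∈ x.1, ¬ ∀ a < kx x, a ∈ A s ↔ a ∈ Y then hx.choose else ∅
    obtain ⟨V, hV⟩ := h.code W
    obtain ⟨s, hs⟩ := hA V
    have h6 := (h5.and (hV.and (h.fine s)))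
    obtain ⟨x, hx1, hx2, hx3⟩ := h6.exists
    have h7 : W x = hx1.choose := dif_pos hx1
    refine hx1.choose_spec s hx3 fun a ha => ?_
    rw [← h7, hs]
    exact (hx2 a ha).symm
  filter_upwards [h4, h.mk_le] with x hx hle
  apply le_antisymm
  · refine le_trans ?_ hle
    have h5 : ∀ Y : Set (Iio (kx x)), ∃ s : x.1, ∀ a : Iio (kx x), a.1 ∈ A s.1 ↔ a ∈ Y := by
      intro Y
      obtain ⟨s, hs, h6⟩ := hx (Subtype.val '' Y) (by
        rintro _ ⟨a, -, rfl⟩
        exact a.2)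
      refine ⟨⟨s, hs⟩, fun a => ?_⟩
      rw [h6 a.1 a.2]
      constructor
      · rintro ⟨b, hb, hba⟩
        rwa [← Subtype.ext hba]
      · exact fun ha => ⟨a, ha, rfl⟩
    choose g hg using h5
    have h6 : #(Set (Iio (kx x))) ≤ #x.1 := mk_le_of_injective (f := g) (by
      intro Y Y' hYY
      ext a
      rw [← hg Y a, ← hg Y' a, hYY])
    rwa [mk_set] at h6
  · exact succ_le_of_lt (cantor _)

/-- Task H6. -/
lemma mk_X (hκ : κ.IsInaccessible) (h2 : (2 : Cardinal.{0}) ^ κ = succ κ) : #(X κ) ≤ succ κ := by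
  have hS : #(S κ) = succ κ := mk_ord_toType _
  have hinf : Infinite (S κ) := by
    rw [infinite_iff, hS]
    exact hκ.aleph0_lt.le.trans (le_succ κ)
  have h1 : #(X κ) ≤ #{t : Set (S κ) // #t ≤ κ} :=
    mk_le_of_injective (f := fun x : X κ => (⟨x.1, x.2.le⟩ : {t : Set (S κ) // #t ≤ κ}))
      (fun a b hab => Subtype.ext (congrArg (fun z : {t : Set (S κ) // #t ≤ κ} => z.1) hab))
  refine h1.trans ((mk_bounded_set_le_of_infinite (S κ) κ).trans ?_)
  rw [hS, ← h2, ← power_mul, mul_eq_self hκ.aleph0_lt.le]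

/-- A small set of ordinals below a regular cardinal is bounded. -/
lemma Y6_bound {T : Set (O κ)} {θ : Cardinal.{0}} (hθ : θ.IsRegular) (hθκ : θ < κ)
    (hT : #T < θ) (h : ∀ a ∈ T, crd a < θ) : ∃ b : O κ, crd b < θ ∧ ∀ a ∈ T, a < b := by
  set f : T → Ordinal.{0} := fun a => Ordinal.typein (α := O κ) (· < ·) a.1 with hf
  have h1 : ∀ i, f i + 1 < θ.ord := by
    intro i
    have h2 : f i < θ.ord := lt_ord.2 (by
      rw [hf]
      exact h i.1 i.2)
    exact (isSuccLimit_ord hθ.aleph0_le).succ_lt h2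
  have h2 : (⨆ i, f i + 1) < θ.ord :=
    Ordinal.iSup_lt_of_lt_cof (by rw [hθ.cof_ord]; exact hT) h1
  have h3 : (⨆ i, f i + 1) < Ordinal.type (α := O κ) (· < ·) := by
    rw [Ordinal.type_toType]
    exact h2.trans (ord_lt_ord.2 hθκ)
  refine ⟨Ordinal.enum (α := O κ) (· < ·) ⟨_, h3⟩, ?_, ?_⟩
  · have h4 : crd (Ordinal.enum (α := O κ) (· < ·) ⟨_, h3⟩) = (⨆ i, f i + 1).card := by
      conv_rhs => rw [← Ordinal.typein_enum (α := O κ) (· < ·) h3]
      rfl
    rw [h4]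
    exact lt_ord.1 h2
  · intro a ha
    rw [← Ordinal.typein_lt_typein (α := O κ) (· < ·), Ordinal.typein_enum]
    have h5 : f ⟨a, ha⟩ + 1 ≤ ⨆ i, f i + 1 := le_ciSup (f := fun i => f i + 1)
      Ordinal.bddAbove_of_small ⟨a, ha⟩
    exact (Order.lt_add_one_iff.2 le_rfl).trans_le h5

lemma Y6_sc_pos (i : ℕ) (hi : 1 ≤ i) (c : Cardinal.{0}) : 0 < sc i c := by
  obtain ⟨n, rfl⟩ : ∃ n, i = n + 1 := ⟨i - 1, by omega⟩
  exact bot_lt_succ (sc n c)

lemma Y6_sc_lt {θ : Cardinal.{0}} (hθ : θ.IsInaccessible) {c : Cardinal.{0}} (hc : c < θ) (i : ℕ) :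
    sc i c < θ := by
  induction i with
  | zero => exact hc
  | succ n ih => exact hθ.isSuccLimit.succ_lt ih

lemma Y6_le_sc (i : ℕ) (c : Cardinal.{0}) : c ≤ sc i c := by
  induction i with
  | zero => exact le_rfl
  | succ n ih => exact ih.trans (le_succ _)

lemma Y6_crd_lt (a : O κ) : crd a < κ := by
  have h := mk_Iio_lt a (by rw [mk_O, Ordinal.type_toType])
  rwa [mk_O] at h

/-- Task H6. -/
lemma NF.bound2 (h : NF κ U) {T : Type} (hT : #T ≤ succ κ) (i : ℕ) (hi : 2 ≤ i)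
    (g : T → X κ → O κ)
    (hg : ∀ s, ∀ᶠ x in (U : Filter (X κ)), crd (g s x) < sc i (crd (kx x))) :
    ∃ g' : X κ → O κ, (∀ x, crd (g' x) < sc i (crd (kx x))) ∧
      ∀ s, ∀ᶠ x in (U : Filter (X κ)), g s x < g' x := by
  obtain ⟨n, rfl⟩ : ∃ n, i = n + 2 := ⟨i - 2, by omega⟩
  have hκ := h.inacc
  have hne : Nonempty (O κ) := by
    rw [← mk_ne_zero_iff, mk_O]
    exact hκ.ne_zero
  obtain ⟨e⟩ : Nonempty (T ↪ S κ) := by
    rw [← Cardinal.le_def, mk_ord_toType]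
    exact hT
  have hbot : ∃ b : O κ, ∀ c, crd b < sc (n + 2) c := by
    obtain ⟨b, hb⟩ : ∃ b : O κ, ∀ a, ¬ a < b :=
      ⟨wellFounded_lt.min univ univ_nonempty, fun a => wellFounded_lt.not_lt_min univ trivial⟩
    refine ⟨b, fun c => ?_⟩
    have h0 : crd b = 0 := by
      rw [crd, mk_eq_zero_iff]
      exact ⟨fun z => hb z.1 z.2⟩
    rw [h0]
    exact Y6_sc_pos _ (by omega) c
  obtain ⟨b₀, hb₀⟩ := hbot
  have key : ∀ x : X κ, #x.1 ≤ succ (crd (kx x)) → (crd (kx x)).IsInaccessible →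
      ∃ b : O κ, crd b < sc (n + 2) (crd (kx x)) ∧
        ∀ s, e s ∈ x.1 → crd (g s x) < sc (n + 2) (crd (kx x)) → g s x < b := by
    intro x hx1 hx2
    have hreg : (sc (n + 2) (crd (kx x))).IsRegular :=
      isRegular_succ (hx2.aleph0_lt.le.trans (Y6_le_sc (n + 1) _))
    have hlt : sc (n + 2) (crd (kx x)) < κ := Y6_sc_lt hκ (Y6_crd_lt _) _
    have hT1 : #((fun s => g s x) '' {s | e s ∈ x.1 ∧ crd (g s x) < sc (n + 2) (crd (kx x))} :
        Set (O κ)) < sc (n + 2) (crd (kx x)) := by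
      refine mk_image_le.trans_lt ?_
      have h1 : #{s | e s ∈ x.1 ∧ crd (g s x) < sc (n + 2) (crd (kx x))} ≤ #x.1 := by
        refine mk_le_of_injective (f := fun s => (⟨e s.1, s.2.1⟩ : x.1)) ?_
        intro a b hab
        exact Subtype.ext (e.injective (congrArg (fun z : x.1 => z.1) hab))
      refine (h1.trans hx1).trans_lt ?_
      refine (lt_succ (succ (crd (kx x)))).trans_le ?_
      exact succ_le_succ (succ_le_succ (Y6_le_sc n _))
    have hT2 : ∀ a ∈ ((fun s => g s x) '' {s | e s ∈ x.1 ∧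
        crd (g s x) < sc (n + 2) (crd (kx x))} : Set (O κ)), crd a < sc (n + 2) (crd (kx x)) := by
      rintro a ⟨s, ⟨-, hs⟩, rfl⟩
      exact hs
    obtain ⟨b, hb1, hb2⟩ := Y6_bound hreg hlt hT1 hT2
    exact ⟨b, hb1, fun s hs1 hs2 => hb2 _ ⟨s, ⟨hs1, hs2⟩, rfl⟩⟩
  classical
  refine ⟨fun x => if hx : #x.1 ≤ succ (crd (kx x)) ∧ (crd (kx x)).IsInaccessible then
    (key x hx.1 hx.2).choose else b₀, fun x => ?_, fun s => ?_⟩
  · by_cases hx : #x.1 ≤ succ (crd (kx x)) ∧ (crd (kx x)).IsInaccessible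
    · simp only [dif_pos hx]
      exact (key x hx.1 hx.2).choose_spec.1
    · simp only [dif_neg hx]
      exact hb₀ _
  · filter_upwards [h.mk_le, h.kx_inacc, h.fine (e s), hg s] with x hx1 hx2 hx3 hx4
    have hx : #x.1 ≤ succ (crd (kx x)) ∧ (crd (kx x)).IsInaccessible := ⟨hx1, hx2⟩
    simp only [dif_pos hx]
    exact (key x hx.1 hx.2).choose_spec.2 s hx3 hx4

/-- Task H7: coding of well-orders (relations on `κ_x`). -/
lemma NF.codeRel (h : NF κ U) (W : X κ → O κ → O κ → Prop) :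
    ∃ V : O κ → O κ → Prop, ∀ᶠ x in (U : Filter (X κ)), ∀ a < kx x, ∀ b < kx x,
      (W x a b ↔ V a b) := by
  have hκ := h.inacc
  refine ⟨fun a b => ∀ᶠ x in (U : Filter (X κ)), W x a b, ?_⟩
  have h1 := h.diag (Z := O κ × O κ) (fun z => max z.1 z.2)
    (fun z => {x | W x z.1 z.2 ↔ ∀ᶠ x in (U : Filter (X κ)), W x z.1 z.2}) ?_ ?_
  · filter_upwards [h1] with x hx a ha b hb
    exact hx (a, b) (max_lt ha hb)
  · intro a
    have h2 : {z : O κ × O κ | max z.1 z.2 < a} = (Iio a) ×ˢ (Iio a) := by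
      ext z
      simp only [mem_ofPred_eq, max_lt_iff, mem_prod, mem_Iio]
    have h3 : #{z : O κ × O κ | max z.1 z.2 < a} = #(Iio a) * #(Iio a) := by
      rw [h2, mk_setProd]
    rw [h3]
    exact mul_lt_of_lt hκ.aleph0_lt.le (Y6_crd_lt a) (Y6_crd_lt a)
  · intro z
    by_cases hz : ∀ᶠ x in (U : Filter (X κ)), W x z.1 z.2
    · refine Filter.mem_of_superset hz fun x hx => ?_
      exact ⟨fun _ => hz, fun _ => hx⟩
    · refine Filter.mem_of_superset (Ultrafilter.eventually_not.2 hz) fun x hx => ?_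
      exact ⟨fun hw => absurd hw hx, fun hw => absurd hw hz⟩

/-- Task H7. -/
lemma NF.bound1 (h : NF κ U) (H : X κ → O κ)
    (hH : ∀ᶠ x in (U : Filter (X κ)), crd (H x) < sc 1 (crd (kx x))) :
    ∃ F : O κ → O κ, (∀ m : O κ, ℵ₀ ≤ crd m → crd (F m) < sc 1 (crd m)) ∧
      ∀ᶠ x in (U : Filter (X κ)), H x ≤ F (kx x) := by
  classical
  have hemb : ∀ x, crd (H x) < sc 1 (crd (kx x)) → Nonempty (Iio (H x) ↪ Iio (kx x)) := by
    intro x hx
    rw [← Cardinal.le_def]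
    exact lt_succ_iff.1 hx
  obtain ⟨V, hV⟩ := h.codeRel (fun x a b => ∃ hx : crd (H x) < sc 1 (crd (kx x)),
    ∃ c d : Iio (H x), ((hemb x hx).some c).1 = a ∧ ((hemb x hx).some d).1 = b ∧ c ≤ d)
  let Emb : O κ → O κ → Prop := fun m η =>
    ∃ f : Iio η → Iio m, ∀ c d, c ≤ d ↔ V (f c).1 (f d).1
  let Good : O κ → O κ → Prop := fun m η => crd η < sc 1 (crd m) ∧ IsGreatest {η | Emb m η} η
  refine ⟨fun m => if hm : ∃ η, Good m η then hm.choose else m, ?_, ?_⟩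
  · intro m _
    by_cases hm : ∃ η, Good m η
    · simp only [dif_pos hm]
      exact hm.choose_spec.1
    · simp only [dif_neg hm]
      exact lt_succ _
  · filter_upwards [hV, hH] with x hx1 hx2
    have hgood : Good (kx x) (H x) := by
      refine ⟨hx2, ⟨(hemb x hx2).some, fun c d => ?_⟩, ?_⟩
      · rw [← hx1 _ ((hemb x hx2).some c).2 _ ((hemb x hx2).some d).2]
        constructor
        · intro hcd
          exact ⟨hx2, c, d, rfl, rfl, hcd⟩
        · rintro ⟨_, c', d', hc, hd, hcd⟩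
          have hc' := (hemb x hx2).some.injective (Subtype.ext hc)
          have hd' := (hemb x hx2).some.injective (Subtype.ext hd)
          rwa [← hc', ← hd']
      · rintro η ⟨f, hf⟩
        by_contra hlt
        rw [not_le] at hlt
        have hran : ∀ c : Iio η, ∃ c' : Iio (H x), (hemb x hx2).some c' = f c := by
          intro c
          have h1 := (hf c c).1 le_rfl
          rw [← hx1 _ (f c).2 _ (f c).2] at h1
          obtain ⟨_, c', _, hc', _, _⟩ := h1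
          exact ⟨c', Subtype.ext hc'⟩
        choose p hp using hran
        have hmono : ∀ c d : Iio η, c ≤ d ↔ p c ≤ p d := by
          intro c d
          rw [hf c d, ← hx1 _ (f c).2 _ (f d).2]
          constructor
          · rintro ⟨_, c', d', hc, hd, hcd⟩
            have hc' : c' = p c := (hemb x hx2).some.injective
              ((Subtype.ext hc).trans (hp c).symm)
            have hd' : d' = p d := (hemb x hx2).some.injective
              ((Subtype.ext hd).trans (hp d).symm)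
            rwa [← hc', ← hd']
          · intro hcd
            exact ⟨hx2, p c, p d, congrArg Subtype.val (hp c), congrArg Subtype.val (hp d), hcd⟩
        let q : Iio η → Iio η := fun c => ⟨(p c).1, (show (p c).1 < H x from (p c).2).trans hlt⟩
        have hq : StrictMono q := by
          intro c d hcd
          have h1 : p c < p d := by
            refine lt_of_not_ge fun hcon => ?_
            exact absurd ((hmono d c).2 hcon) (not_le.2 hcd)
          exact h1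
        have h2 := hq.le_apply (x := (⟨H x, hlt⟩ : Iio η))
        have h3 : H x ≤ (p ⟨H x, hlt⟩).1 := h2
        exact absurd (p ⟨H x, hlt⟩).2 (not_lt.2 h3)
    have hm : ∃ η, Good (kx x) η := ⟨_, hgood⟩
    simp only [dif_pos hm]
    exact hm.choose_spec.2.2 hgood.2.1

end Hyp

/-- Task H8: the Prikry data. -/
theorem exists_PD {κ : Cardinal.{0}} (h : IsSupercompact κ (succ κ))
    (h2 : (2 : Cardinal.{0}) ^ κ = succ κ)
    (h3 : (2 : Cardinal.{0}) ^ (succ κ) = succ (succ κ)) :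
    ∃ (Ω X : Type) (_ : LinearOrder Ω) (_ : WellFoundedLT Ω) (D : PD Ω X), D.κ = κ := by
  obtain ⟨U, hU⟩ := Hyp.exists_NF h
  refine ⟨Hyp.O κ, Hyp.X κ, inferInstance, inferInstance,
    { κ := κ
      U := U
      kx := Hyp.kx
      W := {m | (∀ a < m, crd a < crd m) ∧ (crd m).IsInaccessible ∧
        (2 : Cardinal.{0}) ^ (crd m) = succ (crd m)}
      κ_inacc := hU.inacc
      mk_Ω := Hyp.mk_O κ
      crd_lt := Hyp.Y6_crd_lt
      two_κ := h2
      two_κs := h3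
      mk_X := Hyp.mk_X hU.inacc h2
      W_init := fun m hm => hm.1
      W_inacc := fun m hm => hm.2.1
      W_two := fun m hm => hm.2.2
      kx_W := ?_
      unb := hU.unb
      diag := hU.diag
      bound1 := ?_
      bound2 := fun hS i hi g hg => hU.bound2 hS i hi g hg }, rfl⟩
  · filter_upwards [hU.kx_init, hU.kx_inacc, hU.two_kx h2] with x h4 h5 h6
    exact ⟨h4, h5, h6⟩
  · intro H hH
    obtain ⟨F, hF1, hF2⟩ := hU.bound1 H hH
    exact ⟨F, fun m hm => hF1 m hm.2.1.aleph0_lt.le, hF2⟩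

end Pool.PC
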