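import Pool.Agent.Lib.MP_ad72f3_pc.Cof
import Pool.Agent.Lib.MP_ad72f3_pc.ZFg
import Pool.Agent.Lib.MP_ad72f3_pc.Hyp

/-!
# The main theorem
-/

set_option autoImplicit false
set_option linter.unusedSectionVars false

open Cardinal Set Order

namespace Pool.PC

open Pool.MP_3ade05_lc

lemma nonempty_cond (Ω : Type) [LinearOrder Ω] [WellFoundedLT Ω] (X : Type) [D : PD Ω X] :
    Nonempty (Cond Ω X) := by
  obtain ⟨m, hm, -⟩ := exists_mem_W (X := X) (zz Ω X)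
  have hcol : ∀ θ : Cardinal.{0}, 0 < θ → IsCol (Ω := Ω) θ (fun _ => none) := by
    intro θ hθ
    refine ⟨?_, fun a b h => absurd h (by simp)⟩
    have h1 : IsEmpty (pdom (fun _ : Ω => (none : Option Ω))) := ⟨fun a => a.2 rfl⟩
    rw [mk_eq_zero]
    exact hθ
  have hpos : ∀ (i : ℕ) (m' : Ω), m' ∈ D.W → 0 < sc i (crd m') := fun i m' hm' =>
    (aleph0_pos.trans (aleph0_lt_crd (X := X) hm')).trans_le (sc_le (Nat.zero_le i) _)
  refine ⟨⟨m, [], [fun _ => none], ⟨fun _ => none, fun _ => none, univ, fun _ _ => none⟩, ?_, ?_⟩⟩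
  · refine ⟨hm, by simp, hcol _ ?_, fun a b h => absurd h (by simp), trivial⟩
    exact aleph0_pos
  · refine ⟨hcol _ (hpos 4 m hm), fun α ρ σ h => absurd h (by simp), fun m' hm' hlt => ?_,
      Filter.univ_mem, fun m' hm' => hcol _ (hpos 4 m' hm')⟩
    have h1 : IsEmpty {α : Crd Ω X | ∃ ρ σ, (none : Option (Ω × (ℕ → Option Ω))) = some (ρ, σ) ∧
        ρ < m'} := ⟨fun a => by
      obtain ⟨ρ, σ, h, -⟩ := a.2
      exact absurd h (by simp)⟩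
    rw [mk_eq_zero]
    exact zero_le

/-- Task T: the main theorem. -/
theorem main {κ : Cardinal.{0}} (h : IsSupercompact κ (succ κ))
    (h2 : (2 : Cardinal.{0}) ^ κ = succ κ)
    (h3 : (2 : Cardinal.{0}) ^ (succ κ) = succ (succ κ)) :
    ∃ V : Set ZFSet.{0}, V.Countable ∧ (∀ x ∈ V, ∀ y ∈ x, y ∈ V) ∧ ZFCModel V ∧
      ∃ (al : ℕ → ZFSet.{0}) (w w₁ w₂ : ZFSet.{0}), Alephs V al w w₁ w₂ ∧
        CofIs V al {n | n % 4 = 0 ∨ n % 4 = 1} w₁ ∧ CofIs V al {n | n % 4 = 2 ∨ n % 4 = 3} w₂ := by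
  obtain ⟨Ω, X, iL, iW, D, -⟩ := exists_PD h h2 h3
  obtain ⟨dec0, hdec0⟩ := exists_dec0 Ω X
  obtain ⟨dec1, hdec1⟩ := exists_dec1 Ω X
  have hκ0 : D.κ ≤ succ D.κ := le_succ _
  have hcard : ∀ (c : Cardinal.{0}) (δ : Ordinal.{0}), δ < (succ c).ord → #δ.ToType ≤ c := by
    intro c δ hδ
    rw [mk_toType]
    exact lt_succ_iff.1 (lt_ord.1 hδ)
  have e1 := Ev.zf (P := PP Ω X)
  have e2 := Ev.choice (P := PP Ω X)
  have e3 := Ev.gb (Ω := Ω) (X := X)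
  have e4 := Ev.infCard_κ (Ω := Ω) (X := X)
  have e5 := Ev.alephs (Ω := Ω) (X := X)
  have e6 := Ev.upper A0 (TR0.tt (Ω := Ω) (X := X)) (succ D.κ).ord dec0
    (fun p R hR => up0 hdec0 p R hR)
  have e7 := Ev.upper A1 (TR1.tt (Ω := Ω) (X := X)) (succ (succ D.κ)).ord dec1
    (fun p R hR => up1 hdec1 p R hR)
  have e8 := Ev.lower A0 (TR0.tt (Ω := Ω) (X := X)) (succ D.κ).ord dec0
    (fun δ hδ p R hR => lo0 hdec0 (hcard _ δ hδ) p R hR)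
  have e9 := Ev.lower A1 (TR1.tt (Ω := Ω) (X := X)) (succ (succ D.κ)).ord dec1
    (fun δ hδ p R hR => lo1 hdec1 (hcard _ δ hδ) p R hR)
  obtain ⟨p₀⟩ := nonempty_cond Ω X
  obtain ⟨U, H, hU, hH, -, ⟨⟨⟨⟨⟨⟨⟨⟨q1, q2⟩, K, hK⟩, q4⟩, q5⟩, q6⟩, q7⟩, q8⟩, q9⟩⟩ :=
    ((((((((e1.and e2).and e3).and e4).and e5).and e6).and e7).and e8).and e9).exists_hull
      (ULift.up p₀)
  refine ⟨MM U H, MM_countable hU, fun x hx y hy => MM_trans hx hy, ⟨q1, q2⟩,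
    alN U H K, _, _, _, q5 K hK, ?_, ?_⟩
  · exact ⟨(q4 K hK).2.1, q6 K hK hK.κs_mem, q8 K hK hK.κs_mem⟩
  · exact ⟨(q4 K hK).2.2, q7 K hK hK.κss_mem, q9 K hK hK.κss_mem⟩

end Pool.PC
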