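import Pool.Agent.Lib.MP_ad72f3_pc.Comb
import Pool.Agent.Lib.MP_ad72f3_pc.Clos

/-!
# Task P: the Prikry property
-/

set_option autoImplicit false
set_option linter.unusedSectionVars false

open Cardinal Set Order

namespace Pool.PC

variable {Ω : Type} [LinearOrder Ω] [WellFoundedLT Ω] {X : Type} [D : PD Ω X]

namespace P1

/-- A bounded partial function is below `κ_x` for almost all `x`. -/
lemma eventually_belowC {θ : Cardinal.{0}} (hθ : θ < D.κ) {c : PF Ω} (hc : IsCol θ c) :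
    ∀ᶠ x in (D.U : Filter X), BelowC c (D.kx x) := by
  have hreg : D.κ.IsRegular := D.κ_inacc.isRegular
  have h1 : #{b : Ω | ∃ a, c a = some b} < D.κ := by
    refine lt_of_le_of_lt ?_ (hc.1.trans hθ)
    have h2 : ∀ b : {b : Ω | ∃ a, c a = some b}, ∃ a : pdom c, c a = some b.1 := by
      rintro ⟨b, a, h⟩
      exact ⟨⟨a, by simp [pdom, h]⟩, h⟩
    choose g hg using h2
    refine mk_le_of_injective (f := g) ?_
    intro b b' h
    have h3 := hg b
    rw [h, hg b'] at h3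
    exact Subtype.ext (Option.some_injective _ h3).symm
  obtain ⟨b, -, hb⟩ := exists_bound (X := X) hreg le_rfl h1 (fun a _ => D.crd_lt a)
  filter_upwards [D.unb b] with x hx a b' h
  exact (hb b' ⟨a, h⟩).trans hx

lemma eventually_OK {m : Ω} {u : Up Ω X} (hu : u.V m) :
    ∀ᶠ x in (D.U : Filter X), u.OK m x := by
  filter_upwards [hu.hA, D.kx_W, D.unb m, eventually_belowC (sc_crd_lt_κ (X := X) m 4) hu.hc]
    with x h1 h2 h3 h4
  exact ⟨h1, h2, h3, h4⟩

/-- No direct extension is good. -/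
def Hop (Good : Set (Cond Ω X)) (p : Cond Ω X) : Prop := ∀ q : Cond Ω X, q.Dle p → q ∉ Good

/-- Hopeless for `k` steps. -/
def HH (Good : Set (Cond Ω X)) : ℕ → Cond Ω X → Prop
  | 0, p => Hop Good p
  | k + 1, p => Hop Good p ∧ ∀ x (hx : p.u.OK p.m x), HH Good k (p.step x hx)

lemma HH.mono {Good : Set (Cond Ω X)} {k : ℕ} {p q : Cond Ω X} (h : HH Good k p)
    (hq : q.Dle p) : HH Good k q := by
  induction k generalizing p q with
  | zero => exact fun q' hq' => h q' (hq'.trans hq)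
  | succ k ih =>
    refine ⟨fun q' hq' => h.1 q' (hq'.trans hq), fun x hx => ?_⟩
    exact ih (h.2 x (hq.OK hx)) (hq.step hx)

lemma HH.hop {Good : Set (Cond Ω X)} {k : ℕ} {p : Cond Ω X} (h : HH Good k p) :
    Hop Good p := by
  cases k with
  | zero => exact h
  | succ k => exact h.1

lemma not_good_of_HH {Good : Set (Cond Ω X)} {p q : Cond Ω X} (hq : q ≤ p)
    (h : ∀ k, HH Good k p) : q ∉ Good := by
  have hq' : Cond.Ext q p := hq
  induction hq' with
  | dir h1 => exact h 0 _ h1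
  | step x hx h1 ih => exact ih h1 (fun k => (h (k + 1)).2 x hx)

lemma dle_mk {m : Ω} {s : List Ω} {r r' : List (PF Ω)} {u u' : Up Ω X}
    {low : LowV X (m :: s) r} {up : u.V m} {low' : LowV X (m :: s) r'} {up' : u'.V m}
    (hr : List.Forall₂ Sub r r') (hu : u'.Le m u) :
    (⟨m, s, r', u', low', up'⟩ : Cond Ω X).Dle ⟨m, s, r, u, low, up⟩ := ⟨rfl, rfl, hr, hu⟩

lemma sub_refl_list (r : List (PF Ω)) : List.Forall₂ Sub r r :=
  List.forall₂_same.2 fun c _ => Sub.refl c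

/-- The induction. -/
theorem stepA {J : Type} (hJ : #J < D.κ) (G : J → Set (Cond Ω X))
    (hopen : ∀ j (p p' : Cond Ω X), p'.Dle p → p ∈ G j → p' ∈ G j)
    (hstep : ∀ j (p : Cond Ω X), (∀ x (hx : p.u.OK p.m x), p.step x hx ∈ G j) → ∃ j', p ∈ G j')
    (k : ℕ) : ∀ (m : Ω) (s : List Ω) (r : List (PF Ω)) (u : Up Ω X) (low : LowV X (m :: s) r)
      (up : u.V m), ∃ (u' : Up Ω X) (up' : u'.V m), u'.Le m u ∧
      ((∃ (r' : List (PF Ω)) (low' : LowV X (m :: s) r'), List.Forall₂ Sub r r' ∧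
        (⟨m, s, r', u', low', up'⟩ : Cond Ω X) ∈ {q | ∃ j, q ∈ G j}) ∨
        HH {q | ∃ j, q ∈ G j} k ⟨m, s, r, u', low, up'⟩) := by
  set Good : Set (Cond Ω X) := {q | ∃ j, q ∈ G j} with hGood
  have hGo : ∀ p p' : Cond Ω X, p'.Dle p → p ∈ Good → p' ∈ Good := by
    rintro p p' h ⟨j, hj⟩
    exact ⟨j, hopen j p p' h hj⟩
  -- either there is a good direct extension or not
  have key : ∀ (m : Ω) (s : List Ω) (r : List (PF Ω)) (u : Up Ω X) (low : LowV X (m :: s) r)
      (up : u.V m), ¬ Hop Good ⟨m, s, r, u, low, up⟩ →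
      ∃ (u' : Up Ω X) (up' : u'.V m), u'.Le m u ∧
      (∃ (r' : List (PF Ω)) (low' : LowV X (m :: s) r'), List.Forall₂ Sub r r' ∧
        (⟨m, s, r', u', low', up'⟩ : Cond Ω X) ∈ Good) := by
    intro m s r u low up h
    unfold Hop at h
    push Not at h
    obtain ⟨⟨m', s', r', u', low', up'⟩, hq, hq'⟩ := h
    obtain ⟨h1, h2, h3, h4⟩ := hq
    dsimp only at h1 h2 h3 h4
    subst h1
    subst h2
    exact ⟨u', up', h4, r', low', h3, hq'⟩
  induction k with
  | zero =>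
    intro m s r u low up
    by_cases h : Hop Good ⟨m, s, r, u, low, up⟩
    · exact ⟨u, up, Up.Le.refl _ _, Or.inr h⟩
    · obtain ⟨u', up', h1, h2⟩ := key m s r u low up h
      exact ⟨u', up', h1, Or.inl h2⟩
  | succ k ih =>
    intro m s r u low up
    -- the sets
    let S : (μ : Ω) → List (PF Ω) → Set (Up Ω X) := fun μ rr =>
      {v | ∀ (low' : LowV X (μ :: m :: s) rr) (up' : v.V μ),
        (∃ (r' : List (PF Ω)) (low'' : LowV X (μ :: m :: s) r'), List.Forall₂ Sub rr r' ∧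
          (⟨μ, m :: s, r', v, low'', up'⟩ : Cond Ω X) ∈ Good) ∨
          HH Good k ⟨μ, m :: s, rr, v, low', up'⟩}
    have hSopen : ∀ μ rr (v v' : Up Ω X), v.V μ → v'.V μ → v'.Le μ v → v ∈ S μ rr →
        v' ∈ S μ rr := by
      intro μ rr v v' hv hv' hle hvS low' up'
      rcases hvS low' hv with ⟨r', low'', h1, h2⟩ | h
      · exact Or.inl ⟨r', low'', h1, hGo _ _ (dle_mk (sub_refl_list _) hle) h2⟩
      · exact Or.inr (h.mono (dle_mk (sub_refl_list _) hle))
    have hSdense : ∀ μ rr (v : Up Ω X), v.V μ → ∃ v' : Up Ω X, v'.V μ ∧ v'.Le μ v ∧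
        v' ∈ S μ rr := by
      intro μ rr v hv
      by_cases hlow : LowV X (μ :: m :: s) rr
      · obtain ⟨u', up', h1, h2⟩ := ih μ (m :: s) rr v hlow hv
        exact ⟨u', up', h1, fun low' up'' => h2⟩
      · exact ⟨v, hv, Up.Le.refl _ _, fun low' => absurd low' hlow⟩
    let Φ : Ω → Set (Up Ω X) := fun μ => {v | ∀ rr, LowV X (μ :: m :: s) rr → v ∈ S μ rr}
    obtain ⟨u1, hu1, hle1, hc1, hΦ⟩ := combine m (m :: s).length Φ
      (fun m' _ _ v v' hv hv' hle h rr hrr => hSopen m' rr v v' hv hv' hle (h rr hrr))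
      (fun m' hm' hlt v hv => by
        obtain ⟨v', h1, h2, h3⟩ := Up.meet (X := X) hm'
          (ι := {rr : List (PF Ω) | LowV X (m' :: m :: s) rr})
          (mk_low_le.trans (sc_le (i := 0) (j := 3) (by omega) (crd m')))
          (fun rr => S m' rr.1) (fun rr v v' => hSopen m' rr.1 v v')
          (fun rr v => hSdense m' rr.1 v) v hv
        exact ⟨v', h1, h2, fun rr hrr => h3 ⟨rr, hrr⟩⟩) u up
    let p1 : Cond Ω X := ⟨m, s, r, u1, low, hu1⟩
    have hp1 : ∀ x (hx : u1.OK m x),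
        (∃ (r' : List (PF Ω)) (low'' : LowV X (D.kx x :: m :: s) r'),
          List.Forall₂ Sub (u1.c :: r) r' ∧
          (⟨D.kx x, m :: s, r', u1.step (m :: s).length x, low'', hu1.step _ hx⟩ : Cond Ω X)
            ∈ Good) ∨ HH Good k (p1.step x hx) := by
      intro x hx
      exact hΦ x hx (u1.c :: r) (p1.step x hx).low (p1.step x hx).low (hu1.step _ hx)
    have hOK := eventually_OK hu1
    by_cases hcase : ∀ᶠ x in (D.U : Filter X), ∀ hx : u1.OK m x, HH Good k (p1.step x hx)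
    · -- case (b)
      let u2 : Up Ω X := ⟨u1.c, u1.f, u1.A ∩ {x | ∀ hx : u1.OK m x, HH Good k (p1.step x hx)},
        u1.F⟩
      have hu2 : u2.V m := ⟨hu1.hc, hu1.ff, hu1.fs, Filter.inter_mem hu1.hA hcase, hu1.hF⟩
      have hle2 : u2.Le m u1 := ⟨Sub.refl _, fun α ρ σ h => ⟨ρ, h, rfl⟩, fun x hx _ => hx.1,
        fun _ _ _ => Sub.refl _⟩
      by_cases hhop : Hop Good ⟨m, s, r, u2, low, hu2⟩
      · refine ⟨u2, hu2, hle2.trans hle1, Or.inr ⟨hhop, fun x hx => ?_⟩⟩
        have hx1 : u1.OK m x := hle2.OK hx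
        have h1 := hx.A.2 hx1
        have hd : (⟨m, s, r, u2, low, hu2⟩ : Cond Ω X).Dle p1 := dle_mk (sub_refl_list _) hle2
        exact h1.mono (hd.step hx)
      · obtain ⟨u', up', h1, h2⟩ := key m s r u2 low hu2 hhop
        exact ⟨u', up', h1.trans (hle2.trans hle1), Or.inl h2⟩
    · -- case (a)
      have hcase' : ∀ᶠ x in (D.U : Filter X), ¬ ∀ hx : u1.OK m x, HH Good k (p1.step x hx) :=
        Ultrafilter.eventually_not.2 hcase
      have h3 : ∀ᶠ x in (D.U : Filter X), ∃ (c : PF Ω) (r' : List (PF Ω)) (j : J)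
          (hx : u1.OK m x) (low'' : LowV X (D.kx x :: m :: s) (c :: r')),
          Sub u1.c c ∧ List.Forall₂ Sub r r' ∧
          (⟨D.kx x, m :: s, c :: r', u1.step (m :: s).length x, low'', hu1.step _ hx⟩ : Cond Ω X)
            ∈ G j := by
        filter_upwards [hcase', hOK] with x h4 hx
        rcases hp1 x hx with ⟨r', low'', h5, j, h6⟩ | h5
        · cases r' with
          | nil => exact absurd h5 (by simp)
          | cons c r' =>
            rw [List.forall₂_cons] at h5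
            exact ⟨c, r', j, hx, low'', h5.1, h5.2, h6⟩
        · exact absurd (fun _ => h5) h4
      -- choose
      classical
      have hJne : Nonempty J := by
        obtain ⟨x, c, r', j, -⟩ := h3.exists
        exact ⟨j⟩
      let P : X → PF Ω → List (PF Ω) → J → Prop := fun x c r' j =>
        ∃ (hx : u1.OK m x) (low'' : LowV X (D.kx x :: m :: s) (c :: r')),
          Sub u1.c c ∧ List.Forall₂ Sub r r' ∧
          (⟨D.kx x, m :: s, c :: r', u1.step (m :: s).length x, low'', hu1.step _ hx⟩ : Cond Ω X)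
            ∈ G j
      have h3' : ∀ x, ∃ z : PF Ω × List (PF Ω) × J, (∃ c r' j, P x c r' j) →
          P x z.1 z.2.1 z.2.2 := by
        intro x
        by_cases h : ∃ c r' j, P x c r' j
        · obtain ⟨c, r', j, h⟩ := h
          exact ⟨⟨c, r', j⟩, fun _ => h⟩
        · exact ⟨⟨u1.c, r, Classical.arbitrary J⟩, fun h' => absurd h' h⟩
      choose z hz using h3'
      have h4 : ∀ᶠ x in (D.U : Filter X), P x (z x).1 (z x).2.1 (z x).2.2 := by
        filter_upwards [h3] with x hx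
        exact hz x hx
      obtain ⟨c', hc'⟩ := col_const (sc_crd_lt_κ (X := X) m 4) (fun x => (z x).1) (by
        filter_upwards [h4] with x hx
        obtain ⟨hx1, low'', -⟩ := hx
        exact ⟨low''.2.2.1, low''.2.2.2.1⟩)
      obtain ⟨j, hj⟩ := eventually_const hJ (fun x => (z x).2.2)
      obtain ⟨r', hr'⟩ := eventually_const (X := X)
        (Z := {rr : List (PF Ω) | LowV X (m :: s) rr}) ((mk_low_le).trans_lt (D.crd_lt m))
        (fun x => if h : LowV X (m :: s) (z x).2.1 then ⟨(z x).2.1, h⟩ else ⟨r, low⟩)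
      let A' : Set X := {x | P x (z x).1 (z x).2.1 (z x).2.2 ∧ (z x).1 = c' ∧ (z x).2.2 = j ∧
        (z x).2.1 = r'.1}
      have hA' : A' ∈ D.U := by
        filter_upwards [h4, hc', hj, hr'] with x h5 h6 h7 h8
        refine ⟨h5, h6, h7, ?_⟩
        obtain ⟨hx1, low'', -⟩ := h5
        rw [dif_pos low''.2.2.2.2] at h8
        exact congrArg Subtype.val h8
      obtain ⟨x₀, hx₀⟩ := (show ∀ᶠ x in (D.U : Filter X), x ∈ A' from hA').exists
      obtain ⟨⟨hx1, low'', hs1, hs2, -⟩, e1, -, e3⟩ := hx₀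
      have hcc : IsCol (sc 4 (crd m)) c' := by
        have := low''.2.2.1
        rwa [e1] at this
      have hsub : Sub u1.c c' := by rwa [e1] at hs1
      have hsubr : List.Forall₂ Sub r r'.1 := by rwa [e3] at hs2
      let u3 : Up Ω X := ⟨c', u1.f, u1.A ∩ A', u1.F⟩
      have hu3 : u3.V m := ⟨hcc, hu1.ff, hu1.fs, Filter.inter_mem hu1.hA hA', hu1.hF⟩
      have hle3 : u3.Le m u1 := ⟨hsub, fun α ρ σ h => ⟨ρ, h, rfl⟩, fun x hx _ => hx.1,
        fun _ _ _ => Sub.refl _⟩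
      let p3 : Cond Ω X := ⟨m, s, r'.1, u3, r'.2, hu3⟩
      have h9 : ∀ x (hx : p3.u.OK p3.m x), p3.step x hx ∈ G j := by
        intro x hx
        obtain ⟨⟨hx1, low2, hs3, hs4, h10⟩, f1, f2, f3⟩ := hx.A.2
        rw [f2] at h10
        refine hopen j _ _ ?_ h10
        refine dle_mk ?_ ?_
        · rw [f1, f3]
          exact sub_refl_list _
        · exact ⟨Sub.refl _, fun α ρ σ h => ⟨ρ, h, rfl⟩, fun y hy _ => hy.1,
            fun _ _ _ => Sub.refl _⟩
      obtain ⟨j', hj'⟩ := hstep j p3 h9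
      exact ⟨u3, hu3, hle3.trans hle1, Or.inl ⟨r'.1, r'.2, hsubr, j', hj'⟩⟩

end P1

open P1 in
/-- THE GENERAL PRIKRY THEOREM. -/
theorem prikry {J : Type} (hJ : #J < D.κ) (G : J → Set (Cond Ω X))
    (hopen : ∀ j (p p' : Cond Ω X), p'.Dle p → p ∈ G j → p' ∈ G j)
    (hstep : ∀ j (p : Cond Ω X), (∀ x (hx : p.u.OK p.m x), p.step x hx ∈ G j) → ∃ j', p ∈ G j')
    (hdense : ∀ p : Cond Ω X, ∃ q ≤ p, ∃ j, q ∈ G j) (p : Cond Ω X) :
    ∃ q : Cond Ω X, q.Dle p ∧ ∃ j, q ∈ G j := by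
  by_contra hno
  push Not at hno
  obtain ⟨m, s, r, u, low, up⟩ := p
  -- the decreasing sequence
  have hmW : m ∈ D.W := low.mem_W
  have hseq : ∀ (k : ℕ) (v : {v : Up Ω X // v.V m ∧ v.Le m u}),
      ∃ v' : {v : Up Ω X // v.V m ∧ v.Le m u}, v'.1.Le m v.1 ∧
        HH {q | ∃ j, q ∈ G j} k ⟨m, s, r, v'.1, low, v'.2.1⟩ := by
    rintro k ⟨v, hv, hvu⟩
    obtain ⟨v', hv', hle, h⟩ := stepA hJ G hopen hstep k m s r v low hv
    refine ⟨⟨v', hv', hle.trans hvu⟩, hle, ?_⟩
    rcases h with ⟨r', low', h1, j, h2⟩ | h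
    · exact absurd h2 (hno _ (dle_mk h1 (hle.trans hvu)) j)
    · exact h
  choose g hg1 hg2 using hseq
  let w : ℕ → {v : Up Ω X // v.V m ∧ v.Le m u} := fun n =>
    Nat.rec ⟨u, up, Up.Le.refl _ _⟩ (fun k v => g k v) n
  have hw : ∀ n, (w (n + 1)).1.Le m (w n).1 := fun n => hg1 n (w n)
  have hwm : ∀ i j, i < j → (w j).1.Le m (w i).1 := by
    intro i j hij
    induction j, hij using Nat.le_induction with
    | base => exact hw i
    | succ j _ ih => exact (hw j).trans ih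
  obtain ⟨v, hv, hvle⟩ := Up.closure (X := X) hmW ℕ (by
    rw [mk_nat]
    exact (aleph0_lt_crd (X := X) hmW).le.trans (sc_le (i := 0) (j := 3) (by omega) (crd m)))
    (fun n => (w n).1) (fun n => (w n).2.1) hwm
  have hHH : ∀ k, HH {q | ∃ j, q ∈ G j} k ⟨m, s, r, v, low, hv⟩ := by
    intro k
    exact (hg2 k (w k)).mono (dle_mk (sub_refl_list _) (hvle (k + 1)))
  obtain ⟨q, hq, j, hj⟩ := hdense ⟨m, s, r, v, low, hv⟩
  exact not_good_of_HH hq hHH ⟨j, hj⟩

end Pool.PC
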